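import Pool.Agent.MP_21eaa0_an.Laplace

/-!
Laplace transforms: closed cones, functionals, and resolvent sets.
-/

open Filter Topology MeasureTheory Set

namespace Pool.Agent.MP_21eaa0_an

section Basic

variable {E : Type*} [NormedAddCommGroup E] [NormedSpace ℂ E] [CompleteSpace E]
  {T : ℝ → E →L[ℂ] E} {C ω lam : ℝ}

/-- The pair of Laplace transforms lies in any closed convex cone containing the pairs of orbits. -/
theorem LapData.pair_mem (h : LapData T C ω lam) {S : Set (E × E)} (hcl : IsClosed S)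
    (hadd : ∀ p ∈ S, ∀ q ∈ S, p + q ∈ S) (hsmul : ∀ r : ℝ, 0 ≤ r → ∀ p ∈ S, (r : ℂ) • p ∈ S)
    {f g : E} (hfg : ∀ t, 0 < t → (T t f, T t g) ∈ S) : (h.lap f, h.lap g) ∈ S := by
  have hsmul' : ∀ r : ℝ, 0 ≤ r → ∀ p ∈ S, r • p ∈ S := by
    intro r hr p hp
    have := hsmul r hr p hp
    rwa [Complex.coe_smul] at this
  have hconv : Convex ℝ S := by
    intro p hp q hq a b ha hb _
    exact hadd _ (hsmul' a ha p hp) _ (hsmul' b hb q hq)
  set w : ℝ → E × E := fun t => (Real.exp (-lam * t) • T t f, Real.exp (-lam * t) • T t g) with hw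
  have hwS : ∀ t, 0 < t → w t ∈ S := by
    intro t ht
    have := hsmul' (Real.exp (-lam * t)) (Real.exp_pos _).le _ (hfg t ht)
    exact this
  have hint : IntegrableOn w (Ioi 0) := (h.integrableOn f).prodMk (h.integrableOn g)
  have hlap : (h.lap f, h.lap g) = ∫ t in Ioi 0, w t := by
    rw [h.lap_apply, h.lap_apply, hw, integral_pair (h.integrableOn f) (h.integrableOn g)]
  rw [hlap]
  have hlim := intervalIntegral_tendsto_integral_Ioi 0 hint tendsto_natCast_atTop_atTop
    (l := (atTop : Filter ℕ))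
  apply hcl.mem_of_tendsto hlim
  filter_upwards [eventually_gt_atTop 0] with N hN
  have hN' : (0 : ℝ) < N := by exact_mod_cast hN
  rw [intervalIntegral.integral_of_le hN'.le]
  have hav := hconv.set_average_mem hcl (f := w) (t := Ioc 0 (N : ℝ)) (μ := volume)
    (by rw [Real.volume_Ioc]; simpa using hN.ne')
    (by rw [Real.volume_Ioc]; exact ENNReal.ofReal_ne_top)
    (by
      rw [ae_restrict_iff' measurableSet_Ioc]
      exact Eventually.of_forall fun t ht => hwS t ht.1)
    (hint.mono_set (fun z hz => hz.1))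
  rw [setAverage_eq, Real.volume_real_Ioc_of_le hN'.le, sub_zero] at hav
  have := hsmul' N hN'.le _ hav
  rwa [smul_smul, mul_inv_cancel₀ hN'.ne', one_smul] at this

theorem LapData.map_lap (h : LapData T C ω lam) {F : Type*} [NormedAddCommGroup F]
    [NormedSpace ℂ F] [CompleteSpace F] (Φ : E →L[ℂ] F) (f : E) :
    Φ (h.lap f) = ∫ t in Ioi 0, Real.exp (-lam * t) • Φ (T t f) := by
  rw [h.lap_apply, ← ContinuousLinearMap.integral_comp_comm Φ (h.integrableOn f)]
  congr 1
  funext t
  rw [← Complex.coe_smul, map_smul, Complex.coe_smul]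

omit [CompleteSpace E] in
/-- helper: real scalars pass through complex-linear maps -/
theorem map_real_smul {F : Type*} [NormedAddCommGroup F] [NormedSpace ℂ F] (Φ : E →L[ℂ] F)
    (r : ℝ) (x : E) : Φ (r • x) = r • Φ x := by
  rw [← Complex.coe_smul, map_smul, Complex.coe_smul]

theorem LapData.integrableOn_map (h : LapData T C ω lam) {F : Type*} [NormedAddCommGroup F]
    [NormedSpace ℂ F] [CompleteSpace F] (Φ : E →L[ℂ] F) (f : E) :
    IntegrableOn (fun t => Real.exp (-lam * t) • Φ (T t f)) (Ioi 0) := by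
  have h1 := Φ.integrable_comp (h.integrableOn f)
  refine h1.congr (Eventually.of_forall fun t => ?_)
  exact map_real_smul Φ _ _

omit [CompleteSpace E] in
/-- transfer of the spectrum from a resolvent operator -/
theorem mem_resolventSet_of {A : E → E → Prop} {R : E →L[ℂ] E} {lam z : ℂ}
    (h1 : ∀ g, A (R g) (lam • R g - g)) (h2 : ∀ f h, A f h → R (lam • f - h) = f)
    (hz : lam ≠ z) (hu : (lam - z)⁻¹ ∉ spectrum ℂ R) : z ∈ resolventSet A := by
  have hc : lam - z ≠ 0 := sub_ne_zero.2 hz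
  set c : ℂ := lam - z with hcdef
  have hunit : IsUnit (algebraMap ℂ (E →L[ℂ] E) c⁻¹ - R) := by
    by_contra hcon
    exact hu hcon
  obtain ⟨X, hX⟩ := hunit.exists_right_inv
  obtain ⟨X', hX'⟩ := hunit.exists_left_inv
  have hXX : X' = X := by
    calc X' = X' * ((algebraMap ℂ (E →L[ℂ] E) c⁻¹ - R) * X) := by rw [hX, mul_one]
      _ = X := by rw [← mul_assoc, hX', one_mul]
  rw [hXX] at hX'
  have hcomm : R * X = X * R := by
    have e : R * (algebraMap ℂ (E →L[ℂ] E) c⁻¹ - R) = (algebraMap ℂ (E →L[ℂ] E) c⁻¹ - R) * R := by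
      rw [mul_sub, sub_mul, Algebra.commutes]
    calc R * X = X * (algebraMap ℂ (E →L[ℂ] E) c⁻¹ - R) * (R * X) := by rw [hX', one_mul]
      _ = X * ((algebraMap ℂ (E →L[ℂ] E) c⁻¹ - R) * R) * X := by simp only [mul_assoc]
      _ = X * (R * (algebraMap ℂ (E →L[ℂ] E) c⁻¹ - R)) * X := by rw [e]
      _ = X * R * ((algebraMap ℂ (E →L[ℂ] E) c⁻¹ - R) * X) := by simp only [mul_assoc]
      _ = X * R := by rw [hX, mul_one]
  have hQ : ∀ s : E, (algebraMap ℂ (E →L[ℂ] E) c⁻¹ - R) s = c⁻¹ • s - R s := by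
    intro s
    rw [Algebra.algebraMap_eq_smul_one]; rfl
  have hXap : ∀ s : E, c⁻¹ • X s - R (X s) = s := by
    intro s
    rw [← hQ]
    exact congrArg (fun z => z s) hX
  have hXap' : ∀ s : E, X (c⁻¹ • s - R s) = s := by
    intro s
    rw [← hQ]
    exact congrArg (fun z => z s) hX'
  refine ⟨c⁻¹ • (R * X), ?_, ?_⟩
  · intro g
    have e1 : (c⁻¹ • (R * X)) g = R (c⁻¹ • X g) := by
      rw [map_smul]; rfl
    rw [e1]
    have e2 : z • R (c⁻¹ • X g) - g = lam • R (c⁻¹ • X g) - c⁻¹ • X g := by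
      have h3 : lam = z + c := by rw [hcdef]; ring
      rw [h3, add_smul, map_smul, smul_smul c, mul_inv_cancel₀ hc, one_smul]
      nth_rewrite 2 [← hXap g]
      abel
    rw [e2]
    exact h1 _
  · intro f k hfk
    have e1 : (c⁻¹ • (R * X)) (z • f - k) = X (c⁻¹ • R (z • f - k)) := by
      rw [hcomm, map_smul]; rfl
    rw [e1]
    have e2 : z • f - k = (lam • f - k) - c • f := by
      have h3 : lam = z + c := by rw [hcdef]; ring
      rw [h3, add_smul]; abel
    rw [e2, map_sub, h2 f k hfk]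
    have e3 : c⁻¹ • (f - R (c • f)) = c⁻¹ • f - R f := by
      rw [R.map_smul, smul_sub, smul_smul, inv_mul_cancel₀ hc, one_smul]
    rw [e3]
    exact hXap' f

end Basic

end Pool.Agent.MP_21eaa0_an
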