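import Pool.Agent.MP_21eaa0_an.Meas
import Pool.Agent.MP_21eaa0_an.LapCone

/-!
The cone `|f| ≤ Re g` in `L^1 × L^1`, Hermitian operators, multiplication operators.
-/

open Filter Topology MeasureTheory
open scoped ENNReal ComplexConjugate

namespace Pool.Agent.MP_21eaa0_an

variable {d : ℕ}

section Pair

/-- integrability of a product with an essentially bounded function -/
theorem integrable_mul_L1 {φ : (Fin d → ℝ) → ℂ} (hφ : Measurable φ) {C : ℝ}
    (hC : ∀ᵐ x, ‖φ x‖ ≤ C) (a : L1 d) : Integrable fun x => φ x * a x :=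
  (integrable_Lp a).bdd_mul hφ.aestronglyMeasurable hC

/-- pairing with an essentially bounded function -/
noncomputable def pairL {φ : (Fin d → ℝ) → ℂ} (hφ : Measurable φ) {C : ℝ}
    (hC : ∀ᵐ x, ‖φ x‖ ≤ C) : L1 d →L[ℂ] ℂ :=
  LinearMap.mkContinuous
    { toFun := fun a => ∫ x, φ x * a x
      map_add' := by
        intro a b
        rw [← integral_add (integrable_mul_L1 hφ hC a) (integrable_mul_L1 hφ hC b)]
        apply integral_congr_ae
        filter_upwards [Lp.coeFn_add a b] with x hx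
        rw [hx, Pi.add_apply, mul_add]
      map_smul' := by
        intro c a
        rw [RingHom.id_apply, smul_eq_mul, ← integral_const_mul]
        apply integral_congr_ae
        filter_upwards [Lp.coeFn_smul c a] with x hx
        rw [hx, Pi.smul_apply, smul_eq_mul]
        ring } C
    (by
      intro a
      show ‖∫ x, φ x * a x‖ ≤ C * ‖a‖
      rw [L1.norm_eq_integral_norm, ← integral_const_mul]
      apply norm_integral_le_of_norm_le ((integrable_Lp a).norm.const_mul C)
      filter_upwards [hC] with x hx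
      rw [norm_mul]
      gcongr)

theorem pairL_apply {φ : (Fin d → ℝ) → ℂ} (hφ : Measurable φ) {C : ℝ}
    (hC : ∀ᵐ x, ‖φ x‖ ≤ C) (a : L1 d) : pairL hφ hC a = ∫ x, φ x * a x := rfl

end Pair

section ConeLemmas

theorem ae_lim {f : ℕ → L1 d} {f' : L1 d} (h : Tendsto f atTop (𝓝 f')) :
    ∃ s : ℕ → ℕ, StrictMono s ∧ ∀ᵐ x, Tendsto (fun n => f (s n) x) atTop (𝓝 (f' x)) :=
  (tendstoInMeasure_of_tendsto_Lp h).exists_seq_tendsto_ae

theorem isClosed_cone : IsClosed {p : L1 d × L1 d | Cone p.1 p.2} := by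
  apply IsSeqClosed.isClosed
  intro p q hp hq
  have h1 : Tendsto (fun n => (p n).1) atTop (𝓝 q.1) := (continuous_fst.tendsto q).comp hq
  have h2 : Tendsto (fun n => (p n).2) atTop (𝓝 q.2) := (continuous_snd.tendsto q).comp hq
  obtain ⟨s, hs, hs'⟩ := ae_lim h1
  obtain ⟨t, ht, ht'⟩ := ae_lim (h2.comp hs.tendsto_atTop)
  have hall : ∀ᵐ x, ∀ n, ‖(p n).1 x‖ ≤ ((p n).2 x).re := ae_all_iff.2 fun n => hp n
  show Cone q.1 q.2
  filter_upwards [hs', ht', hall] with x h3 h4 h5
  have h6 : Tendsto (fun n => ‖(p (s (t n))).1 x‖) atTop (𝓝 ‖q.1 x‖) :=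
    (h3.comp ht.tendsto_atTop).norm
  have h7 : Tendsto (fun n => ((p (s (t n))).2 x).re) atTop (𝓝 (q.2 x).re) :=
    (Complex.continuous_re.tendsto _).comp h4
  exact le_of_tendsto_of_tendsto' h6 h7 fun n => h5 _

theorem Cone.add {f g f' g' : L1 d} (h : Cone f g) (h' : Cone f' g') : Cone (f + f') (g + g') := by
  filter_upwards [h, h', Lp.coeFn_add f f', Lp.coeFn_add g g'] with x h1 h2 h3 h4
  rw [h3, h4, Pi.add_apply, Pi.add_apply, Complex.add_re]
  exact (norm_add_le _ _).trans (add_le_add h1 h2)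

theorem Cone.smul {f g : L1 d} (h : Cone f g) {r : ℝ} (hr : 0 ≤ r) :
    Cone ((r : ℂ) • f) ((r : ℂ) • g) := by
  filter_upwards [h, Lp.coeFn_smul (r : ℂ) f, Lp.coeFn_smul (r : ℂ) g] with x h1 h2 h3
  rw [h2, h3, Pi.smul_apply, Pi.smul_apply, norm_smul, Complex.norm_real, Real.norm_of_nonneg hr,
    smul_eq_mul, Complex.re_ofReal_mul]
  gcongr

theorem cone_zero : Cone (0 : L1 d) 0 := by
  filter_upwards [Lp.coeFn_zero ℂ 1 (volume : Measure (Fin d → ℝ))] with x hx
  rw [hx]; simp

/-- the absolute value -/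
theorem memLp_abs (f : L1 d) : MemLp (fun x => ((‖f x‖ : ℝ) : ℂ)) 1 volume := by
  have := (Lp.memLp f).norm
  exact this.ofReal

noncomputable def absL (f : L1 d) : L1 d := (memLp_abs f).toLp _

theorem coeFn_absL (f : L1 d) : (absL f : (Fin d → ℝ) → ℂ) =ᵐ[volume]
    fun x => ((‖f x‖ : ℝ) : ℂ) := (memLp_abs f).coeFn_toLp

theorem cone_absL (f : L1 d) : Cone f (absL f) := by
  filter_upwards [coeFn_absL f] with x hx
  rw [hx, Complex.ofReal_re]

theorem integral_absL (f : L1 d) : ∫ x, (absL f x).re = ‖f‖ := by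
  rw [L1.norm_eq_integral_norm]
  apply integral_congr_ae
  filter_upwards [coeFn_absL f] with x hx
  rw [hx, Complex.ofReal_re]

theorem Cone.norm_le {f g : L1 d} (h : Cone f g) : ‖f‖ ≤ ∫ x, (g x).re := by
  rw [L1.norm_eq_integral_norm]
  exact integral_mono_ae (integrable_Lp f).norm (integrable_Lp g).re h

end ConeLemmas

section HermLemmas

/-- closed relation `⟨a, v⟩ = ⟨u, b⟩` for fixed bounded `u, v`. -/
theorem isClosed_herm {u v : L1 d} (hu : Bdd u) (hv : Bdd v) :
    IsClosed {p : L1 d × L1 d | ∫ x, conj (p.1 x) * v x = ∫ x, conj (u x) * p.2 x} := by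
  obtain ⟨Cu, hCu⟩ := hu
  obtain ⟨Cv, hCv⟩ := hv
  have hum : Measurable fun x => conj (u x) :=
    Complex.continuous_conj.measurable.comp (measurable_Lp u)
  have hvm : Measurable fun x => conj (v x) :=
    Complex.continuous_conj.measurable.comp (measurable_Lp v)
  have hCu' : ∀ᵐ x, ‖conj (u x)‖ ≤ Cu := by
    filter_upwards [hCu] with x hx
    rwa [RCLike.norm_conj]
  have hCv' : ∀ᵐ x, ‖conj (v x)‖ ≤ Cv := by
    filter_upwards [hCv] with x hx
    rwa [RCLike.norm_conj]
  have e1 : ∀ a : L1 d, ∫ x, conj (a x) * v x = conj (pairL hvm hCv' a) := by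
    intro a
    rw [pairL_apply, ← integral_conj]
    congr 1
    funext x
    rw [map_mul, Complex.conj_conj, mul_comm]
  have e2 : ∀ b : L1 d, ∫ x, conj (u x) * b x = pairL hum hCu' b := fun b => rfl
  simp_rw [e1, e2]
  apply isClosed_eq
  · exact Complex.continuous_conj.comp ((ContinuousLinearMap.continuous _).comp continuous_fst)
  · exact (ContinuousLinearMap.continuous _).comp continuous_snd

theorem conj_mul_integrable {a v : L1 d} (hv : Bdd v) : Integrable fun x => conj (a x) * v x := by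
  obtain ⟨Cv, hCv⟩ := hv
  have h1 : Integrable fun x => conj (a x) := by
    have := (Complex.conjCLE.toContinuousLinearMap).integrable_comp (integrable_Lp a)
    exact this
  exact h1.mul_bdd (c := Cv) (measurable_Lp v).aestronglyMeasurable hCv

theorem conj_mul_integrable' {u b : L1 d} (hu : Bdd u) : Integrable fun x => conj (u x) * b x := by
  obtain ⟨Cu, hCu⟩ := hu
  have hum : Measurable fun x => conj (u x) :=
    Complex.continuous_conj.measurable.comp (measurable_Lp u)
  exact integrable_mul_L1 hum (C := Cu) (by filter_upwards [hCu] with x hx; rwa [RCLike.norm_conj]) b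

theorem herm_add {u v a b a' b' : L1 d} (hu : Bdd u) (hv : Bdd v)
    (h : ∫ x, conj (a x) * v x = ∫ x, conj (u x) * b x)
    (h' : ∫ x, conj (a' x) * v x = ∫ x, conj (u x) * b' x) :
    ∫ x, conj ((a + a' : L1 d) x) * v x = ∫ x, conj (u x) * (b + b' : L1 d) x := by
  have e1 : ∫ x, conj ((a + a' : L1 d) x) * v x
      = (∫ x, conj (a x) * v x) + ∫ x, conj (a' x) * v x := by
    rw [← integral_add (conj_mul_integrable hv) (conj_mul_integrable hv)]
    apply integral_congr_ae
    filter_upwards [Lp.coeFn_add a a'] with x hx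
    rw [hx, Pi.add_apply, map_add, add_mul]
  have e2 : ∫ x, conj (u x) * (b + b' : L1 d) x
      = (∫ x, conj (u x) * b x) + ∫ x, conj (u x) * b' x := by
    rw [← integral_add (conj_mul_integrable' hu) (conj_mul_integrable' hu)]
    apply integral_congr_ae
    filter_upwards [Lp.coeFn_add b b'] with x hx
    rw [hx, Pi.add_apply, mul_add]
  rw [e1, e2, h, h']

theorem herm_smul {u v a b : L1 d} (r : ℝ)
    (h : ∫ x, conj (a x) * v x = ∫ x, conj (u x) * b x) :
    ∫ x, conj (((r : ℂ) • a : L1 d) x) * v x = ∫ x, conj (u x) * ((r : ℂ) • b : L1 d) x := by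
  have e1 : ∫ x, conj (((r : ℂ) • a : L1 d) x) * v x = r * ∫ x, conj (a x) * v x := by
    rw [← integral_const_mul]
    apply integral_congr_ae
    filter_upwards [Lp.coeFn_smul (r : ℂ) a] with x hx
    rw [hx, Pi.smul_apply, smul_eq_mul, map_mul, Complex.conj_ofReal, mul_assoc]
  have e2 : ∫ x, conj (u x) * ((r : ℂ) • b : L1 d) x = r * ∫ x, conj (u x) * b x := by
    rw [← integral_const_mul]
    apply integral_congr_ae
    filter_upwards [Lp.coeFn_smul (r : ℂ) b] with x hx
    rw [hx, Pi.smul_apply, smul_eq_mul]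
    ring
  rw [e1, e2, h]

/-- a Laplace transform of positive operators is positive -/
theorem pos_lap {T : ℝ → L1 d →L[ℂ] L1 d} {C ω lam : ℝ} (h : LapData T C ω lam)
    (hpos : ∀ t, 0 < t → Pos (T t)) : Pos h.lap := by
  intro f g hfg
  exact h.pair_mem (S := {p : L1 d × L1 d | Cone p.1 p.2}) isClosed_cone
    (fun p hp q hq => Cone.add hp hq) (fun r hr p hp => Cone.smul hp hr)
    (fun t ht => hpos t ht f g hfg)

/-- a Laplace transform of Hermitian operators is Hermitian -/
theorem herm_lap {T : ℝ → L1 d →L[ℂ] L1 d} {C ω lam : ℝ} (h : LapData T C ω lam)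
    (hH : ∀ t, 0 < t → Herm (T t)) : Herm h.lap := by
  intro u v hu hv
  exact h.pair_mem (S := {p : L1 d × L1 d | ∫ x, conj (p.1 x) * v x = ∫ x, conj (u x) * p.2 x})
    (isClosed_herm hu hv)
    (fun p hp q hq => herm_add hu hv hp hq) (fun r hr p hp => herm_smul r hp)
    (fun t ht => hH t ht u v hu hv)

end HermLemmas

section Mul

theorem memLp_mul {W : (Fin d → ℝ) → ℝ} (hW : Measurable W) {C : ℝ} (hC : ∀ x, ‖W x‖ ≤ C)
    (f : L1 d) : MemLp (fun x => (W x : ℂ) * f x) 1 volume := by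
  rw [memLp_one_iff_integrable]
  have hm : Measurable fun x => (W x : ℂ) := Complex.continuous_ofReal.measurable.comp hW
  exact integrable_mul_L1 hm (C := C) (Eventually.of_forall fun x => by
    rw [Complex.norm_real]; exact hC x) f

/-- multiplication by a bounded real function -/
noncomputable def mulL {W : (Fin d → ℝ) → ℝ} (hW : Measurable W) {C : ℝ} (hC : ∀ x, ‖W x‖ ≤ C)
    (f : L1 d) : L1 d := (memLp_mul hW hC f).toLp _

theorem coeFn_mulL {W : (Fin d → ℝ) → ℝ} (hW : Measurable W) {C : ℝ} (hC : ∀ x, ‖W x‖ ≤ C)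
    (f : L1 d) : (mulL hW hC f : (Fin d → ℝ) → ℂ) =ᵐ[volume] fun x => (W x : ℂ) * f x :=
  (memLp_mul hW hC f).coeFn_toLp

theorem norm_mulL_le {W : (Fin d → ℝ) → ℝ} (hW : Measurable W) {C : ℝ} (hC : ∀ x, ‖W x‖ ≤ C)
    (f : L1 d) : ‖mulL hW hC f‖ ≤ C * ‖f‖ := by
  rw [L1.norm_eq_integral_norm, L1.norm_eq_integral_norm, ← integral_const_mul]
  apply integral_mono_ae (integrable_Lp _).norm ((integrable_Lp f).norm.const_mul C)
  filter_upwards [coeFn_mulL hW hC f] with x hx
  show ‖mulL hW hC f x‖ ≤ C * ‖f x‖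
  rw [hx, norm_mul, Complex.norm_real]
  gcongr
  exact hC x

theorem mulL_sub {W : (Fin d → ℝ) → ℝ} (hW : Measurable W) {C : ℝ} (hC : ∀ x, ‖W x‖ ≤ C)
    (f g : L1 d) : mulL hW hC (f - g) = mulL hW hC f - mulL hW hC g := by
  apply Lp.ext
  filter_upwards [coeFn_mulL hW hC (f - g), coeFn_mulL hW hC f, coeFn_mulL hW hC g,
    Lp.coeFn_sub f g, Lp.coeFn_sub (mulL hW hC f) (mulL hW hC g)] with x h1 h2 h3 h4 h5
  rw [h1, h5, Pi.sub_apply, h2, h3, h4, Pi.sub_apply, mul_sub]

theorem cone_mulL {W : (Fin d → ℝ) → ℝ} (hW : Measurable W) {C : ℝ} (hC : ∀ x, ‖W x‖ ≤ C)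
    (h0 : ∀ x, 0 ≤ W x) {f g : L1 d} (h : Cone f g) : Cone (mulL hW hC f) (mulL hW hC g) := by
  filter_upwards [coeFn_mulL hW hC f, coeFn_mulL hW hC g, h] with x h1 h2 h3
  rw [h1, h2, norm_mul, Complex.norm_real, Real.norm_of_nonneg (h0 x), Complex.re_ofReal_mul]
  exact mul_le_mul_of_nonneg_left h3 (h0 x)

end Mul

end Pool.Agent.MP_21eaa0_an
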