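import Pool.Agent.MP_21eaa0_an.Kernel

/-!
Absorption semigroups: the resolvents `R_n` of `M - V_n`, and the limit.
-/

open Filter Topology MeasureTheory
open scoped ENNReal ComplexConjugate

namespace Pool.Agent.MP_21eaa0_an

section General

variable {E : Type*} [NormedAddCommGroup E] [NormedSpace ℂ E] [CompleteSpace E]

/-- Laplace transforms converge when the semigroups do. -/
theorem lap_tendsto {Tn : ℕ → ℝ → E →L[ℂ] E} {T : ℝ → E →L[ℂ] E} {C ω lam : ℝ}
    (hn : ∀ n, LapData (Tn n) C ω lam) (h : LapData T C ω lam)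
    (hlim : ∀ t, 0 ≤ t → ∀ f, Tendsto (fun n => Tn n t f) atTop (𝓝 (T t f))) (f : E) :
    Tendsto (fun n => (hn n).lap f) atTop (𝓝 (h.lap f)) := by
  simp_rw [LapData.lap_apply]
  apply tendsto_integral_of_dominated_convergence
    (fun t => C * ‖f‖ * Real.exp (-(lam - ω) * t))
  · intro n
    exact ((hn n).integrableOn f).aestronglyMeasurable
  · exact (exp_neg_integrableOn_Ioi 0 (sub_pos.2 h.lt)).const_mul (C * ‖f‖)
  · intro n
    rw [ae_restrict_iff' measurableSet_Ioi]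
    exact Eventually.of_forall fun t ht => (hn n).norm_le f (Set.mem_Ioi.1 ht).le
  · rw [ae_restrict_iff' measurableSet_Ioi]
    refine Eventually.of_forall fun t ht => ?_
    exact (hlim t (Set.mem_Ioi.1 ht).le f).const_smul _

omit [CompleteSpace E] in
/-- the limit of semigroups with a common growth bound is a semigroup with this bound -/
theorem limit_semigroup {Tn : ℕ → ℝ → E →L[ℂ] E} {T : ℝ → E →L[ℂ] E} {c : ℝ}
    (hTn : ∀ n, IsC0Semigroup (Tn n)) (hb : ∀ n t, 0 ≤ t → ‖Tn n t‖ ≤ Real.exp (c * t))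
    (hlim : ∀ t, 0 ≤ t → ∀ f, Tendsto (fun n => Tn n t f) atTop (𝓝 (T t f)))
    (hreg : ∀ f, Tendsto (fun t => T t f) (𝓝[>] 0) (𝓝 f)) :
    IsC0Semigroup T ∧ ∀ t, 0 ≤ t → ‖T t‖ ≤ Real.exp (c * t) := by
  have hbT : ∀ t, 0 ≤ t → ‖T t‖ ≤ Real.exp (c * t) := by
    intro t ht
    apply ContinuousLinearMap.opNorm_le_bound _ (Real.exp_pos _).le
    intro f
    apply le_of_tendsto (hlim t ht f).norm
    exact Eventually.of_forall fun n => (Tn n t).le_of_opNorm_le (hb n t ht) f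
  refine ⟨⟨?_, ?_, hreg⟩, hbT⟩
  · ext1 f
    have h1 := hlim 0 le_rfl f
    have h2 : Tendsto (fun n => Tn n 0 f) atTop (𝓝 f) := by
      have : (fun n => Tn n 0 f) = fun _ => f := by
        funext n
        rw [(hTn n).zero]; rfl
      rw [this]
      exact tendsto_const_nhds
    exact tendsto_nhds_unique h1 h2
  · intro s t hs ht
    ext1 f
    have h1 := hlim (s + t) (add_nonneg hs ht) f
    have h2 : Tendsto (fun n => Tn n (s + t) f) atTop (𝓝 (T s (T t f))) := by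
      have h3 : Tendsto (fun n => Tn n s (Tn n t f - T t f)) atTop (𝓝 0) := by
        rw [tendsto_zero_iff_norm_tendsto_zero]
        have h4 : Tendsto (fun n => Real.exp (c * s) * ‖Tn n t f - T t f‖) atTop (𝓝 0) := by
          have := ((hlim t ht f).sub_const (T t f)).norm.const_mul (Real.exp (c * s))
          rwa [sub_self, norm_zero, mul_zero] at this
        exact squeeze_zero (fun _ => norm_nonneg _)
          (fun n => (Tn n s).le_of_opNorm_le (hb n s hs) _) h4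
      have h5 := h3.add (hlim s hs (T t f))
      rw [zero_add] at h5
      refine h5.congr ?_
      intro n
      rw [(hTn n).add_apply hs ht, map_sub, sub_add_cancel]
    exact tendsto_nhds_unique h1 h2

end General

variable {d : ℕ}

/-- `V_n + c` with `V_n = min (V, n)` -/
noncomputable def Wn (V : (Fin d → ℝ) → ℝ) (c : ℝ) (n : ℕ) (x : Fin d → ℝ) : ℝ := min (V x) n + c

/-- `n - V_n` -/
noncomputable def Dn (V : (Fin d → ℝ) → ℝ) (n : ℕ) (x : Fin d → ℝ) : ℝ := n - min (V x) n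

section Pot

variable {V : (Fin d → ℝ) → ℝ} (hV : Measurable V) {c : ℝ} (hc0 : 0 ≤ c) (hc : ∀ x, -c ≤ V x)

include hV in
theorem measurable_Wn (n : ℕ) : Measurable (Wn V c n) :=
  (hV.min measurable_const).add_const c

include hV in
theorem measurable_Dn (n : ℕ) : Measurable (Dn V n) :=
  measurable_const.sub (hV.min measurable_const)

include hc0 hc

theorem neg_le_min (n : ℕ) (x : Fin d → ℝ) : -c ≤ min (V x) n :=
  le_min (hc x) (by linarith [(Nat.cast_nonneg n : (0 : ℝ) ≤ n)])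

theorem Wn_nonneg (n : ℕ) (x : Fin d → ℝ) : 0 ≤ Wn V c n x := by
  unfold Wn
  linarith [neg_le_min hc0 hc n x]

theorem Wn_bound (n : ℕ) (x : Fin d → ℝ) : ‖Wn V c n x‖ ≤ n + c := by
  rw [Real.norm_of_nonneg (Wn_nonneg hc0 hc n x)]
  unfold Wn
  linarith [min_le_right (V x) (n : ℝ)]

omit hc0 hc in
theorem Dn_nonneg (n : ℕ) (x : Fin d → ℝ) : 0 ≤ Dn V n x := by
  unfold Dn
  linarith [min_le_right (V x) (n : ℝ)]

theorem Dn_bound (n : ℕ) (x : Fin d → ℝ) : ‖Dn V n x‖ ≤ n + c := by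
  rw [Real.norm_of_nonneg (Dn_nonneg n x)]
  unfold Dn
  linarith [neg_le_min hc0 hc n x]

end Pot

/-- `IsGenByMinus` for operators on `Lp ℂ 1 volume` -/
def IsGenByMinusL (M : ℝ → L1 d →L[ℂ] L1 d) (V : (Fin d → ℝ) → ℝ) (n : ℕ)
    (T : ℝ → L1 d →L[ℂ] L1 d) : Prop :=
  IsC0Semigroup T ∧ ∀ f g : L1 d, IsGen T f g ↔ ∃ h : L1 d, IsGen M f h ∧
    (g : (Fin d → ℝ) → ℂ) =ᵐ[volume] fun x => h x - (min (V x) n : ℝ) * f x

section Res

variable {m : ℝ → Measure (Fin d → ℝ)} (hm : IsSymmConvSemigroup m)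
  {M : ℝ → L1 d →L[ℂ] L1 d} (hM : IsConvOpL m M)
  {V : (Fin d → ℝ) → ℝ} (hV : Measurable V) {c : ℝ} (hc0 : 0 ≤ c) (hc : ∀ x, -c ≤ V x)
  {n : ℕ} {T : ℝ → L1 d →L[ℂ] L1 d} (hT : IsGenByMinusL M V n T)

include hT

/-- the element `M f` for `f` in the domain -/
theorem gen_eq {f g : L1 d} (hg : IsGen T f g) (lam : ℝ) :
    IsGen M f (((lam - c : ℝ) : ℂ) • f + mulL (measurable_Wn hV n) (Wn_bound hc0 hc n) f
      - ((lam : ℂ) • f - g)) := by
  obtain ⟨h, hh, hgh⟩ := (hT.2 f g).1 hg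
  have : ((lam - c : ℝ) : ℂ) • f + mulL (measurable_Wn hV n) (Wn_bound hc0 hc n) f
      - ((lam : ℂ) • f - g) = h := by
    apply Lp.ext
    filter_upwards [hgh, Lp.coeFn_sub (((lam - c : ℝ) : ℂ) • f +
      mulL (measurable_Wn hV n) (Wn_bound hc0 hc n) f) ((lam : ℂ) • f - g),
      Lp.coeFn_add (((lam - c : ℝ) : ℂ) • f) (mulL (measurable_Wn hV n) (Wn_bound hc0 hc n) f),
      Lp.coeFn_sub ((lam : ℂ) • f) g, Lp.coeFn_smul ((lam - c : ℝ) : ℂ) f,
      Lp.coeFn_smul (lam : ℂ) f, coeFn_mulL (measurable_Wn hV n) (Wn_bound hc0 hc n) f]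
      with x h1 h2 h3 h4 h5 h6 h7
    rw [h2, Pi.sub_apply, h3, Pi.add_apply, h4, Pi.sub_apply, h5, h6, h7, h1, Pi.smul_apply,
      Pi.smul_apply, smul_eq_mul, smul_eq_mul]
    unfold Wn
    push_cast
    ring
  rw [this]
  exact hh

include hm hM

theorem res_eq {f g : L1 d} (hg : IsGen T f g) {lam : ℝ} (hlam : 0 < lam - c) :
    f = (conv_lapData hm hM hlam).lap
      (((lam : ℂ) • f - g) - mulL (measurable_Wn hV n) (Wn_bound hc0 hc n) f) := by
  have h1 := (conv_lapData hm hM hlam).left_inv (gen_eq hV hc0 hc hT hg lam)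
  conv_lhs => rw [← h1]
  congr 1
  abel

theorem res_eq' {f g : L1 d} (hg : IsGen T f g) {lam : ℝ} (hlam : 0 < lam - c + (n + c)) :
    f = (conv_lapData hm hM hlam).lap
      (((lam : ℂ) • f - g) + mulL (measurable_Dn hV n) (Dn_bound hc0 hc n) f) := by
  have h1 := (conv_lapData hm hM hlam).left_inv (gen_eq hV hc0 hc hT hg lam)
  conv_lhs => rw [← h1]
  congr 1
  have h2 : mulL (measurable_Dn hV n) (Dn_bound hc0 hc n) f
      = ((n + c : ℝ) : ℂ) • f - mulL (measurable_Wn hV n) (Wn_bound hc0 hc n) f := by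
    apply Lp.ext
    filter_upwards [coeFn_mulL (measurable_Dn hV n) (Dn_bound hc0 hc n) f,
      coeFn_mulL (measurable_Wn hV n) (Wn_bound hc0 hc n) f,
      Lp.coeFn_sub (((n + c : ℝ) : ℂ) • f) (mulL (measurable_Wn hV n) (Wn_bound hc0 hc n) f),
      Lp.coeFn_smul ((n + c : ℝ) : ℂ) f] with x e1 e2 e3 e4
    rw [e1, e3, Pi.sub_apply, e4, e2, Pi.smul_apply, smul_eq_mul]
    unfold Wn Dn
    push_cast
    ring
  rw [h2, Complex.ofReal_add (lam - c) (n + c), add_smul]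
  abel

include hV hc0 hc

theorem res_diss (f g : L1 d) (hg : IsGen T f g) (lam : ℝ) (hlam : c < lam) :
    (lam - c) * ‖f‖ ≤ ‖(lam : ℂ) • f - g‖ := by
  have hn : (0 : ℝ) ≤ n := Nat.cast_nonneg n
  have hpos : 0 < lam - c + (n + c) := by linarith
  have h1 := res_eq' hm hM hV hc0 hc hT hg hpos
  have h2 := (conv_lapData hm hM hpos).norm_lap_apply_le
    (((lam : ℂ) • f - g) + mulL (measurable_Dn hV n) (Dn_bound hc0 hc n) f)
  rw [← h1, sub_zero] at h2
  have h3 : ‖((lam : ℂ) • f - g) + mulL (measurable_Dn hV n) (Dn_bound hc0 hc n) f‖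
      ≤ ‖(lam : ℂ) • f - g‖ + (n + c) * ‖f‖ :=
    (norm_add_le _ _).trans (by gcongr; exact norm_mulL_le _ _ _)
  have h4 : (lam - c + (n + c)) * ‖f‖ ≤ ‖(lam : ℂ) • f - g‖ + (n + c) * ‖f‖ := by
    refine le_trans ?_ h3
    calc (lam - c + (n + c)) * ‖f‖ ≤ (lam - c + (n + c)) * (1 / (lam - c + (n + c)) *
          ‖((lam : ℂ) • f - g) + mulL (measurable_Dn hV n) (Dn_bound hc0 hc n) f‖) := by gcongr
      _ = _ := by rw [← mul_assoc, mul_one_div_cancel hpos.ne', one_mul]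
  linarith

theorem res_growth {t : ℝ} (ht : 0 ≤ t) : ‖T t‖ ≤ Real.exp (c * t) :=
  hT.1.growth (res_diss hm hM hV hc0 hc hT) ht

theorem res_lapData {lam : ℝ} (hlam : c < lam) : LapData T 1 c lam where
  sg := hT.1
  bound := fun t ht => by rw [one_mul]; exact res_growth hm hM hV hc0 hc hT ht
  lt := hlam

end Res

end Pool.Agent.MP_21eaa0_an
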