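import Mathlib

/-!
Definitions used in the statement of `Pool.Agent.Results.MP_21eaa0_an.RealSpectrum.result`.
-/

open Filter Topology MeasureTheory

namespace Pool.Agent.MP_21eaa0_an

section Semigroups

variable {E : Type*} [NormedAddCommGroup E] [NormedSpace ℂ E]

/-- `(T t)_{t ≥ 0}` is a `C_0`-semigroup (strongly continuous one-parameter semigroup) of bounded
operators on the complex normed space `E`. Only the values `T t` with `t ≥ 0` matter. -/
structure IsC0Semigroup (T : ℝ → E →L[ℂ] E) : Prop where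
  zero : T 0 = ContinuousLinearMap.id ℂ E
  add : ∀ s t : ℝ, 0 ≤ s → 0 ≤ t → T (s + t) = (T s).comp (T t)
  cont : ∀ f : E, Tendsto (fun t => T t f) (𝓝[>] 0) (𝓝 f)

/-- The (graph of the) generator `A` of `T`: `IsGen T f g` says `f ∈ D(A)` and `A f = g`, i.e.
`(T t f - f) / t → g` as `t → 0+`. -/
def IsGen (T : ℝ → E →L[ℂ] E) (f g : E) : Prop :=
  Tendsto (fun t : ℝ => ((t : ℂ)⁻¹) • (T t f - f)) (𝓝[>] 0) (𝓝 g)

/-- The resolvent set of an (unbounded) operator given by its graph `A`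
(`A f g` means `f ∈ D(A)` and `A f = g`): `z` belongs to it iff `z - A` has a bounded everywhere
defined inverse `R`. -/
def resolventSet (A : E → E → Prop) : Set ℂ :=
  {z | ∃ R : E →L[ℂ] E, (∀ g, A (R g) (z • R g - g)) ∧ ∀ f h, A f h → R (z • f - h) = f}

/-- The spectrum: complement of the resolvent set. -/
def spec (A : E → E → Prop) : Set ℂ := (resolventSet A)ᶜ

end Semigroups

variable {d : ℕ}

/-- The complex space `L^1(ℝ^d)` (Lebesgue measure), with its usual norm. -/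
def LOne (d : ℕ) : Type := Lp ℂ 1 (volume : Measure (Fin d → ℝ))

/-- the usual normed group structure of `L^1(ℝ^d)` -/
noncomputable instance instNormedAddCommGroupLOne (d : ℕ) : NormedAddCommGroup (LOne d) :=
  (Lp.instNormedAddCommGroup : NormedAddCommGroup (Lp ℂ 1 (volume : Measure (Fin d → ℝ))))

/-- the usual normed space structure of `L^1(ℝ^d)` -/
noncomputable instance instNormedSpaceLOne (d : ℕ) : NormedSpace ℂ (LOne d) :=
  (Lp.instNormedSpace : NormedSpace ℂ (Lp ℂ 1 (volume : Measure (Fin d → ℝ))))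

/-- A function representing the element `f` of `L^1(ℝ^d)` (it is unique up to null sets). -/
noncomputable def rep (f : LOne d) : (Fin d → ℝ) → ℂ :=
  AEEqFun.cast (Subtype.val (p := fun g => g ∈ Lp ℂ 1 (volume : Measure (Fin d → ℝ))) f)

/-- A vaguely continuous convolution semigroup `(m t)_{t ≥ 0}` of symmetric Borel measures on
`ℝ^d` of total mass at most `1`, with `m 0 = δ_0`. -/
structure IsSymmConvSemigroup (m : ℝ → Measure (Fin d → ℝ)) : Prop where
  mass_le : ∀ t : ℝ, 0 ≤ t → m t Set.univ ≤ 1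
  symm : ∀ t : ℝ, 0 ≤ t → (m t).map (fun x => -x) = m t
  zero : m 0 = Measure.dirac 0
  conv : ∀ s t : ℝ, 0 ≤ s → 0 ≤ t → m (s + t) = ((m s).prod (m t)).map (fun p => p.1 + p.2)
  vague : ∀ φ : (Fin d → ℝ) → ℝ, Continuous φ → HasCompactSupport φ →
    Tendsto (fun t => ∫ x, φ x ∂(m t)) (𝓝[>] 0) (𝓝 (φ 0))

/-- The resolvent measures `m^λ = ∫_0^∞ e^{-λt} m_t dt` (vague integrals), `λ > 0`, are absolutely
continuous with densities `E_λ ∈ L^1(ℝ^d)`. -/
def HasResolventDensities (m : ℝ → Measure (Fin d → ℝ)) : Prop :=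
  ∀ lam : ℝ, 0 < lam → ∃ E : (Fin d → ℝ) → ℝ, (∀ x, 0 ≤ E x) ∧ Integrable E ∧
    ∀ φ : (Fin d → ℝ) → ℝ, Continuous φ → HasCompactSupport φ →
      ∫ t in Set.Ioi 0, Real.exp (-lam * t) * ∫ x, φ x ∂(m t) = ∫ x, φ x * E x

/-- `M t` is the operator `f ↦ ∫ f(· - y) m_t(dy)` on `L^1(ℝ^d)`. -/
def IsConvOp (m : ℝ → Measure (Fin d → ℝ)) (M : ℝ → LOne d →L[ℂ] LOne d) : Prop :=
  ∀ t : ℝ, 0 ≤ t → ∀ f : LOne d, ∀ᵐ x : Fin d → ℝ, rep (M t f) x = ∫ y, rep f (x - y) ∂(m t)

/-- `T` is the `C_0`-semigroup generated by `M - V_n`, `V_n = min(V, n)`: its generator has the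
domain of the generator of `M` and maps `f` to `M f - min(V, n) f`. -/
def IsGenByMinus (M : ℝ → LOne d →L[ℂ] LOne d) (V : (Fin d → ℝ) → ℝ) (n : ℕ)
    (T : ℝ → LOne d →L[ℂ] LOne d) : Prop :=
  IsC0Semigroup T ∧ ∀ f g : LOne d, IsGen T f g ↔ ∃ h : LOne d, IsGen M f h ∧
    ∀ᵐ x : Fin d → ℝ, rep g x = rep h x - (min (V x) n : ℝ) * rep f x

end Pool.Agent.MP_21eaa0_an
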