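import Pool.Agent.MP_21eaa0_an.Matrix

/-!
Hermitian block matrices dominated by a summable convolution kernel: the equation
`w u - A u = e_j y` has a solution `u` which is summable over the blocks, for `w` non-real.
-/

open Filter Topology
open scoped ENNReal

namespace Pool.Agent.MP_21eaa0_an

theorem two_toReal_pos : 0 < (2 : ℝ≥0∞).toReal := by simp

section Herm

variable {G : Type*} [AddCommGroup G] {E : Type*} [NormedAddCommGroup E] [InnerProductSpace ℂ E]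

/-- unitary multiplication by a character -/
noncomputable def charOp (χ : G → ℂ) (hχ : ∀ k, ‖χ k‖ = 1) :
    lp (fun _ : G => E) 2 →L[ℂ] lp (fun _ : G => E) 2 :=
  sd two_toReal_pos 0 (fun i => χ i • ContinuousLinearMap.id ℂ E) zero_le_one
      (fun i => by
        rw [norm_smul, hχ, one_mul]
        exact ContinuousLinearMap.norm_id_le)

theorem charOp_apply (χ : G → ℂ) (hχ : ∀ k, ‖χ k‖ = 1) (f : lp (fun _ : G => E) 2) (i : G) :
    charOp χ hχ f i = χ i • f i := by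
  show χ i • f (i - 0) = χ i • f i
  rw [sub_zero]

theorem charOp_mul (χ χ' : G → ℂ) (hχ : ∀ k, ‖χ k‖ = 1) (hχ' : ∀ k, ‖χ' k‖ = 1)
    (h : ∀ k, χ k * χ' k = 1) : (charOp χ hχ * charOp χ' hχ' : lp (fun _ : G => E) 2 →L[ℂ]
    lp (fun _ : G => E) 2) = 1 := by
  ext f i
  show charOp χ hχ (charOp χ' hχ' f) i = f i
  rw [charOp_apply, charOp_apply, smul_smul, h, one_smul]

/-- the `k`-th diagonal of a block matrix -/
noncomputable def diagPart (A : G → G → E →L[ℂ] E) {κ : G → ℝ} (hκ0 : ∀ k, 0 ≤ κ k)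
    (hAk : ∀ k i, ‖A i (i - k)‖ ≤ κ k) (k : G) :
    lp (fun _ : G => E) 2 →L[ℂ] lp (fun _ : G => E) 2 :=
  sd two_toReal_pos k (fun i => A i (i - k)) (hκ0 k) (hAk k)

theorem diagPart_apply (A : G → G → E →L[ℂ] E) {κ : G → ℝ} (hκ0 : ∀ k, 0 ≤ κ k)
    (hAk : ∀ k i, ‖A i (i - k)‖ ≤ κ k) (k : G) (f : lp (fun _ : G => E) 2) (i : G) :
    diagPart A hκ0 hAk k f i = A i (i - k) (f (i - k)) := rfl

theorem norm_diagPart_le (A : G → G → E →L[ℂ] E) {κ : G → ℝ} (hκ0 : ∀ k, 0 ≤ κ k)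
    (hAk : ∀ k i, ‖A i (i - k)‖ ≤ κ k) (k : G) : ‖diagPart A hκ0 hAk k‖ ≤ κ k :=
  norm_sd_le _ _ _ _ _

theorem charOp_conj (A : G → G → E →L[ℂ] E) {κ : G → ℝ} (hκ0 : ∀ k, 0 ≤ κ k)
    (hAk : ∀ k i, ‖A i (i - k)‖ ≤ κ k) (k : G) (χ χ' : G → ℂ) (hχ : ∀ k, ‖χ k‖ = 1)
    (hχ' : ∀ k, ‖χ' k‖ = 1) (h : ∀ k, χ k * χ' k = 1) (hadd : ∀ k l, χ (k + l) = χ k * χ l) :
    charOp χ hχ * diagPart A hκ0 hAk k * charOp χ' hχ' = χ k • diagPart A hκ0 hAk k := by
  ext f i
  show charOp χ hχ (diagPart A hκ0 hAk k (charOp χ' hχ' f)) i = χ k • diagPart A hκ0 hAk k f i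
  rw [charOp_apply, diagPart_apply, charOp_apply, map_smul, smul_smul, diagPart_apply]
  congr 1
  have : χ i = χ k * χ (i - k) := by rw [← hadd, add_sub_cancel]
  rw [this, mul_assoc, h, mul_one]

variable [CompleteSpace E]

theorem adjoint_diagPart (A : G → G → E →L[ℂ] E) {κ : G → ℝ} (hκ0 : ∀ k, 0 ≤ κ k)
    (hAk : ∀ k i, ‖A i (i - k)‖ ≤ κ k)
    (hsymm : ∀ i j x y, inner ℂ (A i j x) y = inner ℂ x (A j i y)) (k : G) :
    diagPart A hκ0 hAk (-k) = ContinuousLinearMap.adjoint (diagPart A hκ0 hAk k) := by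
  rw [ContinuousLinearMap.eq_adjoint_iff]
  intro x y
  rw [lp.inner_eq_tsum, lp.inner_eq_tsum,
    ← (Equiv.addRight k).tsum_eq (fun i => inner ℂ (x i) (diagPart A hκ0 hAk k y i))]
  apply tsum_congr
  intro i
  rw [diagPart_apply, diagPart_apply, hsymm]
  simp

theorem isSelfAdjoint_tsum (A : G → G → E →L[ℂ] E) {κ : G → ℝ} (hκ0 : ∀ k, 0 ≤ κ k)
    (hAk : ∀ k i, ‖A i (i - k)‖ ≤ κ k) (hκ : Summable κ)
    (hsymm : ∀ i j x y, inner ℂ (A i j x) y = inner ℂ x (A j i y)) :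
    IsSelfAdjoint (∑' k, diagPart A hκ0 hAk k) := by
  have hPs : Summable (diagPart A hκ0 hAk) :=
    Summable.of_norm_bounded hκ (norm_diagPart_le A hκ0 hAk)
  rw [ContinuousLinearMap.isSelfAdjoint_iff']
  have h1 := hPs.hasSum.map (ContinuousLinearMap.adjoint (𝕜 := ℂ)
    (E := lp (fun _ : G => E) 2) (F := lp (fun _ : G => E) 2))
    (LinearIsometryEquiv.continuous _)
  have h2 : (⇑(ContinuousLinearMap.adjoint (𝕜 := ℂ)
    (E := lp (fun _ : G => E) 2) (F := lp (fun _ : G => E) 2)) ∘ diagPart A hκ0 hAk)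
      = diagPart A hκ0 hAk ∘ (Equiv.neg G) := by
    funext k
    exact (adjoint_diagPart A hκ0 hAk hsymm k).symm
  rw [h2, (Equiv.neg G).hasSum_iff] at h1
  exact h1.unique hPs.hasSum

theorem exists_symbol_inverse [DecidableEq G] (A : G → G → E →L[ℂ] E) {κ : G → ℝ}
    (hκ0 : ∀ k, 0 ≤ κ k)
    (hAk : ∀ k i, ‖A i (i - k)‖ ≤ κ k) (hκ : Summable κ)
    (hsymm : ∀ i j x y, inner ℂ (A i j x) y = inner ℂ x (A j i y))
    (w : ℂ) (hw : w.im ≠ 0) (χ : G → ℂ) (h0 : χ 0 = 1) (hadd : ∀ k l, χ (k + l) = χ k * χ l)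
    (hχ : ∀ k, ‖χ k‖ = 1) :
    ∃ x, (∑' k, χ k • ((if k = 0 then algebraMap ℂ (lp (fun _ : G => E) 2 →L[ℂ]
      lp (fun _ : G => E) 2) w else 0) - diagPart A hκ0 hAk k)) * x = 1 := by
  have hPs : Summable (diagPart A hκ0 hAk) :=
    Summable.of_norm_bounded hκ (norm_diagPart_le A hκ0 hAk)
  have hSA := isSelfAdjoint_tsum A hκ0 hAk hκ hsymm
  have hunit : IsUnit (algebraMap ℂ (lp (fun _ : G => E) 2 →L[ℂ] lp (fun _ : G => E) 2) w
      - ∑' k, diagPart A hκ0 hAk k) := by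
    by_contra hcon
    have := hSA.mem_spectrum_eq_re hcon
    apply hw
    rw [this]
    simp
  obtain ⟨X, hX⟩ := hunit.exists_right_inv
  have hχ' : ∀ k, ‖(χ k)⁻¹‖ = 1 := fun k => by rw [norm_inv, hχ, inv_one]
  have hne : ∀ k, χ k ≠ 0 := fun k h => by
    have := hχ k
    rw [h, norm_zero] at this
    exact zero_ne_one this
  have hUU := charOp_mul (E := E) (fun k => (χ k)⁻¹) χ hχ' hχ
    (fun k => inv_mul_cancel₀ (hne k))
  have hUU' := charOp_mul (E := E) χ (fun k => (χ k)⁻¹) hχ hχ'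
    (fun k => mul_inv_cancel₀ (hne k))
  have hUP := fun k => charOp_conj A hκ0 hAk k χ (fun k => (χ k)⁻¹) hχ hχ'
    (fun k => mul_inv_cancel₀ (hne k)) hadd
  set V := charOp (E := E) χ hχ with hV
  set V' := charOp (E := E) (fun k => (χ k)⁻¹) hχ' with hV'
  have hsum : ∑' k, χ k • ((if k = 0 then algebraMap ℂ (lp (fun _ : G => E) 2 →L[ℂ]
      lp (fun _ : G => E) 2) w else 0) - diagPart A hκ0 hAk k)
      = V * (algebraMap ℂ _ w - ∑' k, diagPart A hκ0 hAk k) * V' := by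
    have h2 : HasSum (fun k : G => χ k • (if k = 0 then algebraMap ℂ (lp (fun _ : G => E) 2
        →L[ℂ] lp (fun _ : G => E) 2) w else 0)) (algebraMap ℂ _ w) := by
      have h3 := hasSum_ite_eq (0 : G) (algebraMap ℂ (lp (fun _ : G => E) 2
        →L[ℂ] lp (fun _ : G => E) 2) w)
      refine h3.congr_fun ?_
      intro k
      split_ifs with hk
      · rw [hk, h0, one_smul]
      · rw [smul_zero]
    have h4 : Summable fun k => χ k • diagPart A hκ0 hAk k := by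
      apply Summable.of_norm_bounded hκ
      intro k
      rw [norm_smul, hχ, one_mul]
      exact norm_diagPart_le A hκ0 hAk k
    have h5 := h2.sub h4.hasSum
    have h1 : ∑' k, χ k • ((if k = 0 then algebraMap ℂ (lp (fun _ : G => E) 2 →L[ℂ]
      lp (fun _ : G => E) 2) w else 0) - diagPart A hκ0 hAk k)
        = algebraMap ℂ _ w - ∑' k, χ k • diagPart A hκ0 hAk k := by
      rw [← h5.tsum_eq]
      exact tsum_congr fun k => smul_sub _ _ _
    rw [h1, mul_sub, sub_mul]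
    congr 1
    · rw [← Algebra.commutes, mul_assoc, hUU', mul_one]
    · rw [← hPs.tsum_mul_left, ← (hPs.mul_left _).tsum_mul_right]
      exact tsum_congr fun k => (hUP k).symm
  refine ⟨V * X * V', ?_⟩
  rw [hsum]
  calc V * (algebraMap ℂ _ w - ∑' k, diagPart A hκ0 hAk k) * V' * (V * X * V')
      = V * (algebraMap ℂ _ w - ∑' k, diagPart A hκ0 hAk k) * (V' * V) * X * V' := by
        simp only [mul_assoc]
    _ = V * ((algebraMap ℂ _ w - ∑' k, diagPart A hκ0 hAk k) * X) * V' := by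
        rw [hUU, mul_one]; simp only [mul_assoc]
    _ = 1 := by rw [hX, mul_one, hUU']

omit [CompleteSpace E] in
theorem eval_symbol [DecidableEq G] (A : G → G → E →L[ℂ] E) {κ : G → ℝ}
    (hκ0 : ∀ k, 0 ≤ κ k) (hAk : ∀ k i, ‖A i (i - k)‖ ≤ κ k) (w : ℂ)
    (f : lp (fun _ : G => E) 2) (k m : G) :
    (((if k = 0 then algebraMap ℂ (lp (fun _ : G => E) 2 →L[ℂ] lp (fun _ : G => E) 2) w else 0)
      - diagPart A hκ0 hAk k) f) m = (if k = 0 then w • f m else 0) - A m (m - k) (f (m - k)) := by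
  rw [← diagPart_apply A hκ0 hAk k f m]
  split_ifs with hk
  · rfl
  · rfl

omit [CompleteSpace E] in
theorem coord_eq [DecidableEq G] (A : G → G → E →L[ℂ] E) {κ : G → ℝ}
    (hκ0 : ∀ k, 0 ≤ κ k) (hAk : ∀ k i, ‖A i (i - k)‖ ≤ κ k) (w : ℂ)
    (v : G → lp (fun _ : G => E) 2) (j m : G) (δ : lp (fun _ : G => E) 2)
    (hsm : HasSum (fun k => ((if k = 0 then algebraMap ℂ (lp (fun _ : G => E) 2 →L[ℂ]
      lp (fun _ : G => E) 2) w else 0) - diagPart A hκ0 hAk k) (v (m - j - k))) δ)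
    (hus2 : Summable fun i => A m i (v (i - j) i)) :
    w • v (m - j) m - ∑' i, A m i (v (i - j) i) = δ m := by
  have h2 := hsm.mapL (lp.evalCLM ℂ (fun _ : G => E) 2 m)
  have h5 : HasSum (fun k => (if k = 0 then w • v (m - j) m else 0)
      - A m (m - k) (v (m - k - j) (m - k))) (w • v (m - j) m - ∑' i, A m i (v (i - j) i)) := by
    apply (hasSum_ite_eq (0 : G) (w • v (m - j) m)).sub
    have h6 := (Equiv.subLeft m).hasSum_iff.2 hus2.hasSum
    exact h6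
  have h7 : HasSum (fun k => (if k = 0 then w • v (m - j) m else 0)
      - A m (m - k) (v (m - k - j) (m - k))) (δ m) := by
    refine h2.congr_fun fun k => ?_
    have h8 := eval_symbol A hκ0 hAk w (v (m - j - k)) k m
    refine Eq.trans ?_ h8.symm
    rw [sub_right_comm m j k]
    congr 1
    split_ifs with hk
    · rw [hk, sub_zero]
    · rfl
  exact h5.unique h7

/-- the symbol of `w - A` -/
noncomputable def symb [DecidableEq G] (A : G → G → E →L[ℂ] E) {κ : G → ℝ}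
    (hκ0 : ∀ k, 0 ≤ κ k) (hAk : ∀ k i, ‖A i (i - k)‖ ≤ κ k) (w : ℂ) (k : G) :
    lp (fun _ : G => E) 2 →L[ℂ] lp (fun _ : G => E) 2 :=
  (if k = 0 then algebraMap ℂ _ w else 0) - diagPart A hκ0 hAk k

omit [CompleteSpace E] in
theorem summable_symb [DecidableEq G] (A : G → G → E →L[ℂ] E) {κ : G → ℝ}
    (hκ0 : ∀ k, 0 ≤ κ k) (hAk : ∀ k i, ‖A i (i - k)‖ ≤ κ k) (hκ : Summable κ) (w : ℂ) :
    Summable fun k => ‖symb A hκ0 hAk w k‖ := by
  have h1 : Summable fun k : G => (if k = 0 then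
      ‖algebraMap ℂ (lp (fun _ : G => E) 2 →L[ℂ] lp (fun _ : G => E) 2) w‖ else 0) :=
    (hasSum_ite_eq (0 : G) _).summable
  refine Summable.of_nonneg_of_le (fun k => norm_nonneg (symb A hκ0 hAk w k))
    (fun k => ?_) (h1.add hκ)
  unfold symb
  refine (norm_sub_le (if k = 0 then algebraMap ℂ (lp (fun _ : G => E) 2 →L[ℂ]
    lp (fun _ : G => E) 2) w else 0) (diagPart A hκ0 hAk k)).trans ?_
  apply add_le_add _ (norm_diagPart_le A hκ0 hAk k)
  split_ifs
  · exact le_rfl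
  · exact ContinuousLinearMap.opNorm_zero.le

theorem exists_block_solution [DecidableEq G] (A : G → G → E →L[ℂ] E) {κ : G → ℝ}
    (hκ0 : ∀ k, 0 ≤ κ k) (hAk : ∀ k i, ‖A i (i - k)‖ ≤ κ k) (hκ : Summable κ)
    (hsymm : ∀ i j x y, inner ℂ (A i j x) y = inner ℂ x (A j i y))
    (w : ℂ) (hw : w.im ≠ 0) :
    ∃ C : ℝ, 0 ≤ C ∧ ∀ (j : G) (δ : lp (fun _ : G => E) 2), ∃ v : G → lp (fun _ : G => E) 2,
      (Summable fun i => ‖v i‖) ∧ ∑' i, ‖v i‖ ≤ C * ‖δ‖ ∧
      ∀ m, HasSum (fun k => symb A hκ0 hAk w k (v (m - j - k))) (if m = j then δ else 0) := by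
  obtain ⟨C, hC0, hC⟩ := exists_conv_solution (symb A hκ0 hAk w)
    (summable_symb A hκ0 hAk hκ w) (fun χ h0 hadd hχ =>
    exists_symbol_inverse A hκ0 hAk hκ hsymm w hw χ h0 hadd hχ)
  refine ⟨C, hC0, fun j δ => ?_⟩
  obtain ⟨v, hvs, hvC, hv1, hv2⟩ := hC δ
  refine ⟨v, hvs, hvC, fun m => ?_⟩
  have hsm : Summable fun k => symb A hκ0 hAk w k (v (m - j - k)) := by
    apply Summable.of_norm_bounded ((summable_symb A hκ0 hAk hκ w).mul_right (∑' i, ‖v i‖))
    intro k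
    calc ‖symb A hκ0 hAk w k (v (m - j - k))‖
        ≤ ‖symb A hκ0 hAk w k‖ * ‖v (m - j - k)‖ := (symb A hκ0 hAk w k).le_opNorm _
      _ ≤ ‖symb A hκ0 hAk w k‖ * ∑' i, ‖v i‖ := by
          gcongr
          exact hvs.le_tsum _ (fun i _ => norm_nonneg _)
  have h1 : ∑' k, symb A hκ0 hAk w k (v (m - j - k)) = if m = j then δ else 0 := by
    split_ifs with hm
    · rw [hm, sub_self]; exact hv2
    · exact hv1 _ (sub_ne_zero.2 hm)
  rw [← h1]
  exact hsm.hasSum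

theorem matrix_resolvent [DecidableEq G] (A : G → G → E →L[ℂ] E) (κ : G → ℝ)
    (hκ : Summable κ) (hA : ∀ i j, ‖A i j‖ ≤ κ (i - j))
    (hsymm : ∀ i j x y, inner ℂ (A i j x) y = inner ℂ x (A j i y))
    (w : ℂ) (hw : w.im ≠ 0) :
    ∃ C : ℝ, 0 ≤ C ∧ ∀ (j : G) (y : E), ∃ u : G → E, (Summable fun i => ‖u i‖) ∧
      ∑' i, ‖u i‖ ≤ C * ‖y‖ ∧ ∀ m, w • u m - ∑' i, A m i (u i) = if m = j then y else 0 := by
  have hκ0 : ∀ k, 0 ≤ κ k := fun k => by
    have := hA k 0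
    rw [sub_zero] at this
    exact (norm_nonneg _).trans this
  have hAk : ∀ k i, ‖A i (i - k)‖ ≤ κ k := fun k i => by
    have := hA i (i - k)
    rwa [sub_sub_cancel] at this
  obtain ⟨C, hC0, hC⟩ := exists_block_solution A hκ0 hAk hκ hsymm w hw
  refine ⟨C, hC0, fun j y => ?_⟩
  obtain ⟨v, hvs, hvC, hv1⟩ := hC j (lp.single 2 j y)
  have hvs' : Summable fun i => ‖v (i - j)‖ :=
    (Equiv.subRight j).summable_iff (f := fun i => ‖v i‖) |>.2 hvs
  have hle : ∀ i, ‖v (i - j) i‖ ≤ ‖v (i - j)‖ := fun i =>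
    lp.norm_apply_le_norm two_ne_zero (v (i - j)) i
  have hus : Summable fun i => ‖v (i - j) i‖ :=
    Summable.of_nonneg_of_le (fun _ => norm_nonneg _) hle hvs'
  refine ⟨fun i => v (i - j) i, hus, ?_, ?_⟩
  · rw [lp.norm_single two_pos] at hvC
    refine le_trans ?_ hvC
    rw [← (Equiv.subRight j).tsum_eq (fun i => ‖v i‖)]
    exact hus.tsum_le_tsum hle hvs'
  · intro m
    have hus2 : Summable fun i => A m i (v (i - j) i) := by
      have : Summable fun i => κ (m - i) * ‖v (i - j) i‖ := by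
        have hb : ∀ i, κ (m - i) ≤ ∑' k, κ k := fun i => hκ.le_tsum _ (fun _ _ => hκ0 _)
        refine Summable.of_nonneg_of_le (fun i => mul_nonneg (hκ0 _) (norm_nonneg _))
          (fun i => ?_) (hus.mul_left (∑' k, κ k))
        gcongr
        exact hb i
      apply Summable.of_norm_bounded this
      intro i
      exact (A m i).le_of_opNorm_le (hA m i) _
    have h3 := coord_eq A hκ0 hAk w v j m _ (hv1 m) hus2
    rw [h3]
    split_ifs with hm
    · rw [hm, lp.single_apply_self]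
    · rfl

end Herm

end Pool.Agent.MP_21eaa0_an
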