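import Pool.Agent.MP_21eaa0_an.Conv
import Pool.Agent.MP_21eaa0_an.Defs
import Pool.Agent.MP_21eaa0_an.Resolvent

/-!
Operators on `L^1(ℝ^d)` dominated by a convolution, and their blocks on `L^2`.
-/

open Filter Topology MeasureTheory
open scoped ENNReal ComplexConjugate

namespace Pool.Agent.MP_21eaa0_an

variable {d : ℕ}

/-- `L^1(ℝ^d; ℂ)` -/
noncomputable abbrev L1 (d : ℕ) := Lp ℂ 1 (volume : Measure (Fin d → ℝ))

/-- `L^2(ℝ^d; ℂ)` -/
noncomputable abbrev L2 (d : ℕ) := Lp ℂ 2 (volume : Measure (Fin d → ℝ))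

instance (j : Fin d → ℤ) : IsProbabilityMeasure ((volume : Measure (Fin d → ℝ)).restrict (cube j)) :=
  ⟨by rw [Measure.restrict_apply MeasurableSet.univ, Set.univ_inter, volume_cube]⟩

theorem enorm_L1 (f : L1 d) : ‖f‖ₑ = ∫⁻ x, ‖f x‖ₑ := by
  rw [Lp.enorm_def, eLpNorm_one_eq_lintegral_enorm]

theorem enorm_sq_L2 (f : L2 d) : ‖f‖ₑ ^ 2 = ∫⁻ x, ‖f x‖ₑ ^ 2 := by
  rw [Lp.enorm_def, eLpNorm_eq_lintegral_rpow_enorm_toReal (by norm_num) (by norm_num)]
  simp only [ENNReal.toReal_ofNat]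
  rw [← ENNReal.rpow_natCast, ← ENNReal.rpow_mul]
  norm_num

theorem memLp_JJ (j : Fin d → ℤ) (f : L2 d) :
    MemLp ((cube j).indicator (f : (Fin d → ℝ) → ℂ)) 1 volume := by
  rw [memLp_indicator_iff_restrict (measurableSet_cube j)]
  exact ((Lp.memLp f).restrict (cube j)).mono_exponent (by norm_num)

/-- restriction to a cube, from `L^2` to `L^1` -/
noncomputable def JJ (j : Fin d → ℤ) : L2 d →L[ℂ] L1 d :=
  LinearMap.mkContinuous
    { toFun := fun f => (memLp_JJ j f).toLp _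
      map_add' := by
        intro f g
        rw [← MemLp.toLp_add]
        apply MemLp.toLp_congr
        filter_upwards [Lp.coeFn_add f g] with x hx
        by_cases h : x ∈ cube j
        · rw [Pi.add_apply, Set.indicator_of_mem h, Set.indicator_of_mem h,
            Set.indicator_of_mem h, hx]; rfl
        · rw [Pi.add_apply, Set.indicator_of_notMem h, Set.indicator_of_notMem h,
            Set.indicator_of_notMem h, add_zero]
      map_smul' := by
        intro c f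
        rw [RingHom.id_apply, ← MemLp.toLp_const_smul]
        apply MemLp.toLp_congr
        filter_upwards [Lp.coeFn_smul c f] with x hx
        by_cases h : x ∈ cube j
        · rw [Pi.smul_apply, Set.indicator_of_mem h, Set.indicator_of_mem h, hx]; rfl
        · rw [Pi.smul_apply, Set.indicator_of_notMem h, Set.indicator_of_notMem h, smul_zero] } 1
    (by
      intro f
      rw [one_mul]
      show ‖(memLp_JJ j f).toLp _‖ ≤ ‖f‖
      rw [Lp.norm_toLp, Lp.norm_def]
      apply ENNReal.toReal_mono (Lp.eLpNorm_ne_top f)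
      rw [eLpNorm_indicator_eq_eLpNorm_restrict (measurableSet_cube j)]
      exact (eLpNorm_le_eLpNorm_of_exponent_le (by norm_num)
        (Lp.aestronglyMeasurable f).restrict).trans
        (eLpNorm_mono_measure _ Measure.restrict_le_self))

theorem coeFn_JJ (j : Fin d → ℤ) (f : L2 d) :
    (JJ j f : (Fin d → ℝ) → ℂ) =ᵐ[volume] (cube j).indicator (f : (Fin d → ℝ) → ℂ) :=
  (memLp_JJ j f).coeFn_toLp

theorem norm_JJ_le (j : Fin d → ℤ) (f : L2 d) : ‖JJ j f‖ ≤ ‖f‖ := by
  have := (JJ j).le_opNorm f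
  have h2 : ‖JJ (d := d) j‖ ≤ 1 := LinearMap.mkContinuous_norm_le _ zero_le_one _
  calc ‖JJ j f‖ ≤ ‖JJ j‖ * ‖f‖ := this
    _ ≤ 1 * ‖f‖ := by gcongr
    _ = ‖f‖ := one_mul _

theorem memLp_rho (j : Fin d → ℤ) (f : L1 d) :
    MemLp ((cube j).indicator (f : (Fin d → ℝ) → ℂ)) 1 volume :=
  (Lp.memLp f).indicator (measurableSet_cube j)

/-- restriction to a cube on `L^1` -/
noncomputable def rho (j : Fin d → ℤ) : L1 d →L[ℂ] L1 d :=
  LinearMap.mkContinuous
    { toFun := fun f => (memLp_rho j f).toLp _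
      map_add' := by
        intro f g
        rw [← MemLp.toLp_add]
        apply MemLp.toLp_congr
        filter_upwards [Lp.coeFn_add f g] with x hx
        by_cases h : x ∈ cube j
        · rw [Pi.add_apply, Set.indicator_of_mem h, Set.indicator_of_mem h,
            Set.indicator_of_mem h, hx]; rfl
        · rw [Pi.add_apply, Set.indicator_of_notMem h, Set.indicator_of_notMem h,
            Set.indicator_of_notMem h, add_zero]
      map_smul' := by
        intro c f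
        rw [RingHom.id_apply, ← MemLp.toLp_const_smul]
        apply MemLp.toLp_congr
        filter_upwards [Lp.coeFn_smul c f] with x hx
        by_cases h : x ∈ cube j
        · rw [Pi.smul_apply, Set.indicator_of_mem h, Set.indicator_of_mem h, hx]; rfl
        · rw [Pi.smul_apply, Set.indicator_of_notMem h, Set.indicator_of_notMem h, smul_zero] } 1
    (by
      intro f
      rw [one_mul]
      show ‖(memLp_rho j f).toLp _‖ ≤ ‖f‖
      rw [Lp.norm_toLp, Lp.norm_def]
      exact ENNReal.toReal_mono (Lp.eLpNorm_ne_top f) (eLpNorm_indicator_le _))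

theorem coeFn_rho (j : Fin d → ℤ) (f : L1 d) :
    (rho j f : (Fin d → ℝ) → ℂ) =ᵐ[volume] (cube j).indicator (f : (Fin d → ℝ) → ℂ) :=
  (memLp_rho j f).coeFn_toLp

theorem rho_ext {f g : L1 d} (h : ∀ j, rho j f = rho j g) : f = g := by
  apply Lp.ext
  have h1 : ∀ j : Fin d → ℤ, ∀ᵐ x, (cube j).indicator (f : (Fin d → ℝ) → ℂ) x
      = (cube j).indicator (g : (Fin d → ℝ) → ℂ) x := by
    intro j
    filter_upwards [coeFn_rho j f, coeFn_rho j g] with x h1 h2
    rw [← h1, ← h2, h j]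
  rw [← ae_all_iff] at h1
  filter_upwards [h1] with x hx
  have := hx (cidx x)
  rwa [Set.indicator_of_mem (show x ∈ cube (cidx x) from rfl),
    Set.indicator_of_mem (show x ∈ cube (cidx x) from rfl)] at this

theorem rho_JJ_same (j : Fin d → ℤ) (f : L2 d) : rho j (JJ j f) = JJ j f := by
  apply Lp.ext
  filter_upwards [coeFn_rho j (JJ j f), coeFn_JJ j f] with x h1 h2
  rw [h1]
  by_cases h : x ∈ cube j
  · rw [Set.indicator_of_mem h]
  · rw [Set.indicator_of_notMem h, h2, Set.indicator_of_notMem h]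

theorem rho_JJ_ne {i j : Fin d → ℤ} (hij : i ≠ j) (f : L2 d) : rho i (JJ j f) = 0 := by
  apply Lp.ext
  filter_upwards [coeFn_rho i (JJ j f), coeFn_JJ j f, Lp.coeFn_zero ℂ 1
    (volume : Measure (Fin d → ℝ))] with x h1 h2 h3
  rw [h1, h3]
  by_cases h : x ∈ cube i
  · rw [Set.indicator_of_mem h, h2]
    have : x ∉ cube j := fun h' => hij (h.symm.trans h')
    rw [Set.indicator_of_notMem this]; rfl
  · rw [Set.indicator_of_notMem h]; rfl

/-- `R` is dominated by the convolution with `K`. -/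
def Dom (K : (Fin d → ℝ) → ℝ≥0∞) (R : L1 d →L[ℂ] L1 d) : Prop :=
  ∀ f : L1 d, ∀ᵐ x, ‖R f x‖ₑ ≤ cE K (fun y => ‖f y‖ₑ) x

/-- block norm bound -/
noncomputable def kap (K : (Fin d → ℝ) → ℝ≥0∞) (c : Fin d → ℤ) : ℝ := (∫⁻ z, Kc K c z).toReal

theorem lintegral_Kc_ne_top {K : (Fin d → ℝ) → ℝ≥0∞} (hK : Measurable K) (hKi : ∫⁻ z, K z ≠ ⊤)
    (c : Fin d → ℤ) : ∫⁻ z, Kc K c z ≠ ⊤ := by
  have h := tsum_lintegral_Kc hK
  have h2 : ∑' c, ∫⁻ z, Kc K c z ≠ ⊤ := by
    rw [h]
    exact ENNReal.mul_ne_top (by simp) hKi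
  exact ENNReal.ne_top_of_tsum_ne_top h2 c

theorem summable_kap {K : (Fin d → ℝ) → ℝ≥0∞} (hK : Measurable K) (hKi : ∫⁻ z, K z ≠ ⊤) :
    Summable (kap K) := by
  apply ENNReal.summable_toReal
  rw [tsum_lintegral_Kc hK]
  exact ENNReal.mul_ne_top (by simp) hKi

theorem block_bound {K : (Fin d → ℝ) → ℝ≥0∞} (hK : Measurable K) {R : L1 d →L[ℂ] L1 d}
    (hR : Dom K R) (i j : Fin d → ℤ) (f : L2 d) :
    ∫⁻ x, ‖(cube i).indicator (R (JJ j f) : (Fin d → ℝ) → ℂ) x‖ₑ ^ 2
      ≤ (∫⁻ z, Kc K (i - j) z) ^ 2 * ‖f‖ₑ ^ 2 := by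
  have hm : Measurable fun y => ‖f y‖ₑ := (Lp.stronglyMeasurable f).measurable.enorm
  have h1 : ∀ᵐ x, ‖R (JJ j f) x‖ₑ ≤ cE K ((cube j).indicator fun y => ‖f y‖ₑ) x := by
    have h2 : ∀ x, cE K (fun y => ‖JJ j f y‖ₑ) x = cE K ((cube j).indicator fun y => ‖f y‖ₑ) x := by
      intro x
      unfold cE
      apply lintegral_congr_ae
      filter_upwards [coeFn_JJ j f] with y hy
      rw [hy]
      by_cases h : y ∈ cube j
      · rw [Set.indicator_of_mem h, Set.indicator_of_mem h]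
      · rw [Set.indicator_of_notMem h, Set.indicator_of_notMem h]; simp
    filter_upwards [hR (JJ j f)] with x hx
    rwa [h2] at hx
  calc ∫⁻ x, ‖(cube i).indicator (R (JJ j f) : (Fin d → ℝ) → ℂ) x‖ₑ ^ 2
      = ∫⁻ x in cube i, ‖R (JJ j f) x‖ₑ ^ 2 := by
        rw [← lintegral_indicator (measurableSet_cube i)]
        apply lintegral_congr
        intro x
        by_cases h : x ∈ cube i
        · rw [Set.indicator_of_mem h, Set.indicator_of_mem h]
        · rw [Set.indicator_of_notMem h, Set.indicator_of_notMem h]; simp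
    _ ≤ ∫⁻ x in cube i, (cE K ((cube j).indicator fun y => ‖f y‖ₑ) x) ^ 2 := by
        apply lintegral_mono_ae
        filter_upwards [ae_restrict_of_ae h1] with x hx
        gcongr
    _ ≤ (∫⁻ z, Kc K (i - j) z) ^ 2 * ∫⁻ x in cube j, ‖f x‖ₑ ^ 2 := block_young hK hm i j
    _ ≤ (∫⁻ z, Kc K (i - j) z) ^ 2 * ∫⁻ x, ‖f x‖ₑ ^ 2 := by
        gcongr
        exact Measure.restrict_le_self
    _ = (∫⁻ z, Kc K (i - j) z) ^ 2 * ‖f‖ₑ ^ 2 := by rw [enorm_sq_L2]

theorem eLpNorm_two_sq (g : (Fin d → ℝ) → ℂ) :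
    eLpNorm g 2 volume ^ 2 = ∫⁻ x, ‖g x‖ₑ ^ 2 := by
  rw [eLpNorm_eq_lintegral_rpow_enorm_toReal (by norm_num) (by norm_num)]
  simp only [ENNReal.toReal_ofNat]
  rw [← ENNReal.rpow_natCast, ← ENNReal.rpow_mul]
  norm_num

theorem eLpNorm_block_le {K : (Fin d → ℝ) → ℝ≥0∞} (hK : Measurable K) {R : L1 d →L[ℂ] L1 d}
    (hR : Dom K R) (i j : Fin d → ℤ) (f : L2 d) :
    eLpNorm ((cube i).indicator (R (JJ j f) : (Fin d → ℝ) → ℂ)) 2 volume
      ≤ (∫⁻ z, Kc K (i - j) z) * ‖f‖ₑ := by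
  have h := block_bound hK hR i j f
  rw [← eLpNorm_two_sq, ← mul_pow] at h
  exact (ENNReal.pow_le_pow_left_iff (by norm_num)).1 h

theorem memLp_block {K : (Fin d → ℝ) → ℝ≥0∞} (hK : Measurable K) (hKi : ∫⁻ z, K z ≠ ⊤)
    {R : L1 d →L[ℂ] L1 d} (hR : Dom K R) (i j : Fin d → ℤ) (f : L2 d) :
    MemLp ((cube i).indicator (R (JJ j f) : (Fin d → ℝ) → ℂ)) 2 volume :=
  ⟨(Lp.aestronglyMeasurable _).indicator (measurableSet_cube i),
    (eLpNorm_block_le hK hR i j f).trans_lt
      (ENNReal.mul_lt_top (lintegral_Kc_ne_top hK hKi _).lt_top enorm_lt_top)⟩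

/-- the block `1_{Q_i} R 1_{Q_j}` on `L^2` -/
noncomputable def blk {K : (Fin d → ℝ) → ℝ≥0∞} (hK : Measurable K) (hKi : ∫⁻ z, K z ≠ ⊤)
    {R : L1 d →L[ℂ] L1 d} (hR : Dom K R) (i j : Fin d → ℤ) : L2 d →L[ℂ] L2 d :=
  LinearMap.mkContinuous
    { toFun := fun f => (memLp_block hK hKi hR i j f).toLp _
      map_add' := by
        intro f g
        rw [← MemLp.toLp_add]
        apply MemLp.toLp_congr
        have e : R (JJ j (f + g)) = R (JJ j f) + R (JJ j g) := by rw [map_add, map_add]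
        rw [e]
        filter_upwards [Lp.coeFn_add (R (JJ j f)) (R (JJ j g))] with x hx
        by_cases h : x ∈ cube i
        · rw [Pi.add_apply, Set.indicator_of_mem h, Set.indicator_of_mem h,
            Set.indicator_of_mem h, hx]; rfl
        · rw [Pi.add_apply, Set.indicator_of_notMem h, Set.indicator_of_notMem h,
            Set.indicator_of_notMem h, add_zero]
      map_smul' := by
        intro c f
        rw [RingHom.id_apply, ← MemLp.toLp_const_smul]
        apply MemLp.toLp_congr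
        have e : R (JJ j (c • f)) = c • R (JJ j f) := by rw [map_smul, map_smul]
        rw [e]
        filter_upwards [Lp.coeFn_smul c (R (JJ j f))] with x hx
        by_cases h : x ∈ cube i
        · rw [Pi.smul_apply, Set.indicator_of_mem h, Set.indicator_of_mem h, hx]; rfl
        · rw [Pi.smul_apply, Set.indicator_of_notMem h, Set.indicator_of_notMem h, smul_zero] }
    (kap K (i - j))
    (by
      intro f
      show ‖(memLp_block hK hKi hR i j f).toLp _‖ ≤ kap K (i - j) * ‖f‖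
      rw [Lp.norm_toLp]
      have h := eLpNorm_block_le hK hR i j f
      have h2 := ENNReal.toReal_mono (ENNReal.mul_ne_top (lintegral_Kc_ne_top hK hKi (i - j))
        enorm_ne_top) h
      rw [ENNReal.toReal_mul, toReal_enorm] at h2
      exact h2)

theorem coeFn_blk {K : (Fin d → ℝ) → ℝ≥0∞} (hK : Measurable K) (hKi : ∫⁻ z, K z ≠ ⊤)
    {R : L1 d →L[ℂ] L1 d} (hR : Dom K R) (i j : Fin d → ℤ) (f : L2 d) :
    (blk hK hKi hR i j f : (Fin d → ℝ) → ℂ) =ᵐ[volume]
      (cube i).indicator (R (JJ j f) : (Fin d → ℝ) → ℂ) :=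
  (memLp_block hK hKi hR i j f).coeFn_toLp

theorem norm_blk_le {K : (Fin d → ℝ) → ℝ≥0∞} (hK : Measurable K) (hKi : ∫⁻ z, K z ≠ ⊤)
    {R : L1 d →L[ℂ] L1 d} (hR : Dom K R) (i j : Fin d → ℤ) :
    ‖blk hK hKi hR i j‖ ≤ kap K (i - j) :=
  LinearMap.mkContinuous_norm_le _ ENNReal.toReal_nonneg _

theorem JJ_blk {K : (Fin d → ℝ) → ℝ≥0∞} (hK : Measurable K) (hKi : ∫⁻ z, K z ≠ ⊤)
    {R : L1 d →L[ℂ] L1 d} (hR : Dom K R) (i j : Fin d → ℤ) (f : L2 d) :
    JJ i (blk hK hKi hR i j f) = rho i (R (JJ j f)) := by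
  apply Lp.ext
  filter_upwards [coeFn_JJ i (blk hK hKi hR i j f), coeFn_blk hK hKi hR i j f,
    coeFn_rho i (R (JJ j f))] with x h1 h2 h3
  rw [h1, h3]
  by_cases h : x ∈ cube i
  · rw [Set.indicator_of_mem h, h2]
  · rw [Set.indicator_of_notMem h, Set.indicator_of_notMem h]

/-- essentially bounded element of `L^1` -/
def Bdd (f : L1 d) : Prop := ∃ C : ℝ, ∀ᵐ x, ‖f x‖ ≤ C

/-- Hermitian symmetry, tested on bounded integrable functions -/
def Herm (R : L1 d →L[ℂ] L1 d) : Prop :=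
  ∀ u v : L1 d, Bdd u → Bdd v → ∫ x, conj (R u x) * v x = ∫ x, conj (u x) * R v x

theorem blk_symm {K : (Fin d → ℝ) → ℝ≥0∞} (hK : Measurable K) (hKi : ∫⁻ z, K z ≠ ⊤)
    {R : L1 d →L[ℂ] L1 d} (hR : Dom K R) (hH : Herm R) (i j : Fin d → ℤ) (f g : L2 d) :
    inner ℂ (blk hK hKi hR i j f) g = inner ℂ f (blk hK hKi hR j i g) := by
  refine DenseRange.induction_on₂ (e := ((↑) : Lp.simpleFunc ℂ 2 (volume : Measure (Fin d → ℝ)) →
    L2 d)) (Lp.simpleFunc.denseRange (by norm_num)) ?_ ?_ f g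
  · apply isClosed_eq
    · fun_prop
    · fun_prop
  · intro s t
    have hbd : ∀ (s : Lp.simpleFunc ℂ 2 (volume : Measure (Fin d → ℝ))) (j : Fin d → ℤ),
        Bdd (JJ j (s : L2 d)) := by
      intro s j
      obtain ⟨C, hC⟩ := (Lp.simpleFunc.toSimpleFunc s).exists_forall_norm_le
      refine ⟨C, ?_⟩
      filter_upwards [coeFn_JJ j (s : L2 d), Lp.simpleFunc.toSimpleFunc_eq_toFun s] with x h1 h2
      rw [h1]
      by_cases h : x ∈ cube j
      · rw [Set.indicator_of_mem h, ← h2]; exact hC x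
      · rw [Set.indicator_of_notMem h, norm_zero]; exact (norm_nonneg _).trans (hC x)
    have h := hH (JJ j (s : L2 d)) (JJ i (t : L2 d)) (hbd s j) (hbd t i)
    rw [L2.inner_def, L2.inner_def]
    have e1 : ∫ x, inner ℂ (blk hK hKi hR i j (s : L2 d) x) ((t : L2 d) x)
        = ∫ x, conj (R (JJ j (s : L2 d)) x) * (JJ i (t : L2 d)) x := by
      apply integral_congr_ae
      filter_upwards [coeFn_blk hK hKi hR i j (s : L2 d), coeFn_JJ i (t : L2 d)] with x h1 h2
      rw [h1, h2, RCLike.inner_apply]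
      by_cases h : x ∈ cube i
      · rw [Set.indicator_of_mem h, Set.indicator_of_mem h, mul_comm]
      · rw [Set.indicator_of_notMem h, Set.indicator_of_notMem h]; simp
    have e2 : ∫ x, inner ℂ ((s : L2 d) x) (blk hK hKi hR j i (t : L2 d) x)
        = ∫ x, conj (JJ j (s : L2 d) x) * R (JJ i (t : L2 d)) x := by
      apply integral_congr_ae
      filter_upwards [coeFn_blk hK hKi hR j i (t : L2 d), coeFn_JJ j (s : L2 d)] with x h1 h2
      rw [h1, h2, RCLike.inner_apply]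
      by_cases h : x ∈ cube j
      · rw [Set.indicator_of_mem h, Set.indicator_of_mem h, mul_comm]
      · rw [Set.indicator_of_notMem h, Set.indicator_of_notMem h]; simp
    rw [e1, e2]
    exact h

end Pool.Agent.MP_21eaa0_an
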