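import Mathlib

/-!
Convolutions of `[0, ∞]`-valued functions: Tonelli and Young inequalities.
-/

open Filter Topology MeasureTheory
open scoped ENNReal

namespace Pool.Agent.MP_21eaa0_an

variable {d : ℕ}

/-- convolution of `[0, ∞]`-valued functions -/
noncomputable def cE (K g : (Fin d → ℝ) → ℝ≥0∞) (x : Fin d → ℝ) : ℝ≥0∞ :=
  ∫⁻ y, K (x - y) * g y

theorem measurable_cE {K g : (Fin d → ℝ) → ℝ≥0∞} (hK : Measurable K) (hg : Measurable g) :
    Measurable (cE K g) := by
  unfold cE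
  apply Measurable.lintegral_prod_right'
    (f := fun p : (Fin d → ℝ) × (Fin d → ℝ) => K (p.1 - p.2) * g p.2)
  fun_prop

theorem lintegral_cE {K g : (Fin d → ℝ) → ℝ≥0∞} (hK : Measurable K) (hg : Measurable g) :
    ∫⁻ x, cE K g x = (∫⁻ x, K x) * ∫⁻ x, g x := by
  unfold cE
  rw [lintegral_lintegral_swap]
  · calc ∫⁻ y, ∫⁻ x, K (x - y) * g y = ∫⁻ y, (∫⁻ x, K x) * g y := by
          apply lintegral_congr
          intro y
          rw [lintegral_mul_const _ (by fun_prop), lintegral_sub_right_eq_self]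
      _ = (∫⁻ x, K x) * ∫⁻ x, g x := by rw [lintegral_const_mul _ hg]
  · apply Measurable.aemeasurable
    show Measurable fun p : (Fin d → ℝ) × (Fin d → ℝ) => K (p.1 - p.2) * g p.2
    fun_prop

theorem cE_sq_le {K g : (Fin d → ℝ) → ℝ≥0∞} (hK : Measurable K) (hg : Measurable g)
    (x : Fin d → ℝ) :
    (cE K g x) ^ 2 ≤ (∫⁻ x, K x) * cE K (fun y => g y ^ 2) x := by
  have h := ENNReal.lintegral_mul_le_Lp_mul_Lq (volume : Measure (Fin d → ℝ))
    Real.HolderConjugate.two_two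
    (f := fun y => (K (x - y)) ^ (1 / 2 : ℝ)) (g := fun y => (K (x - y)) ^ (1 / 2 : ℝ) * g y)
    (by fun_prop) (by fun_prop)
  have e1 : ∀ y, ((fun y => (K (x - y)) ^ (1 / 2 : ℝ)) * (fun y => (K (x - y)) ^ (1 / 2 : ℝ) * g y)) y
      = K (x - y) * g y := by
    intro y
    simp only [Pi.mul_apply]
    rw [← mul_assoc, ← ENNReal.rpow_add_of_nonneg _ _ (by norm_num) (by norm_num)]
    norm_num
  have e2 : ∀ y, ((K (x - y)) ^ (1 / 2 : ℝ)) ^ (2 : ℝ) = K (x - y) := by
    intro y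
    rw [← ENNReal.rpow_mul]
    norm_num
  have e3 : ∀ y, ((K (x - y)) ^ (1 / 2 : ℝ) * g y) ^ (2 : ℝ) = K (x - y) * g y ^ 2 := by
    intro y
    rw [ENNReal.mul_rpow_of_nonneg _ _ (by norm_num), e2]
    norm_cast
  simp_rw [e1, e2, e3] at h
  have e4 : ∫⁻ y, K (x - y) = ∫⁻ y, K y := lintegral_sub_left_eq_self K x
  rw [e4] at h
  have h2 : (cE K g x) ^ 2 ≤ ((∫⁻ y, K y) ^ (1 / 2 : ℝ) *
      (∫⁻ y, K (x - y) * g y ^ 2) ^ (1 / 2 : ℝ)) ^ 2 := by
    gcongr
    exact h
  refine h2.trans (le_of_eq ?_)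
  rw [mul_pow]
  congr 1
  · rw [← ENNReal.rpow_natCast, ← ENNReal.rpow_mul]; norm_num
  · rw [← ENNReal.rpow_natCast, ← ENNReal.rpow_mul]; norm_num; rfl

theorem lintegral_cE_sq_le {K g : (Fin d → ℝ) → ℝ≥0∞} (hK : Measurable K) (hg : Measurable g) :
    ∫⁻ x, (cE K g x) ^ 2 ≤ (∫⁻ x, K x) ^ 2 * ∫⁻ x, g x ^ 2 := by
  calc ∫⁻ x, (cE K g x) ^ 2 ≤ ∫⁻ x, (∫⁻ x, K x) * cE K (fun y => g y ^ 2) x :=
        lintegral_mono fun x => cE_sq_le hK hg x
    _ = (∫⁻ x, K x) * ∫⁻ x, cE K (fun y => g y ^ 2) x := by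
        rw [lintegral_const_mul _ (measurable_cE hK (hg.pow_const 2))]
    _ = (∫⁻ x, K x) ^ 2 * ∫⁻ x, g x ^ 2 := by
        rw [lintegral_cE hK (hg.pow_const 2), sq, mul_assoc]

/-- index of the unit cube containing a point -/
noncomputable def cidx (x : Fin d → ℝ) : Fin d → ℤ := fun i => ⌊x i⌋

/-- the half-open unit cube with index `j` -/
def cube (j : Fin d → ℤ) : Set (Fin d → ℝ) := {x | cidx x = j}

theorem measurable_cidx : Measurable (cidx (d := d)) := by
  rw [measurable_pi_iff]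
  intro i
  exact Int.measurable_floor.comp (measurable_pi_apply i)

theorem measurableSet_cube (j : Fin d → ℤ) : MeasurableSet (cube j) :=
  measurable_cidx (measurableSet_singleton j)

theorem volume_cube (j : Fin d → ℤ) : volume (cube j) = 1 := by
  have : cube j = Set.pi Set.univ (fun i => Set.Ico (j i : ℝ) (j i + 1)) := by
    ext x
    simp only [cube, Set.mem_setOf_eq, Set.mem_pi, Set.mem_univ, true_imp_iff, Set.mem_Ico]
    rw [funext_iff]
    apply forall_congr'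
    intro i
    exact Int.floor_eq_iff
  rw [this, Real.volume_pi_Ico]
  simp

theorem iUnion_cube : ⋃ j : Fin d → ℤ, cube j = Set.univ := by
  ext x
  simp [cube]

theorem disjoint_cube : Pairwise (Function.onFun Disjoint (cube (d := d))) := by
  intro i j hij
  rw [Function.onFun, Set.disjoint_left]
  intro x hx hx'
  exact hij (hx.symm.trans hx')

theorem lintegral_eq_tsum_cube (g : (Fin d → ℝ) → ℝ≥0∞) :
    ∫⁻ x, g x = ∑' j : Fin d → ℤ, ∫⁻ x in cube j, g x := by
  rw [← lintegral_iUnion measurableSet_cube disjoint_cube, iUnion_cube, setLIntegral_univ]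

/-- `0/1` shift vectors -/
def sh (e : Fin d → Bool) : Fin d → ℤ := fun l => if e l then 1 else 0

theorem exists_sh (x y : Fin d → ℝ) : ∃ e : Fin d → Bool, cidx (x - y) = cidx x - cidx y - sh e := by
  classical
  refine ⟨fun l => decide (⌊x l - y l⌋ = ⌊x l⌋ - ⌊y l⌋ - 1), ?_⟩
  funext l
  show ⌊x l - y l⌋ = ⌊x l⌋ - ⌊y l⌋ - (if decide (⌊x l - y l⌋ = ⌊x l⌋ - ⌊y l⌋ - 1) then 1 else 0)
  by_cases h : ⌊x l - y l⌋ = ⌊x l⌋ - ⌊y l⌋ - 1
  · simp [h]
  · simp only [h, decide_false]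
    simp only [Bool.false_eq_true, if_false, sub_zero]
    have h1 : ⌊x l⌋ - ⌊y l⌋ - 1 ≤ ⌊x l - y l⌋ := by
      rw [Int.le_floor]
      push_cast
      linarith [Int.floor_le (x l), Int.lt_floor_add_one (y l)]
    have h2 : ⌊x l - y l⌋ < ⌊x l⌋ - ⌊y l⌋ + 1 := by
      rw [Int.floor_lt]
      push_cast
      linarith [Int.floor_le (y l), Int.lt_floor_add_one (x l)]
    omega

/-- the part of the kernel `K` seen by two cubes with index difference `c` -/
noncomputable def Kc (K : (Fin d → ℝ) → ℝ≥0∞) (c : Fin d → ℤ) (z : Fin d → ℝ) : ℝ≥0∞ :=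
  ∑ e : Fin d → Bool, (cube (c - sh e)).indicator K z

theorem measurable_Kc {K : (Fin d → ℝ) → ℝ≥0∞} (hK : Measurable K) (c : Fin d → ℤ) :
    Measurable (Kc K c) := by
  unfold Kc
  exact Finset.measurable_fun_sum _ fun e _ => hK.indicator (measurableSet_cube _)

theorem le_Kc (K : (Fin d → ℝ) → ℝ≥0∞) {i j : Fin d → ℤ} {x y : Fin d → ℝ} (hx : x ∈ cube i)
    (hy : y ∈ cube j) : K (x - y) ≤ Kc K (i - j) (x - y) := by
  obtain ⟨e, he⟩ := exists_sh x y
  have hx' : cidx x = i := hx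
  have hy' : cidx y = j := hy
  rw [hx', hy'] at he
  have : K (x - y) = (cube (i - j - sh e)).indicator K (x - y) := by
    rw [Set.indicator_of_mem]
    exact he
  rw [this]
  unfold Kc
  exact Finset.single_le_sum (f := fun e => (cube (i - j - sh e)).indicator K (x - y))
    (fun _ _ => zero_le) (Finset.mem_univ e)

theorem tsum_lintegral_Kc {K : (Fin d → ℝ) → ℝ≥0∞} (hK : Measurable K) :
    ∑' c, ∫⁻ z, Kc K c z = (2 ^ d : ℕ) * ∫⁻ z, K z := by
  have h1 : ∀ c, ∫⁻ z, Kc K c z = ∑ e : Fin d → Bool, ∫⁻ z in cube (c - sh e), K z := by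
    intro c
    unfold Kc
    rw [lintegral_finset_sum _ fun e _ => hK.indicator (measurableSet_cube _)]
    apply Finset.sum_congr rfl
    intro e _
    rw [lintegral_indicator (measurableSet_cube _)]
  simp_rw [h1]
  rw [Summable.tsum_finsetSum (fun _ _ => ENNReal.summable)]
  have h2 : ∀ e : Fin d → Bool, ∑' c, ∫⁻ z in cube (c - sh e), K z = ∫⁻ z, K z := by
    intro e
    rw [lintegral_eq_tsum_cube]
    exact (Equiv.subRight (sh e)).tsum_eq (fun c => ∫⁻ z in cube c, K z)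
  simp_rw [h2]
  rw [Finset.sum_const, Finset.card_univ, nsmul_eq_mul]
  simp

/-- Young's inequality between two cubes. -/
theorem block_young {K g : (Fin d → ℝ) → ℝ≥0∞} (hK : Measurable K) (hg : Measurable g)
    (i j : Fin d → ℤ) :
    ∫⁻ x in cube i, (cE K ((cube j).indicator g) x) ^ 2
      ≤ (∫⁻ z, Kc K (i - j) z) ^ 2 * ∫⁻ x in cube j, g x ^ 2 := by
  have h1 : ∀ x ∈ cube i, (cE K ((cube j).indicator g) x) ≤
      cE (Kc K (i - j)) ((cube j).indicator g) x := by
    intro x hx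
    unfold cE
    apply lintegral_mono
    intro y
    by_cases hy : y ∈ cube j
    · exact mul_le_mul_left (le_Kc K hx hy) _
    · simp [Set.indicator_of_notMem hy]
  calc ∫⁻ x in cube i, (cE K ((cube j).indicator g) x) ^ 2
      ≤ ∫⁻ x in cube i, (cE (Kc K (i - j)) ((cube j).indicator g) x) ^ 2 := by
        apply setLIntegral_mono' (measurableSet_cube i)
        intro x hx
        gcongr
        exact h1 x hx
    _ ≤ ∫⁻ x, (cE (Kc K (i - j)) ((cube j).indicator g) x) ^ 2 := setLIntegral_le_lintegral _ _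
    _ ≤ (∫⁻ z, Kc K (i - j) z) ^ 2 * ∫⁻ x, ((cube j).indicator g x) ^ 2 :=
        lintegral_cE_sq_le (measurable_Kc hK _) (hg.indicator (measurableSet_cube j))
    _ = (∫⁻ z, Kc K (i - j) z) ^ 2 * ∫⁻ x in cube j, g x ^ 2 := by
        congr 1
        rw [← lintegral_indicator (measurableSet_cube j)]
        apply lintegral_congr
        intro x
        by_cases hx : x ∈ cube j
        · simp [Set.indicator_of_mem hx]
        · simp [Set.indicator_of_notMem hx]

end Pool.Agent.MP_21eaa0_an
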