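import Mathlib

/-!
Surjectivity of `w - T` for all non-real `w` forces the spectrum of `T` to be real.
-/

open Filter Topology

namespace Pool.Agent.MP_21eaa0_an

section Surj

variable {E : Type*} [NormedAddCommGroup E] [NormedSpace ℂ E] [CompleteSpace E]

theorem approx_surj (T : E →L[ℂ] E) (c : ℝ) (hc : 0 ≤ c)
    (h : ∀ g, ∃ f, ‖f‖ ≤ c * ‖g‖ ∧ ‖g - T f‖ ≤ 1 / 2 * ‖g‖) :
    ∀ g, ∃ f, T f = g ∧ ‖f‖ ≤ 2 * c * ‖g‖ := by
  intro g
  choose φ hφ1 hφ2 using h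
  let γ : ℕ → E := fun n => Nat.rec g (fun _ x => x - T (φ x)) n
  have hγ0 : γ 0 = g := rfl
  have hγs : ∀ n, γ (n + 1) = γ n - T (φ (γ n)) := fun n => rfl
  have hγn : ∀ n, ‖γ n‖ ≤ (1 / 2) ^ n * ‖g‖ := by
    intro n
    induction n with
    | zero => simp [hγ0]
    | succ n ih =>
      rw [hγs, pow_succ]
      calc ‖γ n - T (φ (γ n))‖ ≤ 1 / 2 * ‖γ n‖ := hφ2 _
        _ ≤ 1 / 2 * ((1 / 2) ^ n * ‖g‖) := by gcongr
        _ = (1 / 2) ^ n * (1 / 2) * ‖g‖ := by ring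
  have hfn : ∀ n, ‖φ (γ n)‖ ≤ c * ‖g‖ * (1 / 2) ^ n := by
    intro n
    calc ‖φ (γ n)‖ ≤ c * ‖γ n‖ := hφ1 _
      _ ≤ c * ((1 / 2) ^ n * ‖g‖) := by gcongr; exact hγn n
      _ = c * ‖g‖ * (1 / 2) ^ n := by ring
  have hgeo : HasSum (fun n : ℕ => c * ‖g‖ * (1 / 2 : ℝ) ^ n) (c * ‖g‖ * 2) :=
    hasSum_geometric_two.mul_left _
  have hs : Summable fun n => φ (γ n) := Summable.of_norm_bounded hgeo.summable hfn
  refine ⟨∑' n, φ (γ n), ?_, ?_⟩
  · have h1 : HasSum (fun n => T (φ (γ n))) (T (∑' n, φ (γ n))) := hs.hasSum.mapL T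
    have h2 := h1.tendsto_sum_nat
    have h3 : ∀ n, ∑ i ∈ Finset.range n, T (φ (γ i)) = g - γ n := by
      intro n
      induction n with
      | zero => simp [hγ0]
      | succ n ih => rw [Finset.sum_range_succ, ih, hγs]; abel
    have h4 : Tendsto γ atTop (𝓝 0) := by
      rw [tendsto_zero_iff_norm_tendsto_zero]
      have h5 : Tendsto (fun n : ℕ => (1 / 2 : ℝ) ^ n * ‖g‖) atTop (𝓝 (0 * ‖g‖)) :=
        (tendsto_pow_atTop_nhds_zero_of_lt_one (by norm_num) (by norm_num)).mul_const _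
      rw [zero_mul] at h5
      exact squeeze_zero (fun _ => norm_nonneg _) hγn h5
    have h6 : Tendsto (fun n => ∑ i ∈ Finset.range n, T (φ (γ i))) atTop (𝓝 (g - 0)) := by
      simp_rw [h3]
      exact tendsto_const_nhds.sub h4
    rw [sub_zero] at h6
    exact tendsto_nhds_unique h2 h6
  · have := tsum_of_norm_bounded hgeo hfn
    linarith

/-- `w - T` is boundedly surjective -/
def BddSurj (T : E →L[ℂ] E) : Prop := ∃ c : ℝ, 0 ≤ c ∧ ∀ g, ∃ f, T f = g ∧ ‖f‖ ≤ c * ‖g‖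

theorem isUnit_of_limit (T : E →L[ℂ] E) (w : ℂ)
    (hs : BddSurj (algebraMap ℂ (E →L[ℂ] E) w - T))
    (hlim : ∀ ε > 0, ∃ w' : ℂ, ‖w' - w‖ < ε ∧ IsUnit (algebraMap ℂ (E →L[ℂ] E) w' - T)) :
    IsUnit (algebraMap ℂ (E →L[ℂ] E) w - T) := by
  obtain ⟨c, hc0, hc⟩ := hs
  obtain ⟨w', hw', hu⟩ := hlim (1 / (2 * c + 2)) (by positivity)
  have hd : ‖w' - w‖ * (2 * c + 2) < 1 := by
    rwa [lt_div_iff₀ (by positivity)] at hw'
  have hd0 : 0 ≤ ‖w' - w‖ := norm_nonneg _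
  obtain ⟨X, hX⟩ := hu.exists_left_inv
  obtain ⟨X', hX'⟩ := hu.exists_right_inv
  have hXX : X = X' := by
    calc X = X * ((algebraMap ℂ (E →L[ℂ] E) w' - T) * X') := by rw [hX', mul_one]
      _ = X' := by rw [← mul_assoc, hX, one_mul]
  have hdiff : (algebraMap ℂ (E →L[ℂ] E) w' - T) = (algebraMap ℂ (E →L[ℂ] E) w - T)
      + algebraMap ℂ (E →L[ℂ] E) (w' - w) := by
    rw [map_sub]; abel
  have hsurj := approx_surj (algebraMap ℂ (E →L[ℂ] E) w' - T) c hc0 (by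
    intro g
    obtain ⟨f, hf1, hf2⟩ := hc g
    refine ⟨f, hf2, ?_⟩
    have : g - (algebraMap ℂ (E →L[ℂ] E) w' - T) f = -((w' - w) • f) := by
      rw [hdiff, ContinuousLinearMap.add_apply, hf1]
      have : algebraMap ℂ (E →L[ℂ] E) (w' - w) f = (w' - w) • f := by
        rw [Algebra.algebraMap_eq_smul_one]; rfl
      rw [this]; abel
    rw [this, norm_neg, norm_smul]
    calc ‖w' - w‖ * ‖f‖ ≤ ‖w' - w‖ * (c * ‖g‖) := by gcongr
      _ = (‖w' - w‖ * c) * ‖g‖ := by ring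
      _ ≤ 1 / 2 * ‖g‖ := by
          gcongr
          nlinarith)
  have hXn : ‖X‖ ≤ 2 * c := by
    apply ContinuousLinearMap.opNorm_le_bound _ (by positivity)
    intro g
    obtain ⟨f, hf1, hf2⟩ := hsurj g
    have : X g = f := by
      rw [← hf1]
      exact congrArg (fun z => z f) hX
    rw [this]
    exact hf2
  have hfac : (algebraMap ℂ (E →L[ℂ] E) w - T)
      = (algebraMap ℂ (E →L[ℂ] E) w' - T) * (1 - (w' - w) • X) := by
    rw [mul_sub, mul_one, mul_smul_comm, hXX, hX', hdiff, Algebra.algebraMap_eq_smul_one (w' - w)]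
    abel
  rw [hfac]
  apply hu.mul
  apply isUnit_one_sub_of_norm_lt_one
  rw [norm_smul]
  calc ‖w' - w‖ * ‖X‖ ≤ ‖w' - w‖ * (2 * c) := by gcongr
    _ < 1 := by nlinarith

theorem spectrum_real_of_surj (T : E →L[ℂ] E)
    (hs : ∀ w : ℂ, w.im ≠ 0 → BddSurj (algebraMap ℂ (E →L[ℂ] E) w - T)) :
    ∀ w ∈ spectrum ℂ T, w.im = 0 := by
  intro w hw
  by_contra hne
  have hcomp : IsCompact (spectrum ℂ T) := spectrum.isCompact T
  rcases lt_or_gt_of_ne hne with hlt | hgt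
  · obtain ⟨z, hz, hmin⟩ := hcomp.exists_isMinOn ⟨w, hw⟩ (Complex.continuous_im.continuousOn)
    have hz1 : z.im ≤ w.im := hmin hw
    apply hz
    apply isUnit_of_limit T z (hs z (by linarith : z.im < 0).ne)
    intro ε hε
    refine ⟨z - (ε / 2 : ℝ) * Complex.I, ?_, ?_⟩
    · rw [sub_sub_cancel_left, norm_neg, norm_mul, Complex.norm_I, mul_one, Complex.norm_real,
        Real.norm_eq_abs, abs_of_pos (by positivity)]
      linarith
    · by_contra hcon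
      have h1 : z.im ≤ (z - (ε / 2 : ℝ) * Complex.I).im := hmin hcon
      simp at h1
      linarith
  · obtain ⟨z, hz, hmax⟩ := hcomp.exists_isMaxOn ⟨w, hw⟩ (Complex.continuous_im.continuousOn)
    have hz1 : w.im ≤ z.im := hmax hw
    apply hz
    apply isUnit_of_limit T z (hs z (by linarith : 0 < z.im).ne')
    intro ε hε
    refine ⟨z + (ε / 2 : ℝ) * Complex.I, ?_, ?_⟩
    · rw [add_sub_cancel_left, norm_mul, Complex.norm_I, mul_one, Complex.norm_real,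
        Real.norm_eq_abs, abs_of_pos (by positivity)]
      linarith
    · by_contra hcon
      have h1 : (z + (ε / 2 : ℝ) * Complex.I).im ≤ z.im := hmax hcon
      simp at h1
      linarith

end Surj

end Pool.Agent.MP_21eaa0_an
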