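import Pool.Agent.MP_21eaa0_an.Blocks
import Pool.Agent.MP_21eaa0_an.Surj

/-!
Convolution operators on `L^1(ℝ^d)` and solvability of `w U - R U = h` for locally `L^2` data.
-/

open Filter Topology MeasureTheory
open scoped ENNReal ComplexConjugate

namespace Pool.Agent.MP_21eaa0_an

variable {d : ℕ}

theorem local_solve {K : (Fin d → ℝ) → ℝ≥0∞} (hK : Measurable K) (hKi : ∫⁻ z, K z ≠ ⊤)
    {R : L1 d →L[ℂ] L1 d} (hR : Dom K R) (hH : Herm R) {w : ℂ} (hw : w.im ≠ 0) :
    ∃ C : ℝ, 0 ≤ C ∧ ∀ (j : Fin d → ℤ) (y : L2 d), ∃ U : L1 d,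
      w • U - R U = JJ j y ∧ ‖U‖ ≤ C * ‖y‖ := by
  classical
  obtain ⟨C, hC0, hC⟩ := matrix_resolvent (blk hK hKi hR) (kap K) (summable_kap hK hKi)
    (norm_blk_le hK hKi hR) (fun i j x y => blk_symm hK hKi hR hH i j x y) w hw
  refine ⟨C, hC0, fun j y => ?_⟩
  obtain ⟨u, hus, huC, hu⟩ := hC j y
  have hsJ : Summable fun i => JJ i (u i) :=
    Summable.of_norm_bounded hus fun i => norm_JJ_le i (u i)
  refine ⟨∑' i, JJ i (u i), ?_, ?_⟩
  · apply rho_ext
    intro m
    have h1 : rho m (∑' i, JJ i (u i)) = JJ m (u m) := by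
      rw [ContinuousLinearMap.map_tsum _ hsJ, tsum_eq_single m, rho_JJ_same]
      intro i hi
      exact rho_JJ_ne (Ne.symm hi) _
    have hblk : Summable fun i => blk hK hKi hR m i (u i) := by
      have hkb : ∀ i, kap K (m - i) ≤ ∑' k, kap K k := fun i =>
        (summable_kap hK hKi).le_tsum _ (fun _ _ => ENNReal.toReal_nonneg)
      apply Summable.of_norm_bounded (hus.mul_left (∑' k, kap K k))
      intro i
      calc ‖blk hK hKi hR m i (u i)‖ ≤ kap K (m - i) * ‖u i‖ :=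
            ContinuousLinearMap.le_of_opNorm_le _ (norm_blk_le hK hKi hR m i) _
        _ ≤ (∑' k, kap K k) * ‖u i‖ := by gcongr; exact hkb i
    have hRs : Summable fun i => R (JJ i (u i)) := hsJ.map R R.continuous
    have h2 : rho m (R (∑' i, JJ i (u i))) = JJ m (∑' i, blk hK hKi hR m i (u i)) := by
      rw [ContinuousLinearMap.map_tsum _ hsJ, ContinuousLinearMap.map_tsum _ hRs,
        ContinuousLinearMap.map_tsum _ hblk]
      exact tsum_congr fun i => (JJ_blk hK hKi hR m i (u i)).symm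
    have h3 : rho m (w • (∑' i, JJ i (u i)) - R (∑' i, JJ i (u i)))
        = JJ m (w • u m - ∑' i, blk hK hKi hR m i (u i)) := by
      rw [map_sub, map_smul, h1, h2, map_sub, map_smul]
    rw [h3, hu m]
    split_ifs with hm
    · rw [hm, rho_JJ_same]
    · rw [map_zero, rho_JJ_ne hm]
  · have h1 : ‖∑' i, JJ i (u i)‖ ≤ ∑' i, ‖u i‖ :=
      tsum_of_norm_bounded hus.hasSum fun i => norm_JJ_le i (u i)
    exact h1.trans huC

theorem sum_solve {K : (Fin d → ℝ) → ℝ≥0∞} (hK : Measurable K) (hKi : ∫⁻ z, K z ≠ ⊤)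
    {R : L1 d →L[ℂ] L1 d} (hR : Dom K R) (hH : Herm R) {w : ℂ} (hw : w.im ≠ 0) :
    ∃ C : ℝ, 0 ≤ C ∧ ∀ y : (Fin d → ℤ) → L2 d, (Summable fun j => ‖y j‖) → ∃ U : L1 d,
      w • U - R U = ∑' j, JJ j (y j) ∧ ‖U‖ ≤ C * ∑' j, ‖y j‖ := by
  obtain ⟨C, hC0, hC⟩ := local_solve hK hKi hR hH hw
  refine ⟨C, hC0, fun y hy => ?_⟩
  choose U hU1 hU2 using hC
  have hs : Summable fun j => U j (y j) :=
    Summable.of_norm_bounded (hy.mul_left C) fun j => hU2 j (y j)
  refine ⟨∑' j, U j (y j), ?_, ?_⟩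
  · have hRs : Summable fun j => R (U j (y j)) := hs.map R R.continuous
    rw [ContinuousLinearMap.map_tsum _ hs, ← hs.tsum_const_smul,
      ← (hs.const_smul w).tsum_sub hRs]
    exact tsum_congr fun j => hU1 j (y j)
  · rw [← tsum_mul_left]
    exact tsum_of_norm_bounded (hy.mul_left C).hasSum fun j => hU2 j (y j)

section CvOp

/-- admissible kernel -/
structure Ker (k : (Fin d → ℝ) → ℝ) : Prop where
  meas : Measurable k
  fin : ∫⁻ z, ‖k z‖ₑ ≠ ⊤

variable {k : (Fin d → ℝ) → ℝ}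

/-- pointwise convolution -/
noncomputable def cv (k : (Fin d → ℝ) → ℝ) (f : (Fin d → ℝ) → ℂ) (x : Fin d → ℝ) : ℂ :=
  ∫ y, k (x - y) • f y

theorem cv_congr (k : (Fin d → ℝ) → ℝ) {f g : (Fin d → ℝ) → ℂ} (h : f =ᵐ[volume] g) :
    cv k f = cv k g := by
  funext x
  unfold cv
  apply integral_congr_ae
  filter_upwards [h] with y hy
  rw [hy]

theorem enorm_cv_le (k : (Fin d → ℝ) → ℝ) (f : (Fin d → ℝ) → ℂ) (x : Fin d → ℝ) :
    ‖cv k f x‖ₑ ≤ cE (fun z => ‖k z‖ₑ) (fun y => ‖f y‖ₑ) x := by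
  unfold cv cE
  refine (enorm_integral_le_lintegral_enorm _).trans (le_of_eq ?_)
  apply lintegral_congr
  intro y
  rw [enorm_smul]

theorem measurable_enorm_Lp (f : L1 d) : Measurable fun y => ‖f y‖ₑ :=
  (Lp.stronglyMeasurable f).measurable.enorm

theorem Ker.measurable_enorm (hk : Ker k) : Measurable fun z => ‖k z‖ₑ := hk.meas.enorm

theorem Ker.lintegral_cE (hk : Ker k) (f : L1 d) :
    ∫⁻ x, cE (fun z => ‖k z‖ₑ) (fun y => ‖f y‖ₑ) x = (∫⁻ z, ‖k z‖ₑ) * ‖f‖ₑ := by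
  rw [Pool.Agent.MP_21eaa0_an.lintegral_cE hk.measurable_enorm (measurable_enorm_Lp f), enorm_L1]

theorem Ker.stronglyMeasurable_cv (hk : Ker k) (f : L1 d) : StronglyMeasurable (cv k f) := by
  unfold cv
  apply StronglyMeasurable.integral_prod_right'
    (f := fun p : (Fin d → ℝ) × (Fin d → ℝ) => k (p.1 - p.2) • f p.2)
  have h1 : Measurable fun p : (Fin d → ℝ) × (Fin d → ℝ) => k (p.1 - p.2) :=
    hk.meas.comp (measurable_fst.sub measurable_snd)
  have h2 : Measurable fun p : (Fin d → ℝ) × (Fin d → ℝ) => f p.2 :=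
    (Lp.stronglyMeasurable f).measurable.comp measurable_snd
  exact (h1.smul h2).stronglyMeasurable

theorem Ker.ae_integrable (hk : Ker k) (f : L1 d) :
    ∀ᵐ x, Integrable (fun y => k (x - y) • f y) := by
  have h1 : ∀ᵐ x, cE (fun z => ‖k z‖ₑ) (fun y => ‖f y‖ₑ) x < ⊤ := by
    apply ae_lt_top (measurable_cE hk.measurable_enorm (measurable_enorm_Lp f))
    rw [hk.lintegral_cE f]
    exact ENNReal.mul_ne_top hk.fin enorm_ne_top
  filter_upwards [h1] with x hx
  refine ⟨?_, ?_⟩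
  · have h2 : Measurable fun y => k (x - y) := hk.meas.comp (measurable_const.sub measurable_id)
    exact (h2.smul (Lp.stronglyMeasurable f).measurable).aestronglyMeasurable
  · unfold HasFiniteIntegral
    simp_rw [enorm_smul]
    exact hx

theorem Ker.memLp_cv (hk : Ker k) (f : L1 d) : MemLp (cv k f) 1 volume := by
  refine ⟨(hk.stronglyMeasurable_cv f).aestronglyMeasurable, ?_⟩
  rw [eLpNorm_one_eq_lintegral_enorm]
  refine (lintegral_mono fun x => enorm_cv_le k f x).trans_lt ?_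
  rw [hk.lintegral_cE f]
  exact ENNReal.mul_lt_top hk.fin.lt_top enorm_lt_top

/-- the convolution operator on `L^1` -/
noncomputable def Ker.op (hk : Ker k) : L1 d →L[ℂ] L1 d :=
  LinearMap.mkContinuous
    { toFun := fun f => (hk.memLp_cv f).toLp _
      map_add' := by
        intro f g
        rw [← MemLp.toLp_add]
        apply MemLp.toLp_congr
        filter_upwards [hk.ae_integrable f, hk.ae_integrable g] with x h1 h2
        rw [Pi.add_apply, cv_congr k (Lp.coeFn_add f g)]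
        unfold cv
        rw [← integral_add h1 h2]
        congr 1
        funext y
        rw [Pi.add_apply, smul_add]
      map_smul' := by
        intro c f
        rw [RingHom.id_apply, ← MemLp.toLp_const_smul]
        apply MemLp.toLp_congr
        filter_upwards with x
        rw [Pi.smul_apply, cv_congr k (Lp.coeFn_smul c f)]
        unfold cv
        rw [← integral_smul]
        congr 1
        funext y
        rw [Pi.smul_apply, smul_comm] } (∫⁻ z, ‖k z‖ₑ).toReal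
    (by
      intro f
      show ‖(hk.memLp_cv f).toLp _‖ ≤ (∫⁻ z, ‖k z‖ₑ).toReal * ‖f‖
      rw [Lp.norm_toLp, ← toReal_enorm f, ← ENNReal.toReal_mul]
      apply ENNReal.toReal_mono (ENNReal.mul_ne_top hk.fin enorm_ne_top)
      rw [eLpNorm_one_eq_lintegral_enorm, ← hk.lintegral_cE f]
      exact lintegral_mono fun x => enorm_cv_le k f x)

theorem Ker.coeFn_op (hk : Ker k) (f : L1 d) :
    (hk.op f : (Fin d → ℝ) → ℂ) =ᵐ[volume] cv k f := (hk.memLp_cv f).coeFn_toLp

theorem Ker.norm_op_le (hk : Ker k) (f : L1 d) : ‖hk.op f‖ ≤ (∫⁻ z, ‖k z‖ₑ).toReal * ‖f‖ :=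
  ContinuousLinearMap.le_of_opNorm_le _
    (LinearMap.mkContinuous_norm_le _ ENNReal.toReal_nonneg _) _

theorem Ker.op_add {k₁ k₂ : (Fin d → ℝ) → ℝ} (h₁ : Ker k₁) (h₂ : Ker k₂)
    (h : Ker k) (he : ∀ z, k z = k₁ z + k₂ z) (f : L1 d) : h.op f = h₁.op f + h₂.op f := by
  apply Lp.ext
  filter_upwards [h.coeFn_op f, h₁.coeFn_op f, h₂.coeFn_op f, Lp.coeFn_add (h₁.op f) (h₂.op f),
    h₁.ae_integrable f, h₂.ae_integrable f] with x e e1 e2 e3 i1 i2
  rw [e, e3, Pi.add_apply, e1, e2]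
  unfold cv
  rw [← integral_add i1 i2]
  congr 1
  funext y
  rw [he, add_smul]

end CvOp

section Trunc

/-- truncated kernel -/
noncomputable def tr (k : (Fin d → ℝ) → ℝ) (N : ℕ) (z : Fin d → ℝ) : ℝ :=
  if ‖k z‖ ≤ N ∧ cidx z ∈ Fintype.piFinset (fun _ : Fin d => Finset.Icc (-(N : ℤ)) N) then k z
  else 0

theorem measurable_tr {k : (Fin d → ℝ) → ℝ} (hk : Measurable k) (N : ℕ) :
    Measurable (tr k N) := by
  unfold tr
  apply Measurable.ite _ hk measurable_const
  apply MeasurableSet.inter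
  · exact measurableSet_le hk.norm measurable_const
  · exact measurable_cidx (Set.to_countable
      {c | c ∈ Fintype.piFinset (fun _ : Fin d => Finset.Icc (-(N : ℤ)) N)}).measurableSet

theorem norm_tr_le (k : (Fin d → ℝ) → ℝ) (N : ℕ) (z : Fin d → ℝ) : ‖tr k N z‖ ≤ ‖k z‖ := by
  unfold tr
  split_ifs
  · exact le_rfl
  · rw [norm_zero]; exact norm_nonneg _

theorem norm_tr_le' (k : (Fin d → ℝ) → ℝ) (N : ℕ) (z : Fin d → ℝ) : ‖tr k N z‖ ≤ N := by
  unfold tr
  split_ifs with h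
  · exact h.1
  · rw [norm_zero]; positivity

theorem enorm_sub_tr_le (k : (Fin d → ℝ) → ℝ) (N : ℕ) (z : Fin d → ℝ) :
    ‖k z - tr k N z‖ₑ ≤ ‖k z‖ₑ := by
  unfold tr
  split_ifs
  · simp
  · simp

theorem Ker.tr {k : (Fin d → ℝ) → ℝ} (hk : Ker k) (N : ℕ) : Ker (tr k N) := by
  refine ⟨measurable_tr hk.meas N, ?_⟩
  apply ne_top_of_le_ne_top hk.fin
  apply lintegral_mono
  intro z
  show ‖Pool.Agent.MP_21eaa0_an.tr k N z‖ₑ ≤ ‖k z‖ₑ
  rw [← ofReal_norm, ← ofReal_norm]
  exact ENNReal.ofReal_le_ofReal (norm_tr_le k N z)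

theorem Ker.sub_tr {k : (Fin d → ℝ) → ℝ} (hk : Ker k) (N : ℕ) :
    Ker (fun z => k z - Pool.Agent.MP_21eaa0_an.tr k N z) := by
  refine ⟨hk.meas.sub (measurable_tr hk.meas N), ?_⟩
  exact ne_top_of_le_ne_top hk.fin (lintegral_mono fun z => enorm_sub_tr_le k N z)

theorem Ker.tendsto_sub_tr {k : (Fin d → ℝ) → ℝ} (hk : Ker k) :
    Tendsto (fun N : ℕ => ∫⁻ z, ‖k z - Pool.Agent.MP_21eaa0_an.tr k N z‖ₑ) atTop (𝓝 0) := by
  have h := tendsto_lintegral_of_dominated_convergence (μ := (volume : Measure (Fin d → ℝ)))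
    (F := fun (N : ℕ) z => ‖k z - Pool.Agent.MP_21eaa0_an.tr k N z‖ₑ) (f := fun _ => 0)
    (fun z => ‖k z‖ₑ) (fun N => (hk.sub_tr N).measurable_enorm)
    (fun N => Eventually.of_forall fun z => enorm_sub_tr_le k N z) hk.fin
    (Eventually.of_forall fun z => by
      apply tendsto_const_nhds.congr'
      obtain ⟨N₁, hN₁⟩ := exists_nat_ge ‖k z‖
      obtain ⟨N₂, hN₂⟩ : ∃ N₂ : ℕ, ∀ l, |cidx z l| ≤ N₂ := by
        refine ⟨(∑ l, |cidx z l|).toNat, fun l => ?_⟩
        have h1 : |cidx z l| ≤ ∑ l, |cidx z l| :=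
          Finset.single_le_sum (f := fun l => |cidx z l|) (fun _ _ => abs_nonneg _)
            (Finset.mem_univ l)
        exact h1.trans (Int.self_le_toNat _)
      filter_upwards [eventually_ge_atTop (max N₁ N₂)] with N hN
      have : Pool.Agent.MP_21eaa0_an.tr k N z = k z := by
        unfold Pool.Agent.MP_21eaa0_an.tr
        rw [if_pos]
        refine ⟨hN₁.trans (by exact_mod_cast (le_max_left _ _).trans hN), ?_⟩
        rw [Fintype.mem_piFinset]
        intro l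
        rw [Finset.mem_Icc, ← abs_le]
        exact (hN₂ l).trans (by exact_mod_cast (le_max_right _ _).trans hN)
      rw [this]
      simp)
  simpa using h

end Trunc

end Pool.Agent.MP_21eaa0_an
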