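import Pool.Agent.MP_21eaa0_an.Absorb

/-!
Properties of the resolvents `R_n` and the main theorem.
-/

open Filter Topology MeasureTheory
open scoped ENNReal ComplexConjugate

namespace Pool.Agent.MP_21eaa0_an

variable {d : ℕ}

section Res

variable {m : ℝ → Measure (Fin d → ℝ)} (hm : IsSymmConvSemigroup m)
  {M : ℝ → L1 d →L[ℂ] L1 d} (hM : IsConvOpL m M)
  {V : (Fin d → ℝ) → ℝ} (hV : Measurable V) {c : ℝ} (hc0 : 0 ≤ c) (hc : ∀ x, -c ≤ V x)
  {n : ℕ} {T : ℝ → L1 d →L[ℂ] L1 d} (hT : IsGenByMinusL M V n T)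

/-- resolvent of `M - V_n` at `c + 1` -/
noncomputable abbrev Rn (hm : IsSymmConvSemigroup m) (hM : IsConvOpL m M) (hV : Measurable V)
    (hc0 : 0 ≤ c) (hc : ∀ x, -c ≤ V x) (hT : IsGenByMinusL M V n T) : L1 d →L[ℂ] L1 d :=
  (res_lapData hm hM hV hc0 hc hT (lt_add_one c)).lap

/-- `(1 - M)^{-1}` -/
noncomputable abbrev B1 (hm : IsSymmConvSemigroup m) (hM : IsConvOpL m M) : L1 d →L[ℂ] L1 d :=
  (conv_lapData hm hM (zero_lt_one' ℝ)).lap

theorem pos_B {lam : ℝ} (hlam : 0 < lam) : Pos (conv_lapData hm hM hlam).lap :=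
  pos_lap _ fun _ ht => conv_pos hm hM ht.le

theorem Rn_gen (f : L1 d) : IsGen T (Rn hm hM hV hc0 hc hT f)
    (((c + 1 : ℝ) : ℂ) • Rn hm hM hV hc0 hc hT f - f) :=
  (res_lapData hm hM hV hc0 hc hT (lt_add_one c)).isGen f

theorem lap_congr {lam lam' : ℝ} (h : 0 < lam) (h' : 0 < lam') (e : lam = lam') (f : L1 d) :
    (conv_lapData hm hM h).lap f = (conv_lapData hm hM h').lap f := by
  subst e
  rfl

theorem Rn_eq (f : L1 d) : Rn hm hM hV hc0 hc hT f = B1 hm hM
    (f - mulL (measurable_Wn hV n) (Wn_bound hc0 hc n) (Rn hm hM hV hc0 hc hT f)) := by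
  have h := res_eq hm hM hV hc0 hc hT (Rn_gen hm hM hV hc0 hc hT f) (lam := c + 1) (by linarith)
  rw [sub_sub_cancel] at h
  refine h.trans ?_
  exact lap_congr hm hM (by linarith) (zero_lt_one' ℝ) (by ring) _

theorem Rn_eq' (hn : 0 < 1 + ((n : ℝ) + c)) (f : L1 d) : Rn hm hM hV hc0 hc hT f =
    (conv_lapData hm hM hn).lap
    (f + mulL (measurable_Dn hV n) (Dn_bound hc0 hc n) (Rn hm hM hV hc0 hc hT f)) := by
  have h := res_eq' hm hM hV hc0 hc hT (Rn_gen hm hM hV hc0 hc hT f) (lam := c + 1)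
    (by linarith)
  rw [sub_sub_cancel] at h
  refine h.trans ?_
  exact lap_congr hm hM (by linarith) hn (by ring) _

theorem Rn_M_gen (f : L1 d) : IsGen M (Rn hm hM hV hc0 hc hT f)
    (Rn hm hM hV hc0 hc hT f
      + mulL (measurable_Wn hV n) (Wn_bound hc0 hc n) (Rn hm hM hV hc0 hc hT f) - f) := by
  have h := gen_eq hV hc0 hc hT (Rn_gen hm hM hV hc0 hc hT f) (c + 1)
  have e : ((c + 1 - c : ℝ) : ℂ) = 1 := by push_cast; ring
  rw [sub_sub_cancel, e, one_smul] at h
  exact h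

/-- `R_n` preserves the cone -/
theorem Rn_pos : Pos (Rn hm hM hV hc0 hc hT) := by
  intro f g hfg
  have hn0 : (0 : ℝ) ≤ n := Nat.cast_nonneg n
  have hn : 0 < 1 + ((n : ℝ) + c) := by linarith
  set B := (conv_lapData hm hM hn).lap with hB
  set D := mulL (measurable_Dn hV n) (Dn_bound hc0 hc n) with hD
  set R := Rn hm hM hV hc0 hc hT with hR
  let a : L1 d → ℕ → L1 d := fun f k => Nat.rec 0 (fun _ x => B (f + D x)) k
  have ha0 : ∀ f, a f 0 = 0 := fun _ => rfl
  have has : ∀ f k, a f (k + 1) = B (f + D (a f k)) := fun _ _ => rfl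
  have hcone : ∀ k, Cone (a f k) (a g k) := by
    intro k
    induction k with
    | zero => rw [ha0, ha0]; exact cone_zero
    | succ k ih =>
      rw [has, has]
      apply pos_B hm hM hn
      exact hfg.add (cone_mulL (measurable_Dn hV n) (Dn_bound hc0 hc n) (Dn_nonneg n) ih)
  have hconv : ∀ f, Tendsto (a f) atTop (𝓝 (R f)) := by
    intro f
    have hq0 : 0 ≤ 1 / (1 + ((n : ℝ) + c)) * (n + c) := by positivity
    have hq1 : 1 / (1 + ((n : ℝ) + c)) * (n + c) < 1 := by
      rw [one_div_mul_eq_div, div_lt_one hn]; linarith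
    have hstep : ∀ k, ‖a f k - R f‖ ≤ (1 / (1 + ((n : ℝ) + c)) * (n + c)) ^ k * ‖R f‖ := by
      intro k
      induction k with
      | zero => rw [ha0, zero_sub, norm_neg, pow_zero, one_mul]
      | succ k ih =>
        have e1 : a f (k + 1) - R f = B (D (a f k - R f)) := by
          have h1 := Rn_eq' hm hM hV hc0 hc hT hn f
          rw [has]
          conv_lhs => rw [hR, h1, ← map_sub]
          congr 1
          rw [hD, mulL_sub]
          abel
        rw [e1]
        have h2 := (conv_lapData hm hM hn).norm_lap_apply_le (D (a f k - R f))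
        rw [sub_zero] at h2
        calc ‖B (D (a f k - R f))‖ ≤ 1 / (1 + ((n : ℝ) + c)) * ‖D (a f k - R f)‖ := h2
          _ ≤ 1 / (1 + ((n : ℝ) + c)) * ((n + c) * ‖a f k - R f‖) := by
              gcongr
              exact norm_mulL_le _ _ _
          _ ≤ 1 / (1 + ((n : ℝ) + c)) * ((n + c) *
              ((1 / (1 + ((n : ℝ) + c)) * (n + c)) ^ k * ‖R f‖)) := by gcongr
          _ = _ := by rw [pow_succ]; ring
    rw [tendsto_iff_norm_sub_tendsto_zero]
    have h3 : Tendsto (fun k => (1 / (1 + ((n : ℝ) + c)) * (n + c)) ^ k * ‖R f‖) atTop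
        (𝓝 (0 * ‖R f‖)) := (tendsto_pow_atTop_nhds_zero_of_lt_one hq0 hq1).mul_const _
    rw [zero_mul] at h3
    exact squeeze_zero (fun _ => norm_nonneg _) hstep h3
  have hlim : Tendsto (fun k => (a f k, a g k)) atTop (𝓝 (R f, R g)) :=
    (hconv f).prodMk_nhds (hconv g)
  exact isClosed_cone.mem_of_tendsto hlim (Eventually.of_forall hcone)

/-- domination of `R_n` -/
theorem Rn_dom (f : L1 d) : Cone (Rn hm hM hV hc0 hc hT f) (B1 hm hM (absL f)) := by
  set R := Rn hm hM hV hc0 hc hT with hR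
  have h1 : Cone (R f) (R (absL f)) := Rn_pos hm hM hV hc0 hc hT f (absL f) (cone_absL f)
  have h0 : Cone (0 : L1 d) (R (absL f)) := by
    filter_upwards [h1, Lp.coeFn_zero ℂ 1 (volume : Measure (Fin d → ℝ))] with x hx h2
    rw [h2]
    simpa using (norm_nonneg _).trans hx
  have hW0 : mulL (measurable_Wn hV n) (Wn_bound hc0 hc n) (0 : L1 d) = 0 := by
    have := mulL_sub (measurable_Wn hV n) (Wn_bound hc0 hc n) (0 : L1 d) 0
    rw [sub_zero, sub_self] at this
    exact this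
  have h2 : Cone (0 : L1 d) (mulL (measurable_Wn hV n) (Wn_bound hc0 hc n) (R (absL f))) := by
    have := cone_mulL (measurable_Wn hV n) (Wn_bound hc0 hc n) (Wn_nonneg hc0 hc n) h0
    rwa [hW0] at this
  have h3 := pos_B hm hM (zero_lt_one' ℝ) _ _ h2
  rw [map_zero] at h3
  have h4 := Rn_eq hm hM hV hc0 hc hT (absL f)
  rw [map_sub] at h4
  have h5 : R (absL f) = B1 hm hM (absL f)
    - B1 hm hM (mulL (measurable_Wn hV n) (Wn_bound hc0 hc n) (R (absL f))) := h4
  filter_upwards [h1, h3, Lp.coeFn_sub (B1 hm hM (absL f))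
    (B1 hm hM (mulL (measurable_Wn hV n) (Wn_bound hc0 hc n) (R (absL f)))),
    Lp.coeFn_zero ℂ 1 (volume : Measure (Fin d → ℝ))] with x e1 e2 e3 e4
  refine e1.trans ?_
  rw [h5, e3, Pi.sub_apply, Complex.sub_re]
  rw [e4] at e2
  have : 0 ≤ (B1 hm hM (mulL (measurable_Wn hV n) (Wn_bound hc0 hc n) (R (absL f))) x).re := by
    simpa using e2
  linarith

/-- `‖W_n R_n f‖ ≤ ‖f‖` -/
theorem Rn_absorb (f : L1 d) :
    ‖mulL (measurable_Wn hV n) (Wn_bound hc0 hc n) (Rn hm hM hV hc0 hc hT f)‖ ≤ ‖f‖ := by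
  set R := Rn hm hM hV hc0 hc hT with hR
  set W := mulL (measurable_Wn hV n) (Wn_bound hc0 hc n) with hW
  have h1 : Cone (R f) (R (absL f)) := Rn_pos hm hM hV hc0 hc hT f (absL f) (cone_absL f)
  have h0 : ∀ᵐ x, 0 ≤ (R (absL f) x).re := by
    filter_upwards [h1] with x hx
    exact (norm_nonneg _).trans hx
  have h2 := conv_gen_integral hm hM (Rn_M_gen hm hM hV hc0 hc hT (absL f)) h0
  have h3 : Cone (W (R f)) (W (R (absL f))) :=
    cone_mulL (measurable_Wn hV n) (Wn_bound hc0 hc n) (Wn_nonneg hc0 hc n) h1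
  refine h3.norm_le.trans ?_
  have ir : ∀ a : L1 d, Integrable fun x => (a x).re := fun a => (integrable_Lp a).re
  have e : ∫ x, ((R (absL f) + W (R (absL f)) - absL f : L1 d) x).re
      = (∫ x, (R (absL f) x).re) + (∫ x, (W (R (absL f)) x).re) - ∫ x, (absL f x).re := by
    have i2 : Integrable fun x => (R (absL f) x).re + (W (R (absL f)) x).re :=
      (ir _).add (ir _)
    rw [← integral_add (ir _) (ir _), ← integral_sub i2 (ir _)]
    apply integral_congr_ae
    filter_upwards [Lp.coeFn_sub (R (absL f) + W (R (absL f))) (absL f),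
      Lp.coeFn_add (R (absL f)) (W (R (absL f)))] with x e1 e2
    rw [e1, Pi.sub_apply, e2, Pi.add_apply, Complex.sub_re, Complex.add_re]
  have h4 : ∫ x, ((R (absL f) + W (R (absL f)) - absL f : L1 d) x).re ≤ 0 := h2
  rw [e, integral_absL] at h4
  have h5 : 0 ≤ ∫ x, (R (absL f) x).re := integral_nonneg_of_ae h0
  linarith


omit hm hM hV hc0 hc hT in
theorem dom_of_cone {k : (Fin d → ℝ) → ℝ} (hk : Ker k) {A : L1 d →L[ℂ] L1 d}
    (h : ∀ f, Cone (A f) (hk.op (absL f))) : Dom (fun z => ‖k z‖ₑ) A := by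
  intro f
  filter_upwards [h f, hk.coeFn_op (absL f)] with x h1 h2
  have h3 : ‖A f x‖ ≤ ‖hk.op (absL f) x‖ := h1.trans ((le_abs_self _).trans (Complex.abs_re_le_norm _))
  have h4 : ‖A f x‖ₑ ≤ ‖hk.op (absL f) x‖ₑ := by
    rw [← ofReal_norm, ← ofReal_norm]
    exact ENNReal.ofReal_le_ofReal h3
  refine h4.trans ?_
  rw [h2]
  refine (enorm_cv_le _ _ _).trans (le_of_eq ?_)
  unfold cE
  apply lintegral_congr_ae
  filter_upwards [coeFn_absL f] with y hy
  rw [hy]
  congr 1
  rw [← ofReal_norm, Complex.norm_real, norm_norm, ofReal_norm]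

omit hm hM hV hc0 hc hT in
theorem Dom.bdd {K : (Fin d → ℝ) → ℝ≥0∞} (hK : Measurable K) (hKi : ∫⁻ z, K z ≠ ⊤)
    {A : L1 d →L[ℂ] L1 d} (hA : Dom K A) {u : L1 d} (hu : Bdd u) : Bdd (A u) := by
  obtain ⟨C, hC⟩ := hu
  refine ⟨((∫⁻ z, K z) * ENNReal.ofReal C).toReal, ?_⟩
  filter_upwards [hA u] with x hx
  have h1 : cE K (fun y => ‖u y‖ₑ) x ≤ (∫⁻ z, K z) * ENNReal.ofReal C := by
    unfold cE
    calc ∫⁻ y, K (x - y) * ‖u y‖ₑ ≤ ∫⁻ y, K (x - y) * ENNReal.ofReal C := by
          apply lintegral_mono_ae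
          filter_upwards [hC] with y hy
          gcongr
          rw [← ofReal_norm]
          exact ENNReal.ofReal_le_ofReal hy
      _ = (∫⁻ z, K z) * ENNReal.ofReal C := by
          have hm : Measurable fun y => K (x - y) := hK.comp (measurable_const.sub measurable_id)
          rw [lintegral_mul_const _ hm, lintegral_sub_left_eq_self K x]
  have h2 := ENNReal.toReal_mono (ENNReal.mul_ne_top hKi ENNReal.ofReal_ne_top) (hx.trans h1)
  rwa [toReal_enorm] at h2

omit hm hM hV hc0 hc hT in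
theorem herm_neg {u v a b : L1 d}
    (h : ∫ x, conj (a x) * v x = ∫ x, conj (u x) * b x) :
    ∫ x, conj ((-a : L1 d) x) * v x = ∫ x, conj (u x) * (-b : L1 d) x := by
  have h1 := herm_smul (u := u) (v := v) (a := a) (b := b) (-1) h
  have e : ∀ a : L1 d, ((-1 : ℝ) : ℂ) • a = -a := by
    intro a
    push_cast
    rw [neg_one_smul]
  rwa [e, e] at h1

/-- `R_n` is Hermitian -/
theorem Rn_herm (hb : ∀ u, Bdd u → Bdd (Rn hm hM hV hc0 hc hT u)) :
    Herm (Rn hm hM hV hc0 hc hT) := by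
  intro u v hu hv
  set R := Rn hm hM hV hc0 hc hT with hR
  set W := mulL (measurable_Wn hV n) (Wn_bound hc0 hc n) with hW
  have hbu : Bdd (R u) := hb u hu
  have hbv : Bdd (R v) := hb v hv
  have hgu : IsGen M (R u) (R u + W (R u) - u) := Rn_M_gen hm hM hV hc0 hc hT u
  have hgv : IsGen M (R v) (R v + W (R v) - v) := Rn_M_gen hm hM hV hc0 hc hT v
  -- symmetry of `M` on bounded elements of its domain
  have key : ∫ x, conj ((R u + W (R u) - u : L1 d) x) * R v x
      = ∫ x, conj (R u x) * (R v + W (R v) - v : L1 d) x := by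
    have hlim := hgu.prodMk_nhds hgv
    have hmem := (isClosed_herm (u := R u) (v := R v) hbu hbv).mem_of_tendsto hlim (by
      filter_upwards [self_mem_nhdsWithin] with t ht
      have ht0 := (Set.mem_Ioi.1 ht).le
      have h1 := conv_herm hm hM ht0 (R u) (R v) hbu hbv
      have h2 := herm_neg (u := R u) (v := R v) (a := R u) (b := R v) rfl
      have h3 := herm_add hbu hbv h1 h2
      have h4 := herm_smul (u := R u) (v := R v) t⁻¹ h3
      rw [← sub_eq_add_neg, ← sub_eq_add_neg, Complex.ofReal_inv] at h4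
      exact h4)
    exact hmem
  have i1 : ∀ a : L1 d, Integrable fun x => conj (a x) * R v x := fun a => conj_mul_integrable hbv
  have i2 : ∀ b : L1 d, Integrable fun x => conj (R u x) * b x := fun b => conj_mul_integrable' hbu
  have e1 : ∫ x, conj ((R u + W (R u) - u : L1 d) x) * R v x
      = (∫ x, conj (R u x) * R v x) + (∫ x, conj (W (R u) x) * R v x)
        - ∫ x, conj (u x) * R v x := by
    have i3 : Integrable fun x => conj (R u x) * R v x + conj (W (R u) x) * R v x :=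
      (i1 _).add (i1 _)
    rw [← integral_add (i1 _) (i1 _), ← integral_sub i3 (i1 _)]
    apply integral_congr_ae
    filter_upwards [Lp.coeFn_sub (R u + W (R u)) u, Lp.coeFn_add (R u) (W (R u))] with x e1 e2
    rw [e1, Pi.sub_apply, e2, Pi.add_apply, map_sub, map_add]
    ring
  have e2 : ∫ x, conj (R u x) * (R v + W (R v) - v : L1 d) x
      = (∫ x, conj (R u x) * R v x) + (∫ x, conj (R u x) * W (R v) x)
        - ∫ x, conj (R u x) * v x := by
    have i3 : Integrable fun x => conj (R u x) * R v x + conj (R u x) * W (R v) x :=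
      (i2 _).add (i2 _)
    rw [← integral_add (i2 _) (i2 _), ← integral_sub i3 (i2 _)]
    apply integral_congr_ae
    filter_upwards [Lp.coeFn_sub (R v + W (R v)) v, Lp.coeFn_add (R v) (W (R v))] with x e1 e2
    rw [e1, Pi.sub_apply, e2, Pi.add_apply]
    ring
  have e3 : ∫ x, conj (W (R u) x) * R v x = ∫ x, conj (R u x) * W (R v) x := by
    apply integral_congr_ae
    filter_upwards [coeFn_mulL (measurable_Wn hV n) (Wn_bound hc0 hc n) (R u),
      coeFn_mulL (measurable_Wn hV n) (Wn_bound hc0 hc n) (R v)] with x h1 h2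
    rw [h1, h2, map_mul, Complex.conj_ofReal]
    ring
  rw [e1, e2, e3] at key
  linear_combination key

end Res

/-- **Main theorem.** -/
theorem main {m : ℝ → Measure (Fin d → ℝ)} (hm : IsSymmConvSemigroup m)
    (hE : HasResolventDensities m) {M : ℝ → L1 d →L[ℂ] L1 d} (hM : IsConvOpL m M)
    {V : (Fin d → ℝ) → ℝ} (hV : Measurable V) {c : ℝ} (hc : ∀ x, -c ≤ V x)
    {Tn : ℕ → ℝ → L1 d →L[ℂ] L1 d} (hTn : ∀ n, IsGenByMinusL M V n (Tn n))
    {T : ℝ → L1 d →L[ℂ] L1 d}
    (hT : ∀ t, 0 ≤ t → ∀ f, Tendsto (fun n => Tn n t f) atTop (𝓝 (T t f)))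
    (hreg : ∀ f, Tendsto (fun t => T t f) (𝓝[>] 0) (𝓝 f)) :
    ∀ z ∈ spec (IsGen T), z.im = 0 := by
  set c' : ℝ := max c 0 with hc'
  have hc0 : 0 ≤ c' := le_max_right _ _
  have hcc : ∀ x, -c' ≤ V x := fun x => (neg_le_neg (le_max_left c 0)).trans (hc x)
  clear_value c'
  obtain ⟨k, hk, hk0, hk1⟩ := exists_ker hE (zero_lt_one' ℝ)
  have hB : ∀ f, B1 hm hM f = hk.op f := fun f => lap_eq_op hm hM (zero_lt_one' ℝ) hk hk1 f
  have hgrow : ∀ n t, 0 ≤ t → ‖Tn n t‖ ≤ Real.exp (c' * t) := fun n t ht =>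
    res_growth hm hM hV hc0 hcc (hTn n) ht
  obtain ⟨hTsg, hTb⟩ := limit_semigroup (fun n => (hTn n).1) hgrow hT hreg
  have hTlap : LapData T 1 c' (c' + 1) :=
    ⟨hTsg, fun t ht => by rw [one_mul]; exact hTb t ht, lt_add_one c'⟩
  set R := hTlap.lap with hR
  have hconv : ∀ f, Tendsto (fun n => Rn hm hM hV hc0 hcc (hTn n) f) atTop (𝓝 (R f)) :=
    fun f => lap_tendsto (fun n => res_lapData hm hM hV hc0 hcc (hTn n) (lt_add_one c')) hTlap hT f
  -- domination
  have hdomn : ∀ n, Dom (fun z => ‖k z‖ₑ) (Rn hm hM hV hc0 hcc (hTn n)) := by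
    intro n
    apply dom_of_cone hk
    intro f
    rw [← hB]
    exact Rn_dom hm hM hV hc0 hcc (hTn n) f
  have hdom : Dom (fun z => ‖k z‖ₑ) R := by
    apply dom_of_cone hk
    intro f
    have hlim : Tendsto (fun n => (Rn hm hM hV hc0 hcc (hTn n) f, hk.op (absL f))) atTop
        (𝓝 (R f, hk.op (absL f))) := (hconv f).prodMk_nhds tendsto_const_nhds
    apply isClosed_cone.mem_of_tendsto hlim
    refine Eventually.of_forall fun n => ?_
    show Cone _ _
    rw [← hB]
    exact Rn_dom hm hM hV hc0 hcc (hTn n) f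
  have hKm : Measurable fun z => ‖k z‖ₑ := hk.measurable_enorm
  -- Hermitian
  have hherm : Herm R := by
    intro u v hu hv
    have hlim : Tendsto (fun n => (Rn hm hM hV hc0 hcc (hTn n) u, Rn hm hM hV hc0 hcc (hTn n) v))
        atTop (𝓝 (R u, R v)) := (hconv u).prodMk_nhds (hconv v)
    exact (isClosed_herm hu hv).mem_of_tendsto hlim (Eventually.of_forall fun n =>
      Rn_herm hm hM hV hc0 hcc (hTn n) (fun w hw => (hdomn n).bdd hKm hk.fin hw) u v hu hv)
  -- approximation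
  have happ : ∀ g : L1 d, ∀ ε > 0, ∃ h : L1 d, ‖h‖ ≤ 2 * ‖g‖ ∧ ‖R g - hk.op h‖ ≤ ε := by
    intro g ε hε
    have h1 := tendsto_iff_norm_sub_tendsto_zero.1 (hconv g)
    obtain ⟨n, hn⟩ := (h1.eventually_le_const hε).exists
    refine ⟨g - mulL (measurable_Wn hV n) (Wn_bound hc0 hcc n)
      (Rn hm hM hV hc0 hcc (hTn n) g), ?_, ?_⟩
    · refine (norm_sub_le _ _).trans ?_
      linarith [Rn_absorb hm hM hV hc0 hcc (hTn n) g]
    · rw [← hB, ← Rn_eq, norm_sub_rev]
      exact hn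
  have hspec := spectrum_real hk hKm hk.fin hdom hherm 2 (by norm_num) happ
  intro z hz
  by_contra hne
  apply hz
  apply mem_resolventSet_of (R := R) (lam := ((c' + 1 : ℝ) : ℂ)) (fun g => hTlap.isGen g)
    (fun f h hfh => hTlap.left_inv hfh)
  · intro h
    apply hne
    rw [← h, Complex.ofReal_im]
  · intro hmem
    have h1 := hspec _ hmem
    rw [Complex.inv_im, Complex.sub_im, Complex.ofReal_im, zero_sub, neg_neg, div_eq_zero_iff] at h1
    rcases h1 with h1 | h1
    · exact hne h1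
    · rw [Complex.normSq_eq_zero, sub_eq_zero] at h1
      apply hne
      rw [← h1, Complex.ofReal_im]

end Pool.Agent.MP_21eaa0_an
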