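import Pool.Agent.MP_21eaa0_an.Unpert

/-!
The resolvent of the unperturbed semigroup is the convolution with the resolvent density.
-/

open Filter Topology MeasureTheory
open scoped ENNReal ComplexConjugate Convolution

namespace Pool.Agent.MP_21eaa0_an

variable {d : ℕ}

/-- measurable version of the density -/
theorem exists_ker {m : ℝ → Measure (Fin d → ℝ)} (hE : HasResolventDensities m) {lam : ℝ}
    (hlam : 0 < lam) : ∃ k : (Fin d → ℝ) → ℝ, Ker k ∧ (∀ x, 0 ≤ k x) ∧
      ∀ φ : (Fin d → ℝ) → ℝ, Continuous φ → HasCompactSupport φ →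
      ∫ t in Set.Ioi 0, Real.exp (-lam * t) * ∫ x, φ x ∂(m t) = ∫ x, φ x * k x := by
  obtain ⟨E, hE0, hEi, hE1⟩ := hE lam hlam
  have hsm := hEi.aestronglyMeasurable
  set k : (Fin d → ℝ) → ℝ := fun x => max 0 (hsm.mk E x) with hk
  have hkE : k =ᵐ[volume] E := by
    filter_upwards [hsm.ae_eq_mk] with x hx
    rw [hk]
    show max 0 (hsm.mk E x) = E x
    rw [← hx, max_eq_right (hE0 x)]
  refine ⟨k, ⟨?_, ?_⟩, fun x => le_max_left _ _, ?_⟩
  · exact measurable_const.max hsm.stronglyMeasurable_mk.measurable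
  · have : ∫⁻ z, ‖k z‖ₑ = ∫⁻ z, ‖E z‖ₑ := lintegral_congr_ae (by
      filter_upwards [hkE] with x hx
      rw [hx])
    rw [this]
    exact hEi.2.ne
  · intro φ hφ hφs
    rw [hE1 φ hφ hφs]
    apply integral_congr_ae
    filter_upwards [hkE] with x hx
    rw [hx]

/-- the test function `ψ(y) = ∫ g(x) f(x - y) dx` -/
noncomputable def psi (g : (Fin d → ℝ) → ℝ) (f : (Fin d → ℝ) → ℂ) (y : Fin d → ℝ) : ℂ :=
  ∫ x, (g x : ℂ) * f (x - y)

theorem psi_eq_conv (g : (Fin d → ℝ) → ℝ) (f : (Fin d → ℝ) → ℂ) :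
    psi g f = g ⋆[ContinuousLinearMap.lsmul ℝ ℝ, volume] fun z => f (-z) := by
  funext y
  unfold psi
  rw [convolution_def]
  congr 1
  funext x
  show (g x : ℂ) * f (x - y) = g x • f (-(y - x))
  rw [Complex.real_smul, neg_sub]

theorem continuous_psi {g : (Fin d → ℝ) → ℝ} {f : (Fin d → ℝ) → ℂ} (hg : Continuous g)
    (hgs : HasCompactSupport g) (hf : Continuous f) :
    Continuous (psi g f) := by
  rw [psi_eq_conv]
  exact hgs.continuous_convolution_left _ hg (hf.comp continuous_neg).locallyIntegrable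

theorem hasCompactSupport_psi {g : (Fin d → ℝ) → ℝ} {f : (Fin d → ℝ) → ℂ}
    (hgs : HasCompactSupport g) (hfs : HasCompactSupport f) :
    HasCompactSupport (psi g f) := by
  rw [psi_eq_conv]
  exact hgs.convolution _ (hfs.comp_homeomorph (Homeomorph.neg (Fin d → ℝ)))

section

variable {m : ℝ → Measure (Fin d → ℝ)} (hm : IsSymmConvSemigroup m)
  {M : ℝ → L1 d →L[ℂ] L1 d} (hM : IsConvOpL m M)

include hm hM

theorem pair_conv {g : (Fin d → ℝ) → ℝ} {f : (Fin d → ℝ) → ℂ} (hg : Continuous g)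
    {C : ℝ} (hC : ∀ x, ‖g x‖ ≤ C) (hf : Continuous f)
    (hfL : MemLp f 1 (volume : Measure (Fin d → ℝ))) {t : ℝ} (ht : 0 ≤ t) :
    ∫ x, (g x : ℂ) * M t (hfL.toLp f) x = ∫ y, psi g f y ∂(m t) := by
  have ft := hm.finite ht
  have hfi : ∫⁻ x, ‖f x‖ₑ ≠ ⊤ := by
    have := hfL.2
    rw [eLpNorm_one_eq_lintegral_enorm] at this
    exact this.ne
  have e1 : ∫ x, (g x : ℂ) * M t (hfL.toLp f) x = ∫ x, ∫ y, (g x : ℂ) * f (x - y) ∂(m t) := by
    apply integral_congr_ae
    filter_upwards [hM t ht (hfL.toLp f), cm_congr (ν := m t) hfL.coeFn_toLp] with x h1 h2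
    rw [h1]
    have h3 : ∫ y, (hfL.toLp f) (x - y) ∂(m t) = ∫ y, f (x - y) ∂(m t) := h2
    rw [h3, integral_const_mul]
  have hI : Integrable (fun p : (Fin d → ℝ) × (Fin d → ℝ) => (g p.1 : ℂ) * f (p.1 - p.2))
      (volume.prod (m t)) := by
    have h1 := integrable_sub_prod (ν := m t) hf.measurable hfi
    refine h1.bdd_mul (c := C) ?_ ?_
    · exact (Complex.continuous_ofReal.comp (hg.comp continuous_fst)).aestronglyMeasurable
    · filter_upwards with p
      rw [Complex.norm_real]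
      exact hC _
  rw [e1]
  exact integral_integral_swap (f := fun x y => (g x : ℂ) * f (x - y)) hI

omit hm hM in
theorem pair_cv {k : (Fin d → ℝ) → ℝ} (hk : Ker k) {g : (Fin d → ℝ) → ℝ} {f : (Fin d → ℝ) → ℂ}
    (hg : Continuous g) (hgs : HasCompactSupport g) (hf : Continuous f) {C : ℝ}
    (hC : ∀ x, ‖f x‖ ≤ C)
    (hfL : MemLp f 1 (volume : Measure (Fin d → ℝ))) :
    ∫ x, (g x : ℂ) * (hk.op (hfL.toLp f)) x = ∫ y, (k y : ℂ) * psi g f y := by
  have hkI : Integrable k := ⟨hk.meas.aestronglyMeasurable, hk.fin.lt_top⟩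
  have hgI : Integrable g := hg.integrable_of_hasCompactSupport hgs
  have e1 : ∫ x, (g x : ℂ) * (hk.op (hfL.toLp f)) x
      = ∫ x, ∫ y, (g x : ℂ) * ((k y : ℂ) * f (x - y)) := by
    apply integral_congr_ae
    filter_upwards [hk.coeFn_op (hfL.toLp f)] with x h1
    rw [h1, cv_congr k hfL.coeFn_toLp, integral_const_mul]
    congr 1
    unfold cv
    rw [← integral_sub_left_eq_self (fun y => (k y : ℂ) * f (x - y)) volume x]
    congr 1
    funext y
    rw [Complex.real_smul, sub_sub_cancel]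
  have hI : Integrable (fun p : (Fin d → ℝ) × (Fin d → ℝ) =>
      (g p.1 : ℂ) * ((k p.2 : ℂ) * f (p.1 - p.2))) (volume.prod volume) := by
    have h1 : Integrable (fun p : (Fin d → ℝ) × (Fin d → ℝ) => (g p.1 : ℂ) * (k p.2 : ℂ))
        (volume.prod volume) := hgI.ofReal.mul_prod hkI.ofReal
    have h2 : Integrable (fun p : (Fin d → ℝ) × (Fin d → ℝ) =>
        ((g p.1 : ℂ) * (k p.2 : ℂ)) * f (p.1 - p.2)) (volume.prod volume) := by
      refine h1.mul_bdd (c := C) ?_ (Eventually.of_forall fun p => hC _)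
      exact (hf.comp (continuous_fst.sub continuous_snd)).aestronglyMeasurable
    refine h2.congr (Eventually.of_forall fun p => ?_)
    show (g p.1 : ℂ) * (k p.2 : ℂ) * f (p.1 - p.2) = (g p.1 : ℂ) * ((k p.2 : ℂ) * f (p.1 - p.2))
    ring
  rw [e1, integral_integral_swap (f := fun x y => (g x : ℂ) * ((k y : ℂ) * f (x - y))) hI]
  congr 1
  funext y
  unfold psi
  rw [← integral_const_mul]
  congr 1
  funext x
  ring

theorem lap_eq_op_cc {lam : ℝ} (hlam : 0 < lam) {k : (Fin d → ℝ) → ℝ} (hk : Ker k)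
    (hk1 : ∀ φ : (Fin d → ℝ) → ℝ, Continuous φ → HasCompactSupport φ →
      ∫ t in Set.Ioi 0, Real.exp (-lam * t) * ∫ x, φ x ∂(m t) = ∫ x, φ x * k x)
    {f : (Fin d → ℝ) → ℂ} (hf : Continuous f) (hfs : HasCompactSupport f)
    (hfL : MemLp f 1 (volume : Measure (Fin d → ℝ))) :
    (conv_lapData hm hM hlam).lap (hfL.toLp f) = hk.op (hfL.toLp f) := by
  have hkI : Integrable k := ⟨hk.meas.aestronglyMeasurable, hk.fin.lt_top⟩
  obtain ⟨Cf, hCf⟩ := hf.bounded_above_of_compact_support hfs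
  set f' := hfL.toLp f with hf'
  apply Lp.ext
  apply ae_eq_of_integral_contDiff_smul_eq (integrable_Lp _).locallyIntegrable
    (integrable_Lp _).locallyIntegrable
  intro g hg hgs
  have hgc : Continuous g := hg.continuous
  obtain ⟨Cg, hCg⟩ := hgc.bounded_above_of_compact_support hgs
  simp_rw [Complex.real_smul]
  rw [pair_cv hk hgc hgs hf hCf hfL]
  have hgm : Measurable fun x => (g x : ℂ) := (Complex.continuous_ofReal.comp hgc).measurable
  have hgb : ∀ᵐ x, ‖(g x : ℂ)‖ ≤ Cg := Eventually.of_forall fun x => by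
    rw [Complex.norm_real]; exact hCg x
  have e1 : ∫ x, (g x : ℂ) * ((conv_lapData hm hM hlam).lap f') x
      = ∫ t in Set.Ioi 0, Real.exp (-lam * t) • ∫ y, psi g f y ∂(m t) := by
    rw [← pairL_apply hgm hgb, LapData.map_lap]
    apply setIntegral_congr_fun measurableSet_Ioi
    intro t ht
    show Real.exp (-lam * t) • pairL hgm hgb (M t f') = _
    rw [pairL_apply, pair_conv hm hM hgc hCg hf hfL (Set.mem_Ioi.1 ht).le]
  have hFI : IntegrableOn (fun t => Real.exp (-lam * t) • ∫ y, psi g f y ∂(m t)) (Set.Ioi 0) := by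
    have h1 := (conv_lapData hm hM hlam).integrableOn_map (pairL hgm hgb) f'
    refine h1.congr ?_
    rw [Filter.EventuallyEq, ae_restrict_iff' measurableSet_Ioi]
    refine Eventually.of_forall fun t ht => ?_
    show Real.exp (-lam * t) • pairL hgm hgb (M t f') = _
    rw [pairL_apply, pair_conv hm hM hgc hCg hf hfL (Set.mem_Ioi.1 ht).le]
  have hψc := continuous_psi hgc hgs hf
  have hψs := hasCompactSupport_psi hgs hfs
  obtain ⟨Cψ, hCψ⟩ := hψc.bounded_above_of_compact_support hψs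
  have hψI : ∀ t, 0 ≤ t → Integrable (psi g f) (m t) := by
    intro t ht
    have := hm.finite ht
    exact Integrable.of_bound hψc.aestronglyMeasurable Cψ (Eventually.of_forall hCψ)
  have hkψ : Integrable fun y => (k y : ℂ) * psi g f y :=
    hkI.ofReal.mul_bdd (c := Cψ) hψc.aestronglyMeasurable (Eventually.of_forall hCψ)
  have hre := hk1 (fun y => (psi g f y).re) (Complex.continuous_re.comp hψc)
    (hψs.comp_left Complex.zero_re)
  have him := hk1 (fun y => (psi g f y).im) (Complex.continuous_im.comp hψc)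
    (hψs.comp_left Complex.zero_im)
  rw [e1]
  apply Complex.ext
  · have h1 : (∫ t in Set.Ioi 0, Real.exp (-lam * t) • ∫ y, psi g f y ∂(m t)).re
        = ∫ t in Set.Ioi 0, (Real.exp (-lam * t) • ∫ y, psi g f y ∂(m t)).re :=
      (integral_re hFI).symm
    have h2 : (∫ y, (k y : ℂ) * psi g f y).re = ∫ y, ((k y : ℂ) * psi g f y).re :=
      (integral_re hkψ).symm
    rw [h1, h2]
    have h3 : ∫ t in Set.Ioi 0, (Real.exp (-lam * t) • ∫ y, psi g f y ∂(m t)).re
        = ∫ t in Set.Ioi 0, Real.exp (-lam * t) * ∫ y, (psi g f y).re ∂(m t) := by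
      apply setIntegral_congr_fun measurableSet_Ioi
      intro t ht
      show (Real.exp (-lam * t) • ∫ y, psi g f y ∂(m t)).re = _
      rw [Complex.real_smul, Complex.re_ofReal_mul]
      congr 1
      exact (integral_re (hψI t (Set.mem_Ioi.1 ht).le)).symm
    rw [h3, hre]
    congr 1
    funext y
    rw [Complex.re_ofReal_mul, mul_comm]
  · have h1 : (∫ t in Set.Ioi 0, Real.exp (-lam * t) • ∫ y, psi g f y ∂(m t)).im
        = ∫ t in Set.Ioi 0, (Real.exp (-lam * t) • ∫ y, psi g f y ∂(m t)).im :=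
      (integral_im hFI).symm
    have h2 : (∫ y, (k y : ℂ) * psi g f y).im = ∫ y, ((k y : ℂ) * psi g f y).im :=
      (integral_im hkψ).symm
    rw [h1, h2]
    have h3 : ∫ t in Set.Ioi 0, (Real.exp (-lam * t) • ∫ y, psi g f y ∂(m t)).im
        = ∫ t in Set.Ioi 0, Real.exp (-lam * t) * ∫ y, (psi g f y).im ∂(m t) := by
      apply setIntegral_congr_fun measurableSet_Ioi
      intro t ht
      show (Real.exp (-lam * t) • ∫ y, psi g f y ∂(m t)).im = _
      rw [Complex.real_smul, Complex.im_ofReal_mul]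
      congr 1
      exact (integral_im (hψI t (Set.mem_Ioi.1 ht).le)).symm
    rw [h3, him]
    congr 1
    funext y
    rw [Complex.im_ofReal_mul, mul_comm]

/-- `(λ - M)^{-1}` is the convolution with the resolvent density -/
theorem lap_eq_op {lam : ℝ} (hlam : 0 < lam) {k : (Fin d → ℝ) → ℝ} (hk : Ker k)
    (hk1 : ∀ φ : (Fin d → ℝ) → ℝ, Continuous φ → HasCompactSupport φ →
      ∫ t in Set.Ioi 0, Real.exp (-lam * t) * ∫ x, φ x ∂(m t) = ∫ x, φ x * k x) (f : L1 d) :
    (conv_lapData hm hM hlam).lap f = hk.op f := by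
  have hcl : IsClosed {f : L1 d | (conv_lapData hm hM hlam).lap f = hk.op f} :=
    isClosed_eq (ContinuousLinearMap.continuous _) (ContinuousLinearMap.continuous _)
  have hmem : f ∈ closure {f : L1 d | (conv_lapData hm hM hlam).lap f = hk.op f} := by
    rw [Metric.mem_closure_iff]
    intro ε hε
    obtain ⟨g, hgs, hg1, hgc, hgL⟩ := (Lp.memLp f).exists_hasCompactSupport_eLpNorm_sub_le
      ENNReal.one_ne_top (ε := ENNReal.ofReal (ε / 2)) (by
        rw [Ne, ENNReal.ofReal_eq_zero, not_le]; positivity)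
    refine ⟨hgL.toLp g, lap_eq_op_cc hm hM hlam hk hk1 hgc hgs hgL, ?_⟩
    rw [dist_eq_norm, Lp.norm_def]
    have h1 : eLpNorm (f - hgL.toLp g : L1 d) 1 volume = eLpNorm ((f : (Fin d → ℝ) → ℂ) - g) 1 volume := by
      apply eLpNorm_congr_ae
      filter_upwards [Lp.coeFn_sub f (hgL.toLp g), hgL.coeFn_toLp] with x h1 h2
      rw [h1, Pi.sub_apply, Pi.sub_apply, h2]
    rw [h1]
    calc (eLpNorm ((f : (Fin d → ℝ) → ℂ) - g) 1 volume).toReal
        ≤ (ENNReal.ofReal (ε / 2)).toReal := ENNReal.toReal_mono ENNReal.ofReal_ne_top hg1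
      _ = ε / 2 := ENNReal.toReal_ofReal (by positivity)
      _ < ε := by linarith
  rw [hcl.closure_eq] at hmem
  exact hmem

end

end Pool.Agent.MP_21eaa0_an
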