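import Pool.Agent.MP_21eaa0_an.Semigroup

/-!
Density of the domain of the generator and Laplace transforms of `C_0`-semigroups.
-/

open Filter Topology MeasureTheory Set

namespace Pool.Agent.MP_21eaa0_an

section Basic

variable {E : Type*} [NormedAddCommGroup E] [NormedSpace ℂ E]
  {T : ℝ → E →L[ℂ] E}

theorem coe_inv_smul (r : ℝ) (x : E) : ((r : ℂ)⁻¹) • x = (r⁻¹ : ℝ) • x := by
  rw [← Complex.ofReal_inv, Complex.coe_smul]

theorem tendsto_add_right (x : ℝ) : Tendsto (fun r : ℝ => x + r) (𝓝[>] 0) (𝓝[>] x) := by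
  rw [tendsto_nhdsWithin_iff]
  constructor
  · have : Continuous fun z : ℝ => x + z := by fun_prop
    have h3 := this.tendsto 0
    rw [add_zero] at h3
    exact h3.mono_left nhdsWithin_le_nhds
  · filter_upwards [self_mem_nhdsWithin] with z hz
    exact mem_Ioi.2 (by linarith [mem_Ioi.1 hz])

variable [CompleteSpace E]

theorem IsC0Semigroup.intervalIntegrable (h : IsC0Semigroup T) (f : E) {a b : ℝ} (ha : 0 ≤ a)
    (hb : 0 ≤ b) : IntervalIntegrable (fun t => T t f) volume a b := by
  apply ContinuousOn.intervalIntegrable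
  apply (h.continuousOn f).mono
  intro t ht
  exact mem_Ici.2 ((le_min ha hb).trans ht.1)

/-- Averages converge: `(1/r) ∫_x^{x+r} u → u x` for `u` continuous on `[0, ∞)`. -/
theorem avg_tendsto' {u : ℝ → E} (hcont : ContinuousOn u (Ici 0)) {x : ℝ} (hx : 0 ≤ x) :
    Tendsto (fun r : ℝ => (r⁻¹ : ℝ) • ∫ s in x..(x + r), u s) (𝓝[>] 0) (𝓝 (u x)) := by
  have hmeas : StronglyMeasurableAtFilter u (𝓝[>] x) volume := by
    refine ⟨Ioi x, self_mem_nhdsWithin, ?_⟩
    exact (hcont.mono (fun z hz => mem_Ici.2 (hx.trans (mem_Ioi.1 hz).le))).aestronglyMeasurable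
      measurableSet_Ioi
  have hcw : ContinuousWithinAt u (Ioi x) x :=
    (hcont x hx).mono (fun z hz => mem_Ici.2 (hx.trans (mem_Ioi.1 hz).le))
  have hd : HasDerivWithinAt (fun v => ∫ s in x..v, u s) (u x) (Ici x) x :=
    intervalIntegral.integral_hasDerivWithinAt_right (by simp) hmeas hcw
  have hd2 := hd.mono Ioi_subset_Ici_self
  rw [hasDerivWithinAt_iff_tendsto_slope' self_notMem_Ioi] at hd2
  refine (hd2.comp (tendsto_add_right x)).congr ?_
  intro r
  simp only [Function.comp_apply, slope, vsub_eq_sub, intervalIntegral.integral_same, sub_zero,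
    add_sub_cancel_left]

theorem IsC0Semigroup.isGen_integral (h : IsC0Semigroup T) (f : E) {r : ℝ} (hr : 0 ≤ r) :
    IsGen T (∫ s in (0 : ℝ)..r, T s f) (T r f - f) := by
  unfold IsGen
  have l1 := avg_tendsto' (h.continuousOn f) hr
  have l2 := avg_tendsto' (h.continuousOn f) le_rfl
  have l3 := l1.sub l2
  rw [h.zero_apply] at l3
  refine l3.congr' ?_
  filter_upwards [self_mem_nhdsWithin] with q hq
  have hq0 : 0 ≤ q := (mem_Ioi.1 hq).le
  rw [coe_inv_smul, ← smul_sub, zero_add]
  congr 1
  have e1 : T q (∫ s in (0 : ℝ)..r, T s f) = ∫ s in q..(r + q), T s f := by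
    rw [← ContinuousLinearMap.intervalIntegral_comp_comm (T q)
      (h.intervalIntegrable f le_rfl hr)]
    have e2 : ∫ s in (0 : ℝ)..r, T q (T s f) = ∫ s in (0 : ℝ)..r, T (s + q) f := by
      apply intervalIntegral.integral_congr
      intro s hs
      rw [uIcc_of_le hr] at hs
      show T q (T s f) = T (s + q) f
      rw [add_comm, h.add_apply hq0 hs.1]
    rw [e2, intervalIntegral.integral_comp_add_right (fun s => T s f), zero_add]
  rw [e1]
  have i1 := h.intervalIntegrable f (a := 0) (b := q) le_rfl hq0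
  have i2 := h.intervalIntegrable f (a := q) (b := r) hq0 hr
  have i3 := h.intervalIntegrable f (a := r) (b := r + q) hr (by linarith)
  have s1 := intervalIntegral.integral_add_adjacent_intervals i1 i2
  have s2 := intervalIntegral.integral_add_adjacent_intervals i2 i3
  rw [← s1, ← s2]
  abel

omit [CompleteSpace E] in
theorem IsGen.smul {f g : E} (hg : IsGen T f g) (c : ℂ) : IsGen T (c • f) (c • g) := by
  unfold IsGen at hg ⊢
  refine (hg.const_smul c).congr ?_
  intro t
  rw [map_smul, ← smul_sub, smul_comm]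

theorem IsC0Semigroup.dom_dense (h : IsC0Semigroup T) : Dense {f : E | ∃ g, IsGen T f g} := by
  intro f
  have l := avg_tendsto' (h.continuousOn f) le_rfl
  rw [h.zero_apply] at l
  apply mem_closure_of_tendsto l
  filter_upwards [self_mem_nhdsWithin] with r hr
  rw [zero_add, ← coe_inv_smul]
  exact ⟨_, (h.isGen_integral f (mem_Ioi.1 hr).le).smul _⟩

/-- exponential growth bound from dissipativity -/
theorem IsC0Semigroup.growth (h : IsC0Semigroup T) {c : ℝ}
    (hdiss : ∀ f g : E, IsGen T f g → ∀ lam : ℝ, c < lam → (lam - c) * ‖f‖ ≤ ‖(lam : ℂ) • f - g‖)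
    {b : ℝ} (hb : 0 ≤ b) : ‖T b‖ ≤ Real.exp (c * b) := by
  apply ContinuousLinearMap.opNorm_le_bound _ (Real.exp_pos _).le
  intro f
  have hcl : IsClosed {f : E | ‖T b f‖ ≤ Real.exp (c * b) * ‖f‖} := by
    apply isClosed_le
    · exact ((T b).continuous).norm
    · exact continuous_const.mul continuous_norm
  have hsub : {f : E | ∃ g, IsGen T f g} ⊆ {f : E | ‖T b f‖ ≤ Real.exp (c * b) * ‖f‖} := by
    rintro f ⟨g, hg⟩
    exact h.growth_dom hdiss hg hb
  exact hcl.closure_subset_iff.2 hsub (h.dom_dense f)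

/-- data for a Laplace transform -/
structure LapData (T : ℝ → E →L[ℂ] E) (C ω lam : ℝ) : Prop where
  sg : IsC0Semigroup T
  bound : ∀ t, 0 ≤ t → ‖T t‖ ≤ C * Real.exp (ω * t)
  lt : ω < lam

variable {C ω lam : ℝ}

omit [CompleteSpace E] in
theorem LapData.norm_le (h : LapData T C ω lam) (f : E) {t : ℝ} (ht : 0 ≤ t) :
    ‖Real.exp (-lam * t) • T t f‖ ≤ C * ‖f‖ * Real.exp (-(lam - ω) * t) := by
  rw [norm_smul, Real.norm_of_nonneg (Real.exp_pos _).le]
  calc Real.exp (-lam * t) * ‖T t f‖ ≤ Real.exp (-lam * t) * (C * Real.exp (ω * t) * ‖f‖) := by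
        gcongr
        exact (T t).le_of_opNorm_le (h.bound t ht) f
    _ = C * ‖f‖ * (Real.exp (-lam * t) * Real.exp (ω * t)) := by ring
    _ = C * ‖f‖ * Real.exp (-(lam - ω) * t) := by rw [← Real.exp_add]; ring_nf

theorem LapData.continuousOn (h : LapData T C ω lam) (f : E) :
    ContinuousOn (fun t => Real.exp (-lam * t) • T t f) (Ici 0) :=
  (Continuous.continuousOn (by fun_prop : Continuous fun t : ℝ => Real.exp (-lam * t))).smul
    (h.sg.continuousOn f)

theorem LapData.integrableOn (h : LapData T C ω lam) (f : E) :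
    IntegrableOn (fun t => Real.exp (-lam * t) • T t f) (Ioi 0) := by
  have h1 := (exp_neg_integrableOn_Ioi 0 (sub_pos.2 h.lt)).const_mul (C * ‖f‖)
  refine Integrable.mono' h1 ?_ ?_
  · exact ((h.continuousOn f).mono Ioi_subset_Ici_self).aestronglyMeasurable measurableSet_Ioi
  · rw [ae_restrict_iff' measurableSet_Ioi]
    exact Eventually.of_forall fun t ht => h.norm_le f (mem_Ioi.1 ht).le

omit [CompleteSpace E] in
theorem LapData.norm_integral_le (h : LapData T C ω lam) (f : E) :
    ‖∫ t in Ioi 0, Real.exp (-lam * t) • T t f‖ ≤ C / (lam - ω) * ‖f‖ := by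
  have hpos : 0 < lam - ω := sub_pos.2 h.lt
  have h1 := (exp_neg_integrableOn_Ioi 0 hpos).const_mul (C * ‖f‖)
  have h2 : ‖∫ t in Ioi 0, Real.exp (-lam * t) • T t f‖
      ≤ ∫ t in Ioi 0, C * ‖f‖ * Real.exp (-(lam - ω) * t) := by
    apply norm_integral_le_of_norm_le h1
    rw [ae_restrict_iff' measurableSet_Ioi]
    exact Eventually.of_forall fun t ht => h.norm_le f (mem_Ioi.1 ht).le
  refine h2.trans (le_of_eq ?_)
  rw [integral_const_mul, integral_exp_mul_Ioi (by linarith), mul_zero, Real.exp_zero,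
    neg_div_neg_eq]
  ring

/-- the Laplace transform as a bounded operator -/
noncomputable def LapData.lap (h : LapData T C ω lam) : E →L[ℂ] E :=
  LinearMap.mkContinuous
    { toFun := fun f => ∫ t in Ioi 0, Real.exp (-lam * t) • T t f
      map_add' := by
        intro f g
        rw [← integral_add (h.integrableOn f) (h.integrableOn g)]
        congr 1
        funext t
        rw [map_add, smul_add]
      map_smul' := by
        intro c f
        rw [RingHom.id_apply, ← integral_smul]
        congr 1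
        funext t
        rw [map_smul, smul_comm] } (C / (lam - ω)) h.norm_integral_le

theorem LapData.lap_apply (h : LapData T C ω lam) (f : E) :
    h.lap f = ∫ t in Ioi 0, Real.exp (-lam * t) • T t f := rfl

theorem LapData.norm_lap_apply_le (h : LapData T C ω lam) (f : E) :
    ‖h.lap f‖ ≤ C / (lam - ω) * ‖f‖ := h.norm_integral_le f

theorem LapData.comm (h : LapData T C ω lam) {r : ℝ} (hr : 0 ≤ r) (f : E) :
    T r (h.lap f) = h.lap (T r f) := by
  rw [h.lap_apply, h.lap_apply]
  have h1 := ContinuousLinearMap.integral_comp_comm (T r) (h.integrableOn f)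
  rw [← h1]
  apply setIntegral_congr_fun measurableSet_Ioi
  intro t ht
  show T r (Real.exp (-lam * t) • T t f) = Real.exp (-lam * t) • T t (T r f)
  rw [h.sg.comm_apply (mem_Ioi.1 ht).le hr, ← Complex.coe_smul, map_smul, Complex.coe_smul]

theorem LapData.shift (h : LapData T C ω lam) {r : ℝ} (hr : 0 ≤ r) (f : E) :
    T r (h.lap f) = Real.exp (lam * r) • (h.lap f - ∫ t in (0 : ℝ)..r, Real.exp (-lam * t) • T t f) := by
  have h1 : T r (h.lap f) = ∫ t in Ioi 0, Real.exp (lam * r) • (Real.exp (-lam * (t + r)) • T (t + r) f) := by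
    rw [h.lap_apply, ← ContinuousLinearMap.integral_comp_comm (T r) (h.integrableOn f)]
    apply setIntegral_congr_fun measurableSet_Ioi
    intro t ht
    show T r (Real.exp (-lam * t) • T t f)
      = Real.exp (lam * r) • (Real.exp (-lam * (t + r)) • T (t + r) f)
    rw [← Complex.coe_smul, map_smul, Complex.coe_smul, ← h.sg.add_apply hr (mem_Ioi.1 ht).le,
      smul_smul, ← Real.exp_add, add_comm t r]
    congr 2
    ring
  rw [h1, integral_smul]
  congr 1
  have h2 : ∫ t in Ioi 0, Real.exp (-lam * (t + r)) • T (t + r) f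
      = ∫ t in Ioi r, Real.exp (-lam * t) • T t f := by
    have h3 := (measurePreserving_add_right volume r).setIntegral_preimage_emb
      (measurableEmbedding_addRight r) (fun t => Real.exp (-lam * t) • T t f) (Ioi r)
    rw [← h3]
    congr 2
    ext t
    simp
  rw [h2, h.lap_apply, intervalIntegral.integral_of_le hr, sub_eq_add_neg, add_comm]
  rw [← Ioc_union_Ioi_eq_Ioi hr, setIntegral_union (Ioc_disjoint_Ioi le_rfl) measurableSet_Ioi
    ((h.integrableOn f).mono_set (fun z hz => hz.1))
    ((h.integrableOn f).mono_set (Ioi_subset_Ioi hr))]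
  abel

theorem LapData.isGen (h : LapData T C ω lam) (f : E) :
    IsGen T (h.lap f) ((lam : ℂ) • h.lap f - f) := by
  unfold IsGen
  have l1 : Tendsto (fun r : ℝ => r⁻¹ * (Real.exp (lam * r) - 1)) (𝓝[>] 0) (𝓝 lam) := by
    have hd : HasDerivAt (fun r : ℝ => Real.exp (lam * r)) lam 0 := by
      have := ((hasDerivAt_id (0 : ℝ)).const_mul lam).exp
      simpa using this
    have h2 := hd.tendsto_slope_zero_right
    simpa using h2
  have l2 : Tendsto (fun r : ℝ => (r⁻¹ : ℝ) • ∫ s in (0 : ℝ)..r, Real.exp (-lam * s) • T s f)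
      (𝓝[>] 0) (𝓝 f) := by
    have h1 := avg_tendsto' (h.continuousOn f) le_rfl
    simp only [zero_add, mul_zero, Real.exp_zero, one_smul] at h1
    rwa [h.sg.zero_apply] at h1
  have l3 : Tendsto (fun r : ℝ => Real.exp (lam * r)) (𝓝[>] 0) (𝓝 1) := by
    have : Continuous fun r : ℝ => Real.exp (lam * r) := by fun_prop
    have h3 := this.tendsto 0
    rw [mul_zero, Real.exp_zero] at h3
    exact h3.mono_left nhdsWithin_le_nhds
  have l4 := (l1.smul_const (h.lap f)).sub (l3.smul l2)
  rw [one_smul] at l4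
  have e : (lam : ℂ) • h.lap f - f = lam • h.lap f - f := by rw [Complex.coe_smul]
  rw [e]
  refine l4.congr' ?_
  filter_upwards [self_mem_nhdsWithin] with r hr
  rw [h.shift (mem_Ioi.1 hr).le, coe_inv_smul]
  rw [smul_sub, smul_sub, smul_sub, mul_sub, sub_smul, smul_smul, smul_smul, smul_smul, mul_one,
    mul_comm (Real.exp (lam * r)) r⁻¹]
  abel

theorem LapData.left_inv (h : LapData T C ω lam) {f g : E} (hg : IsGen T f g) :
    h.lap ((lam : ℂ) • f - g) = f := by
  have h1 := h.isGen f
  have h2 : IsGen T (h.lap f) (h.lap g) := by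
    unfold IsGen at hg ⊢
    have h3 := (h.lap.continuous.tendsto g).comp hg
    refine h3.congr' ?_
    filter_upwards [self_mem_nhdsWithin] with r hr
    show h.lap (((r : ℂ)⁻¹) • (T r f - f)) = _
    rw [map_smul, map_sub, h.comm (mem_Ioi.1 hr).le]
  have h4 := isGen_unique h1 h2
  rw [map_sub, map_smul, ← h4]
  abel

end Basic

end Pool.Agent.MP_21eaa0_an
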