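import Pool.Agent.MP_21eaa0_an.Shift

/-!
Block matrices dominated by a summable convolution kernel: resolvent decay.
-/

open Filter Topology
open scoped ENNReal

namespace Pool.Agent.MP_21eaa0_an

section Comm

variable {G : Type*} [AddCommGroup G] {H : Type*} [NormedAddCommGroup H] [NormedSpace ℂ H]

theorem one_toReal_pos : 0 < (1 : ℝ≥0∞).toReal := by simp

/-- the shift on `ℓ^1(G; H)` -/
noncomputable def shiftOp (k : G) : lp (fun _ : G => H) 1 →L[ℂ] lp (fun _ : G => H) 1 :=
  sd one_toReal_pos k (fun _ => ContinuousLinearMap.id ℂ H) zero_le_one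
    (fun _ => ContinuousLinearMap.norm_id_le)

/-- coordinatewise action of an operator on `ℓ^1(G; H)` -/
noncomputable def diagOp (b : H →L[ℂ] H) : lp (fun _ : G => H) 1 →L[ℂ] lp (fun _ : G => H) 1 :=
  sd one_toReal_pos 0 (fun _ => b) (norm_nonneg b) (fun _ => le_rfl)

theorem shiftOp_apply (k : G) (f : lp (fun _ : G => H) 1) (i : G) :
    shiftOp k f i = f (i - k) := rfl

theorem diagOp_apply (b : H →L[ℂ] H) (f : lp (fun _ : G => H) 1) (i : G) :
    diagOp b f i = b (f i) := by
  show b (f (i - 0)) = b (f i)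
  rw [sub_zero]

variable (G H) in
/-- the commutant of the shifts -/
noncomputable def comm : Subalgebra ℂ (lp (fun _ : G => H) 1 →L[ℂ] lp (fun _ : G => H) 1) :=
  Subalgebra.centralizer ℂ (Set.range (shiftOp (G := G) (H := H)))

theorem mem_comm (T : lp (fun _ : G => H) 1 →L[ℂ] lp (fun _ : G => H) 1) :
    T ∈ comm G H ↔ ∀ k, shiftOp k * T = T * shiftOp k := by
  unfold comm
  rw [Subalgebra.mem_centralizer_iff]
  simp

theorem shiftOp_mem (k : G) : shiftOp k ∈ comm G H := by
  rw [mem_comm]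
  intro l
  ext f i
  show f (i - l - k) = f (i - k - l)
  exact congrArg (fun z => f z) (sub_right_comm i l k)

theorem diagOp_mem (b : H →L[ℂ] H) : diagOp b ∈ comm G H := by
  rw [mem_comm]
  intro l
  ext f i
  show b (f (i - l - 0)) = b (f (i - 0 - l))
  simp

theorem isClosed_comm : IsClosed (comm G H : Set (lp (fun _ : G => H) 1 →L[ℂ]
    lp (fun _ : G => H) 1)) := by
  have : (comm G H : Set (lp (fun _ : G => H) 1 →L[ℂ] lp (fun _ : G => H) 1))
      = Set.centralizer (Set.range (shiftOp (G := G) (H := H))) := rfl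
  rw [this]
  exact Set.isClosed_centralizer _

instance [CompleteSpace H] : CompleteSpace (comm G H) :=
  (isClosed_comm (G := G) (H := H)).completeSpace_coe

/-- the coordinatewise action as a continuous linear map into the commutant -/
noncomputable def lam : (H →L[ℂ] H) →L[ℂ] comm G H :=
  LinearMap.mkContinuous
    { toFun := fun b => ⟨diagOp b, diagOp_mem b⟩
      map_add' := by
        intro b c
        ext f i
        exact rfl
      map_smul' := by
        intro r b
        ext f i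
        exact rfl } 1 (by
      intro b
      rw [one_mul]
      exact norm_sd_le one_toReal_pos 0 (fun _ => b) (norm_nonneg b) (fun _ => le_rfl))

theorem lam_apply (b : H →L[ℂ] H) : ((lam b : comm G H) : lp (fun _ : G => H) 1 →L[ℂ]
    lp (fun _ : G => H) 1) = diagOp b := rfl

theorem norm_diagOp_le (b : H →L[ℂ] H) : ‖(diagOp b : lp (fun _ : G => H) 1 →L[ℂ]
    lp (fun _ : G => H) 1)‖ ≤ ‖b‖ :=
  norm_sd_le one_toReal_pos 0 (fun _ => b) (norm_nonneg b) (fun _ => le_rfl)

theorem norm_lam_le (b : H →L[ℂ] H) : ‖(lam b : comm G H)‖ ≤ ‖b‖ :=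
  norm_diagOp_le b

theorem lam_mul (b c : H →L[ℂ] H) : (lam (b * c) : comm G H) = lam b * lam c := by
  ext f i
  show b (c (f (i - 0))) = b (c (f (i - 0 - 0)))
  simp

theorem lam_one : (lam 1 : comm G H) = 1 := by
  ext f i
  show f (i - 0) = f i
  simp

theorem shiftOp_add (k l : G) : (shiftOp (k + l) : lp (fun _ : G => H) 1 →L[ℂ]
    lp (fun _ : G => H) 1) = shiftOp k * shiftOp l := by
  ext f i
  show f (i - (k + l)) = f (i - k - l)
  exact congrArg (fun z => f z) (sub_add_eq_sub_sub i k l)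

theorem shiftOp_zero : (shiftOp (0 : G) : lp (fun _ : G => H) 1 →L[ℂ]
    lp (fun _ : G => H) 1) = 1 := by
  ext f i
  show f (i - 0) = f i
  simp

theorem norm_shiftOp_le (k : G) : ‖(shiftOp k : lp (fun _ : G => H) 1 →L[ℂ]
    lp (fun _ : G => H) 1)‖ ≤ 1 := norm_sd_le _ _ _ _ _

/-- Solvability of the convolution equation with summable operator coefficients. -/
theorem exists_conv_solution [CompleteSpace H] (a : G → H →L[ℂ] H)
    (ha : Summable fun k => ‖a k‖)
    (hinv : ∀ χ : G → ℂ, χ 0 = 1 → (∀ k l, χ (k + l) = χ k * χ l) → (∀ k, ‖χ k‖ = 1) →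
      ∃ x, (∑' k, χ k • a k) * x = 1) :
    ∃ C : ℝ, 0 ≤ C ∧ ∀ y : H, ∃ v : G → H, (Summable fun i => ‖v i‖) ∧ ∑' i, ‖v i‖ ≤ C * ‖y‖ ∧
      (∀ m, m ≠ 0 → ∑' k, a k (v (m - k)) = 0) ∧ ∑' k, a k (v (0 - k)) = y := by
  classical
  have haH : Summable fun k => ‖(lam (a k) : comm G H)‖ :=
    Summable.of_nonneg_of_le (fun _ => norm_nonneg _) (fun k => norm_lam_le _) ha
  obtain ⟨T, hT⟩ := exists_right_inverse (A := comm G H) (fun k => ⟨shiftOp k, shiftOp_mem k⟩)
    (by ext f i; exact congrFun (congrArg _ (congrArg (fun z => z f) shiftOp_zero)) i)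
    (fun k l => by
      apply Subtype.ext
      exact shiftOp_add k l)
    (fun k x => by
      apply Subtype.ext
      exact (mem_comm _).1 x.2 k)
    (fun k => norm_shiftOp_le k)
    (fun k => lam (a k)) haH
    (by
      intro χ h0 h1 h2
      obtain ⟨x, hx⟩ := hinv χ h0 h1 h2
      refine ⟨lam x, ?_⟩
      have hsum : Summable fun k => χ k • a k := by
        apply Summable.of_norm_bounded ha
        intro k
        rw [norm_smul, h2, one_mul]
      have : ∑' k, χ k • (lam (a k) : comm G H) = lam (∑' k, χ k • a k) := by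
        rw [ContinuousLinearMap.map_tsum _ hsum]
        exact tsum_congr fun k => (map_smul _ _ _).symm
      rw [this, ← lam_mul, hx, lam_one])
  set T' : lp (fun _ : G => H) 1 →L[ℂ] lp (fun _ : G => H) 1 := T.1 with hT'
  -- the operator equation on `ℓ^1(G; H)`
  have hsumm : Summable fun k => (diagOp (a k) * shiftOp k : lp (fun _ : G => H) 1 →L[ℂ]
      lp (fun _ : G => H) 1) := by
    apply Summable.of_norm_bounded ha
    intro k
    calc ‖(diagOp (a k) * shiftOp k : lp (fun _ : G => H) 1 →L[ℂ] lp (fun _ : G => H) 1)‖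
        ≤ ‖(diagOp (a k) : lp (fun _ : G => H) 1 →L[ℂ] lp (fun _ : G => H) 1)‖ *
          ‖(shiftOp k : lp (fun _ : G => H) 1 →L[ℂ] lp (fun _ : G => H) 1)‖ := norm_mul_le _ _
      _ ≤ ‖a k‖ * 1 := by
          gcongr
          · exact norm_diagOp_le _
          · exact norm_shiftOp_le k
      _ = ‖a k‖ := mul_one _
  have hop : (∑' k, (diagOp (a k) * shiftOp k : lp (fun _ : G => H) 1 →L[ℂ]
      lp (fun _ : G => H) 1)) * T' = 1 := by
    have h1 := congrArg (Subalgebra.val (comm G H)) hT
    rw [map_mul, map_one] at h1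
    rw [← h1]
    congr 1
    have hs2 : Summable fun k => (lam (a k) : comm G H) * ⟨shiftOp k, shiftOp_mem k⟩ := by
      apply Summable.of_norm_bounded ha
      intro k
      calc ‖(lam (a k) : comm G H) * ⟨shiftOp k, shiftOp_mem k⟩‖
          ≤ ‖(lam (a k) : comm G H)‖ * ‖(⟨shiftOp k, shiftOp_mem k⟩ : comm G H)‖ :=
            norm_mul_le _ _
        _ ≤ ‖a k‖ * 1 := by
            gcongr
            · exact norm_lam_le _
            · exact norm_shiftOp_le k
        _ = ‖a k‖ := mul_one _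
    have hc : Continuous (Subalgebra.val (comm G H)) := continuous_subtype_val
    exact ((hs2.hasSum.map (Subalgebra.val (comm G H)) hc).tsum_eq).symm ▸ rfl
  refine ⟨‖T'‖, norm_nonneg _, fun y => ?_⟩
  set δ : lp (fun _ : G => H) 1 := lp.single 1 0 y with hδ
  set v : lp (fun _ : G => H) 1 := T' δ with hv
  have hvs : Summable fun i => ‖v i‖ := by
    have := (lp.memℓp v).summable one_toReal_pos
    simpa using this
  have hnorm : ∑' i, ‖v i‖ = ‖v‖ := by
    have := lp.norm_rpow_eq_tsum one_toReal_pos v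
    simpa using this.symm
  have heq : ∀ m, ∑' k, a k (v (m - k)) = δ m := by
    intro m
    have h1 := congrArg (fun z => z δ) hop
    have h2 : (∑' k, (diagOp (a k) * shiftOp k : lp (fun _ : G => H) 1 →L[ℂ]
      lp (fun _ : G => H) 1)) v = δ := h1
    have h3 := (hsumm.hasSum.mapL (ContinuousLinearMap.apply ℂ (lp (fun _ : G => H) 1) v)).mapL
      (lp.evalCLM ℂ (fun _ : G => H) 1 m)
    have h4 := h3.tsum_eq
    have h5 : (lp.evalCLM ℂ (fun _ : G => H) 1 m) ((ContinuousLinearMap.apply ℂ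
      (lp (fun _ : G => H) 1) v) (∑' k, (diagOp (a k) * shiftOp k))) = δ m := by
      rw [← h2]; rfl
    rw [h5] at h4
    rw [← h4]
    congr 1
    ext1 k
    show a k (v (m - k)) = a k (v (m - 0 - k))
    rw [sub_zero]
  refine ⟨v, hvs, ?_, ?_, ?_⟩
  · rw [hnorm]
    calc ‖v‖ ≤ ‖T'‖ * ‖δ‖ := T'.le_opNorm δ
      _ = ‖T'‖ * ‖y‖ := by rw [hδ, lp.norm_single (by norm_num)]
  · intro m hm
    rw [heq m, hδ, lp.single_apply_ne _ _ _ hm]
  · rw [heq 0, hδ, lp.single_apply_self]

end Comm

end Pool.Agent.MP_21eaa0_an
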