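import Pool.Agent.MP_21eaa0_an.Smooth

/-!
Convolution of `L^1` functions with a finite measure.
-/

open Filter Topology MeasureTheory
open scoped ENNReal ComplexConjugate

namespace Pool.Agent.MP_21eaa0_an

variable {d : ℕ}

/-- convolution of a function with a measure -/
noncomputable def cm (ν : Measure (Fin d → ℝ)) (f : (Fin d → ℝ) → ℂ) (x : Fin d → ℝ) : ℂ :=
  ∫ y, f (x - y) ∂ν

/-- the pair `(f, g)` lies in the cone `|f| ≤ Re g`. -/
def Cone (f g : L1 d) : Prop := ∀ᵐ x, ‖f x‖ ≤ (g x).re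

/-- positivity preservation in the form `|f| ≤ Re g → |A f| ≤ Re (A g)` -/
def Pos (A : L1 d →L[ℂ] L1 d) : Prop := ∀ f g : L1 d, Cone f g → Cone (A f) (A g)

section Single

variable {ν : Measure (Fin d → ℝ)} [IsFiniteMeasure ν]

theorem lintegral_sub_meas {g : (Fin d → ℝ) → ℝ≥0∞} (hg : Measurable g) :
    ∫⁻ x, ∫⁻ y, g (x - y) ∂ν = ν Set.univ * ∫⁻ x, g x := by
  rw [lintegral_lintegral_swap]
  · calc ∫⁻ y, ∫⁻ x, g (x - y) ∂volume ∂ν = ∫⁻ _y, (∫⁻ x, g x) ∂ν := by
          apply lintegral_congr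
          intro y
          rw [lintegral_sub_right_eq_self]
      _ = ν Set.univ * ∫⁻ x, g x := by rw [lintegral_const, mul_comm]
  · apply Measurable.aemeasurable
    show Measurable fun p : (Fin d → ℝ) × (Fin d → ℝ) => g (p.1 - p.2)
    fun_prop

theorem ae_sub {P : (Fin d → ℝ) → Prop} (h : ∀ᵐ z, P z) : ∀ᵐ x, ∀ᵐ y ∂ν, P (x - y) := by
  set N := toMeasurable volume {z | ¬ P z} with hN
  have hNm : MeasurableSet N := measurableSet_toMeasurable _ _
  have hN0 : volume N = 0 := by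
    rw [hN, measure_toMeasurable]
    exact h
  have h1 : ∫⁻ x, ∫⁻ y, N.indicator (fun _ => (1 : ℝ≥0∞)) (x - y) ∂ν = 0 := by
    rw [lintegral_sub_meas (measurable_const.indicator hNm), lintegral_indicator hNm]
    simp [hN0]
  have hm : Measurable fun x => ∫⁻ y, N.indicator (fun _ => (1 : ℝ≥0∞)) (x - y) ∂ν := by
    apply Measurable.lintegral_prod_right'
      (f := fun p : (Fin d → ℝ) × (Fin d → ℝ) => N.indicator (fun _ => (1 : ℝ≥0∞)) (p.1 - p.2))
    exact (measurable_const.indicator hNm).comp (measurable_fst.sub measurable_snd)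
  rw [lintegral_eq_zero_iff hm] at h1
  filter_upwards [h1] with x hx
  have hm2 : Measurable fun y => N.indicator (fun _ => (1 : ℝ≥0∞)) (x - y) :=
    (measurable_const.indicator hNm).comp (measurable_const.sub measurable_id)
  have hx' : ∫⁻ y, N.indicator (fun _ => (1 : ℝ≥0∞)) (x - y) ∂ν = 0 := hx
  rw [lintegral_eq_zero_iff hm2] at hx'
  filter_upwards [hx'] with y hy
  by_contra hcon
  have : x - y ∈ N := subset_toMeasurable _ _ hcon
  rw [Set.indicator_of_mem this] at hy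
  exact one_ne_zero hy

theorem cm_congr {f g : (Fin d → ℝ) → ℂ} (h : f =ᵐ[volume] g) : cm ν f =ᵐ[volume] cm ν g := by
  filter_upwards [ae_sub (ν := ν) h] with x hx
  exact integral_congr_ae hx

theorem ae_integrable_sub {f : (Fin d → ℝ) → ℂ} (hf : Measurable f) (hi : ∫⁻ x, ‖f x‖ₑ ≠ ⊤) :
    ∀ᵐ x, Integrable (fun y => f (x - y)) ν := by
  have h1 : ∫⁻ x, ∫⁻ y, ‖f (x - y)‖ₑ ∂ν ≠ ⊤ := by
    rw [lintegral_sub_meas (g := fun z => ‖f z‖ₑ) hf.enorm]
    exact ENNReal.mul_ne_top (measure_ne_top _ _) hi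
  have hm : Measurable fun x => ∫⁻ y, ‖f (x - y)‖ₑ ∂ν := by
    apply Measurable.lintegral_prod_right'
      (f := fun p : (Fin d → ℝ) × (Fin d → ℝ) => ‖f (p.1 - p.2)‖ₑ)
    exact hf.enorm.comp (measurable_fst.sub measurable_snd)
  filter_upwards [ae_lt_top hm h1] with x hx
  exact ⟨(hf.comp (measurable_const.sub measurable_id)).aestronglyMeasurable, hx⟩

theorem lintegral_Lp_ne_top (f : L1 d) : ∫⁻ x, ‖f x‖ₑ ≠ ⊤ := by
  rw [← enorm_L1]; exact enorm_ne_top

theorem measurable_Lp (f : L1 d) : Measurable (f : (Fin d → ℝ) → ℂ) :=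
  (Lp.stronglyMeasurable f).measurable

theorem integrable_Lp (f : L1 d) : Integrable (f : (Fin d → ℝ) → ℂ) :=
  L1.integrable_coeFn f

theorem lintegral_enorm_cm_le {f : (Fin d → ℝ) → ℂ} (hf : Measurable f) :
    ∫⁻ x, ‖cm ν f x‖ₑ ≤ ν Set.univ * ∫⁻ x, ‖f x‖ₑ := by
  rw [← lintegral_sub_meas (ν := ν) (g := fun z => ‖f z‖ₑ) hf.enorm]
  exact lintegral_mono fun x => enorm_integral_le_lintegral_enorm _

/-- joint integrability of `f (x - y)` -/
theorem integrable_sub_prod {f : (Fin d → ℝ) → ℂ} (hf : Measurable f)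
    (hi : ∫⁻ x, ‖f x‖ₑ ≠ ⊤) :
    Integrable (fun p : (Fin d → ℝ) × (Fin d → ℝ) => f (p.1 - p.2)) (volume.prod ν) := by
  have hm : Measurable fun p : (Fin d → ℝ) × (Fin d → ℝ) => f (p.1 - p.2) :=
    hf.comp (measurable_fst.sub measurable_snd)
  refine ⟨hm.aestronglyMeasurable, ?_⟩
  unfold HasFiniteIntegral
  rw [lintegral_prod _ hm.enorm.aemeasurable]
  have h1 := lintegral_sub_meas (ν := ν) (g := fun z => ‖f z‖ₑ) hf.enorm
  have h2 : ∫⁻ x, ∫⁻ y, ‖f ((x, y).1 - (x, y).2)‖ₑ ∂ν = ν Set.univ * ∫⁻ x, ‖f x‖ₑ := h1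
  rw [h2]
  exact ENNReal.mul_lt_top (measure_lt_top _ _) hi.lt_top

theorem integral_cm (f : L1 d) : ∫ x, cm ν f x = ν.real Set.univ • ∫ x, f x := by
  unfold cm
  rw [integral_integral_swap (integrable_sub_prod (measurable_Lp f) (lintegral_Lp_ne_top f))]
  have : ∀ y, ∫ x, f (x - y) = ∫ x, f x := fun y => integral_sub_right_eq_self _ _
  simp_rw [this]
  rw [integral_const]

variable {A : L1 d →L[ℂ] L1 d} (hA : ∀ f : L1 d, (A f : (Fin d → ℝ) → ℂ) =ᵐ[volume] cm ν f)

include hA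

theorem norm_conv_le (hν : ν Set.univ ≤ 1) (f : L1 d) : ‖A f‖ ≤ ‖f‖ := by
  rw [← toReal_enorm, ← toReal_enorm]
  apply ENNReal.toReal_mono enorm_ne_top
  have e : ∫⁻ x, ‖A f x‖ₑ = ∫⁻ x, ‖cm ν f x‖ₑ := lintegral_congr_ae (by
    filter_upwards [hA f] with x hx
    rw [hx])
  rw [enorm_L1, enorm_L1, e]
  refine (lintegral_enorm_cm_le (measurable_Lp f)).trans ?_
  calc ν Set.univ * ∫⁻ x, ‖f x‖ₑ ≤ 1 * ∫⁻ x, ‖f x‖ₑ := by gcongr
    _ = _ := one_mul _

theorem pos_conv : Pos A := by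
  intro f g h
  filter_upwards [hA f, hA g, ae_sub (ν := ν) h,
    ae_integrable_sub (ν := ν) (measurable_Lp f) (lintegral_Lp_ne_top f),
    ae_integrable_sub (ν := ν) (measurable_Lp g) (lintegral_Lp_ne_top g)] with x h1 h2 h3 h4 h5
  rw [h1, h2]
  unfold cm
  have e : (∫ y, g (x - y) ∂ν).re = ∫ y, (g (x - y)).re ∂ν := by
    have := integral_re h5
    exact this.symm
  rw [e]
  refine (norm_integral_le_integral_norm _).trans ?_
  exact integral_mono_ae h4.norm h5.re h3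

theorem integral_conv (f : L1 d) : ∫ x, A f x = ν.real Set.univ • ∫ x, f x := by
  rw [integral_congr_ae (hA f), integral_cm]

theorem herm_conv (hsymm : ν.map (fun x => -x) = ν) : Herm A := by
  intro u v hu hv
  obtain ⟨Cv, hCv⟩ := hv
  obtain ⟨Cu, hCu⟩ := hu
  have hum := measurable_Lp u
  have hvm := measurable_Lp v
  -- integrability on the product
  have hI1 : Integrable (fun p : (Fin d → ℝ) × (Fin d → ℝ) => conj (u (p.1 - p.2)) * v p.1)
      (volume.prod ν) := by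
    have h1 := (integrable_sub_prod (ν := ν) hum (lintegral_Lp_ne_top u))
    have h2 : Integrable (fun p : (Fin d → ℝ) × (Fin d → ℝ) => conj (u (p.1 - p.2)))
      (volume.prod ν) := by
      have := (Complex.conjCLE.toContinuousLinearMap).integrable_comp h1
      exact this
    refine (h2.mul_bdd (c := Cv) ?_ ?_)
    · exact (hvm.comp measurable_fst).aestronglyMeasurable
    · have : ∀ᵐ p ∂(volume.prod ν), ‖v (p : (Fin d → ℝ) × (Fin d → ℝ)).1‖ ≤ Cv :=
        Measure.quasiMeasurePreserving_fst.ae hCv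
      exact this
  have hI2 : Integrable (fun p : (Fin d → ℝ) × (Fin d → ℝ) => v (p.1 - p.2) * conj (u p.1))
      (volume.prod ν) := by
    have h1 := (integrable_sub_prod (ν := ν) hvm (lintegral_Lp_ne_top v))
    refine (h1.mul_bdd (c := Cu) ?_ ?_)
    · exact ((Complex.continuous_conj.measurable.comp hum).comp measurable_fst).aestronglyMeasurable
    · have : ∀ᵐ p ∂(volume.prod ν), ‖u (p : (Fin d → ℝ) × (Fin d → ℝ)).1‖ ≤ Cu :=
        Measure.quasiMeasurePreserving_fst.ae hCu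
      filter_upwards [this] with p hp
      rwa [RCLike.norm_conj]
  have e1 : ∫ x, conj (A u x) * v x = ∫ x, ∫ y, conj (u (x - y)) * v x ∂ν := by
    apply integral_congr_ae
    filter_upwards [hA u] with x hx
    rw [hx]
    unfold cm
    rw [← integral_conj, ← integral_mul_const]
  have e2 : ∫ x, conj (u x) * A v x = ∫ x, ∫ y, v (x - y) * conj (u x) ∂ν := by
    apply integral_congr_ae
    filter_upwards [hA v] with x hx
    rw [hx, mul_comm]
    unfold cm
    rw [← integral_mul_const]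
  have s1 : ∫ x, ∫ y, conj (u (x - y)) * v x ∂ν = ∫ y, ∫ x, conj (u (x - y)) * v x ∂volume ∂ν :=
    integral_integral_swap hI1
  have s2 : ∫ x, ∫ y, v (x - y) * conj (u x) ∂ν = ∫ y, ∫ x, v (x - y) * conj (u x) ∂volume ∂ν :=
    integral_integral_swap hI2
  rw [e1, e2, s1, s2]
  have e3 : ∀ y, ∫ x, conj (u (x - y)) * v x = ∫ x, conj (u x) * v (x + y) := by
    intro y
    rw [← integral_sub_right_eq_self (fun x => conj (u x) * v (x + y)) y]
    simp
  simp_rw [e3]
  have e4 : ∫ y, (∫ x, conj (u x) * v (x + y)) ∂ν = ∫ y, (∫ x, conj (u x) * v (x + -y)) ∂ν := by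
    conv_lhs => rw [← hsymm]
    exact (Homeomorph.neg (Fin d → ℝ)).measurableEmbedding.integral_map _
  rw [e4]
  congr 1
  funext y
  congr 1
  funext x
  rw [mul_comm, sub_eq_add_neg]

end Single

end Pool.Agent.MP_21eaa0_an
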