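import Pool.Agent.MP_21eaa0_an.Defs

/-!
Elementary theory of `C_0`-semigroups on complex Banach spaces.
-/

open Filter Topology MeasureTheory Set

namespace Pool.Agent.MP_21eaa0_an

section Basic

variable {E : Type*} [NormedAddCommGroup E] [NormedSpace ℂ E] {T : ℝ → E →L[ℂ] E}

theorem IsC0Semigroup.tendsto_ge (h : IsC0Semigroup T) (f : E) :
    Tendsto (fun t => T t f) (𝓝[≥] 0) (𝓝 f) := by
  have : (𝓝[≥] (0 : ℝ)) = 𝓝[>] 0 ⊔ pure 0 := by
    rw [← Ioi_insert, nhdsWithin_insert, sup_comm]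
  rw [this, tendsto_sup]
  refine ⟨h.cont f, ?_⟩
  rw [tendsto_pure_left]
  intro s hs
  rw [h.zero]
  exact mem_of_mem_nhds hs

theorem IsC0Semigroup.zero_apply (h : IsC0Semigroup T) (f : E) : T 0 f = f := by
  rw [h.zero]; rfl

theorem IsC0Semigroup.add_apply (h : IsC0Semigroup T) {s t : ℝ} (hs : 0 ≤ s) (ht : 0 ≤ t)
    (f : E) : T (s + t) f = T s (T t f) := by
  rw [h.add s t hs ht]; rfl

theorem IsC0Semigroup.comm_apply (h : IsC0Semigroup T) {s t : ℝ} (hs : 0 ≤ s) (ht : 0 ≤ t)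
    (f : E) : T s (T t f) = T t (T s f) := by
  rw [← h.add_apply hs ht, ← h.add_apply ht hs, add_comm]

variable [CompleteSpace E]

theorem IsC0Semigroup.local_bound (h : IsC0Semigroup T) :
    ∃ δ : ℝ, 0 < δ ∧ ∃ C : ℝ, 1 ≤ C ∧ ∀ s ∈ Icc 0 δ, ‖T s‖ ≤ C := by
  by_contra hcon
  push Not at hcon
  choose s hs using fun n : ℕ => hcon (1 / ((n : ℝ) + 1)) (by positivity) ((n : ℝ) + 1)
    (by have : (0 : ℝ) ≤ n := n.cast_nonneg
        linarith)
  have hs0 : Tendsto s atTop (𝓝[≥] 0) := by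
    rw [tendsto_nhdsWithin_iff]
    refine ⟨?_, Eventually.of_forall fun n => (hs n).1.1⟩
    exact squeeze_zero (fun n => (hs n).1.1) (fun n => (hs n).1.2)
      tendsto_one_div_add_atTop_nhds_zero_nat
  obtain ⟨C, hC⟩ := banach_steinhaus (g := fun n => T (s n)) (by
    intro x
    have h1 : Tendsto (fun n => T (s n) x) atTop (𝓝 x) := (h.tendsto_ge x).comp hs0
    obtain ⟨C, hC⟩ := h1.norm.bddAbove_range
    exact ⟨C, fun i => hC ⟨i, rfl⟩⟩)
  obtain ⟨n, hn⟩ := exists_nat_gt C
  have h2 := (hs n).2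
  have h3 := hC n
  linarith

theorem IsC0Semigroup.bound_on (h : IsC0Semigroup T) (b : ℝ) :
    ∃ C : ℝ, 0 ≤ C ∧ ∀ s ∈ Icc 0 b, ‖T s‖ ≤ C := by
  obtain ⟨δ, hδ, C, hC1, hC⟩ := h.local_bound
  have key : ∀ N : ℕ, ∀ s ∈ Icc 0 (N * δ), ‖T s‖ ≤ C ^ N := by
    intro N
    induction N with
    | zero =>
      intro s hs
      simp only [Nat.cast_zero, zero_mul, Icc_self, mem_singleton_iff] at hs
      rw [hs, h.zero, pow_zero]
      exact ContinuousLinearMap.norm_id_le
    | succ N ih =>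
      intro s hs
      by_cases hsδ : s ≤ δ
      · refine (hC s ⟨hs.1, hsδ⟩).trans ?_
        exact le_self_pow₀ hC1 (Nat.succ_ne_zero N)
      · push Not at hsδ
        have h1 : s = δ + (s - δ) := by ring
        rw [h1, h.add δ (s - δ) hδ.le (by linarith), pow_succ']
        refine (ContinuousLinearMap.opNorm_comp_le _ _).trans ?_
        apply mul_le_mul (hC δ ⟨hδ.le, le_rfl⟩) _ (norm_nonneg _) (by linarith)
        apply ih
        refine ⟨by linarith, ?_⟩
        have := hs.2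
        push_cast at this
        linarith
  obtain ⟨N, hN⟩ := exists_nat_gt (b / δ)
  refine ⟨C ^ N, by positivity, fun s hs => key N s ⟨hs.1, hs.2.trans ?_⟩⟩
  rw [div_lt_iff₀ hδ] at hN
  exact hN.le

theorem IsC0Semigroup.continuousOn (h : IsC0Semigroup T) (f : E) :
    ContinuousOn (fun t => T t f) (Ici 0) := by
  intro t ht
  obtain ⟨C, hC0, hC⟩ := h.bound_on (t + 1)
  have hlim : Tendsto (fun s => ‖T |s - t| f - f‖) (𝓝[Ici 0] t) (𝓝 0) := by
    have h1 : Tendsto (fun s => |s - t|) (𝓝[Ici 0] t) (𝓝[≥] 0) := by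
      rw [tendsto_nhdsWithin_iff]
      refine ⟨?_, Eventually.of_forall fun s => mem_Ici.2 (abs_nonneg _)⟩
      have : Continuous fun s : ℝ => |s - t| := by fun_prop
      have h2 := this.tendsto t
      rw [sub_self, abs_zero] at h2
      exact h2.mono_left nhdsWithin_le_nhds
    have h2 := ((h.tendsto_ge f).comp h1).sub_const f
    rw [sub_self] at h2
    have h3 := h2.norm
    rw [norm_zero] at h3
    exact h3
  have hbd : ∀ᶠ s in 𝓝[Ici 0] t, ‖T s f - T t f‖ ≤ C * ‖T |s - t| f - f‖ := by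
    have h1 : ∀ᶠ s in 𝓝[Ici 0] t, s < t + 1 :=
      (tendsto_id.mono_left nhdsWithin_le_nhds).eventually_lt_const (by linarith)
    filter_upwards [h1, self_mem_nhdsWithin] with s hs hs0
    have ht0 : (0 : ℝ) ≤ t := ht
    have hs0' : (0 : ℝ) ≤ s := hs0
    rcases le_total s t with hst | hst
    · have e : T t f = T s (T (t - s) f) := by
        rw [← h.add_apply hs0' (by linarith)]; congr 2; ring
      have ea : |s - t| = t - s := by rw [abs_sub_comm, abs_of_nonneg (by linarith)]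
      rw [e, ea, ← map_sub, ← norm_neg, ← map_neg, neg_sub]
      exact (T s).le_of_opNorm_le (hC s ⟨hs0', hs.le⟩) _
    · have e : T s f = T t (T (s - t) f) := by
        rw [← h.add_apply ht0 (by linarith)]; congr 2; ring
      have ea : |s - t| = s - t := abs_of_nonneg (by linarith)
      rw [e, ea, ← map_sub]
      exact (T t).le_of_opNorm_le (hC t ⟨ht0, by linarith⟩) _
  rw [ContinuousWithinAt, tendsto_iff_norm_sub_tendsto_zero]
  have h5 := hlim.const_mul C
  rw [mul_zero] at h5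
  exact squeeze_zero' (Eventually.of_forall fun _ => norm_nonneg _) hbd h5

omit [CompleteSpace E] in
/-- generator relation propagates along the semigroup -/
theorem IsC0Semigroup.isGen_apply (h : IsC0Semigroup T) {f g : E} (hg : IsGen T f g) {t : ℝ}
    (ht : 0 ≤ t) : IsGen T (T t f) (T t g) := by
  unfold IsGen at hg ⊢
  have h1 := ((T t).continuous.tendsto g).comp hg
  refine h1.congr' ?_
  filter_upwards [self_mem_nhdsWithin] with s hs
  show T t (((s : ℂ)⁻¹) • (T s f - f)) = _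
  rw [map_smul, map_sub, h.comm_apply ht (le_of_lt hs)]

omit [CompleteSpace E] in
theorem isGen_unique {f g g' : E} (h : IsGen T f g) (h' : IsGen T f g') : g = g' :=
  tendsto_nhds_unique h h'

omit [CompleteSpace E] in
/-- right derivative of orbits -/
theorem IsC0Semigroup.right_deriv (h : IsC0Semigroup T) {f g : E} (hg : IsGen T f g) {x : ℝ}
    (hx : 0 ≤ x) :
    Tendsto (fun z : ℝ => (((z - x : ℝ) : ℂ)⁻¹) • (T z f - T x f)) (𝓝[>] x) (𝓝 (T x g)) := by
  have h1 := h.isGen_apply hg hx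
  have h2 : Tendsto (fun z : ℝ => z - x) (𝓝[>] x) (𝓝[>] 0) := by
    rw [tendsto_nhdsWithin_iff]
    constructor
    · have : Continuous fun z : ℝ => z - x := by fun_prop
      have h3 := this.tendsto x
      rw [sub_self] at h3
      exact h3.mono_left nhdsWithin_le_nhds
    · filter_upwards [self_mem_nhdsWithin] with z hz
      exact mem_Ioi.2 (sub_pos.2 (mem_Ioi.1 hz))
  refine (h1.comp h2).congr' ?_
  filter_upwards [self_mem_nhdsWithin] with z hz
  show (((z - x : ℝ) : ℂ)⁻¹) • (T (z - x) (T x f) - T x f) = _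
  rw [← h.add_apply (sub_pos.2 (mem_Ioi.1 hz)).le hx, sub_add_cancel]

/-- Gronwall: dissipativity gives exponential growth bounds for orbits of domain elements. -/
theorem IsC0Semigroup.growth_dom (h : IsC0Semigroup T) {c : ℝ}
    (hdiss : ∀ f g : E, IsGen T f g → ∀ lam : ℝ, c < lam → (lam - c) * ‖f‖ ≤ ‖(lam : ℂ) • f - g‖)
    {f g : E} (hg : IsGen T f g) {b : ℝ} (hb : 0 ≤ b) : ‖T b f‖ ≤ Real.exp (c * b) * ‖f‖ := by
  have hcont := h.continuousOn f
  have hcontg := h.continuousOn g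
  have key := le_gronwallBound_of_liminf_deriv_right_le (f := fun t => ‖T t f‖)
    (f' := fun t => c * ‖T t f‖) (δ := ‖f‖) (K := c) (ε := 0) (a := 0) (b := b)
    ((hcont.mono Icc_subset_Ici_self).norm) ?_ (by rw [h.zero_apply])
    (fun x _ => by rw [add_zero]) b ⟨hb, le_rfl⟩
  · rw [gronwallBound_ε0, sub_zero] at key
    linarith
  · intro x hx r hr
    apply Eventually.frequently
    have hx0 : 0 ≤ x := hx.1
    -- limit of the upper bound
    have l1 : Tendsto (fun z => ‖T z f‖) (𝓝[>] x) (𝓝 ‖T x f‖) :=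
      (((hcont x hx0).mono_left (nhdsWithin_mono x
        (fun z hz => (hx0.trans (le_of_lt hz) : (0 : ℝ) ≤ z)))).norm)
    have l2 : Tendsto (fun z => ‖(((z - x : ℝ) : ℂ)⁻¹) • (T z f - T x f) - T x g‖) (𝓝[>] x)
        (𝓝 0) := by
      have := ((h.right_deriv hg hx0).sub_const (T x g)).norm
      rwa [sub_self, norm_zero] at this
    have l3 : Tendsto (fun z => ‖T x g - T z g‖) (𝓝[>] x) (𝓝 0) := by
      have h1 : Tendsto (fun z => T z g) (𝓝[>] x) (𝓝 (T x g)) :=
        ((hcontg x hx0).mono_left (nhdsWithin_mono x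
          (fun z hz => (hx0.trans (le_of_lt hz) : (0 : ℝ) ≤ z))))
      have := (h1.const_sub (T x g)).norm
      rwa [sub_self, norm_zero] at this
    have l4 : Tendsto (fun z => c * ‖T z f‖ + ‖(((z - x : ℝ) : ℂ)⁻¹) • (T z f - T x f) - T x g‖
        + ‖T x g - T z g‖) (𝓝[>] x) (𝓝 (c * ‖T x f‖ + 0 + 0)) :=
      ((l1.const_mul c).add l2).add l3
    rw [add_zero, add_zero] at l4
    have hsmall : ∀ᶠ z in 𝓝[>] x, (z - x) * (|c| + 1) < 1 := by
      have : Continuous fun z : ℝ => (z - x) * (|c| + 1) := by fun_prop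
      have h3 := this.tendsto x
      rw [sub_self, zero_mul] at h3
      exact (h3.mono_left nhdsWithin_le_nhds).eventually_lt_const (by norm_num)
    filter_upwards [l4.eventually_lt_const hr, hsmall, self_mem_nhdsWithin] with z hz1 hz2 hz3
    refine lt_of_le_of_lt ?_ hz1
    set η : ℝ := z - x with hη
    have hη0 : 0 < η := sub_pos.2 hz3
    have hcη : c < η⁻¹ := by
      have h6 : c * η < 1 := by
        have : c ≤ |c| := le_abs_self c
        nlinarith
      exact lt_of_mul_lt_mul_right (by rw [inv_mul_cancel₀ hη0.ne']; exact h6) hη0.le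
    have hz0 : 0 ≤ z := hx0.trans hz3.le
    have hd := hdiss (T z f) (T z g) (h.isGen_apply hg hz0) η⁻¹ hcη
    have e1 : ‖((η⁻¹ : ℝ) : ℂ) • T z f - T z g‖ ≤ η⁻¹ * ‖T x f‖ +
        ‖((η : ℂ)⁻¹) • (T z f - T x f) - T x g‖ + ‖T x g - T z g‖ := by
      have e2 : ((η⁻¹ : ℝ) : ℂ) • T z f - T z g = ((η : ℂ)⁻¹) • T x f +
          (((η : ℂ)⁻¹) • (T z f - T x f) - T x g) + (T x g - T z g) := by
        rw [Complex.ofReal_inv, smul_sub]; abel
      rw [e2]
      refine (norm_add_le _ _).trans ?_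
      gcongr
      refine (norm_add_le _ _).trans ?_
      gcongr
      rw [norm_smul, norm_inv, Complex.norm_real, Real.norm_of_nonneg hη0.le]
    have e3 := hd.trans e1
    show η⁻¹ * (‖T z f‖ - ‖T x f‖) ≤ _
    linarith

end Basic

end Pool.Agent.MP_21eaa0_an
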