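import Pool.Agent.MP_21eaa0_an.Wiener

/-!
Weighted shifts on `ℓ^p(G; F)`.
-/

open Filter Topology
open scoped ENNReal

namespace Pool.Agent.MP_21eaa0_an

section Shift

variable {G : Type*} [AddCommGroup G] {F : Type*} [NormedAddCommGroup F] [NormedSpace ℂ F]
variable {p : ℝ≥0∞} [hp1 : Fact (1 ≤ p)]

theorem sd_aux (hp : 0 < p.toReal) (k : G) (b : G → F →L[ℂ] F) {C : ℝ} (hC0 : 0 ≤ C)
    (hC : ∀ i, ‖b i‖ ≤ C) (f : lp (fun _ : G => F) p) :
    (Summable fun i => ‖b i (f (i - k))‖ ^ p.toReal) ∧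
      ∑' i, ‖b i (f (i - k))‖ ^ p.toReal ≤ (C * ‖f‖) ^ p.toReal := by
  have hs : Summable fun i => ‖f i‖ ^ p.toReal := (lp.memℓp f).summable hp
  have hs2 : Summable fun i => ‖f (i - k)‖ ^ p.toReal :=
    (Equiv.subRight k).summable_iff.2 hs
  have hle : ∀ i, ‖b i (f (i - k))‖ ^ p.toReal ≤ C ^ p.toReal * ‖f (i - k)‖ ^ p.toReal := by
    intro i
    rw [← Real.mul_rpow hC0 (norm_nonneg _)]
    apply Real.rpow_le_rpow (norm_nonneg _) _ hp.le
    exact (b i).le_of_opNorm_le (hC i) _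
  have hs3 : Summable fun i => ‖b i (f (i - k))‖ ^ p.toReal := by
    refine Summable.of_nonneg_of_le (fun i => by positivity) hle (hs2.mul_left _)
  refine ⟨hs3, ?_⟩
  calc ∑' i, ‖b i (f (i - k))‖ ^ p.toReal
      ≤ ∑' i, C ^ p.toReal * ‖f (i - k)‖ ^ p.toReal := hs3.tsum_le_tsum hle (hs2.mul_left _)
    _ = C ^ p.toReal * ∑' i, ‖f (i - k)‖ ^ p.toReal := tsum_mul_left
    _ = C ^ p.toReal * ∑' i, ‖f i‖ ^ p.toReal := by
        congr 1
        exact (Equiv.subRight k).tsum_eq (fun i => ‖f i‖ ^ p.toReal)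
    _ = (C * ‖f‖) ^ p.toReal := by
        rw [Real.mul_rpow hC0 (norm_nonneg _), lp.norm_rpow_eq_tsum hp]

/-- The weighted shift `(sd f) i = b i (f (i - k))`. -/
noncomputable def sd (hp : 0 < p.toReal) (k : G) (b : G → F →L[ℂ] F) {C : ℝ} (hC0 : 0 ≤ C)
    (hC : ∀ i, ‖b i‖ ≤ C) : lp (fun _ : G => F) p →L[ℂ] lp (fun _ : G => F) p :=
  LinearMap.mkContinuous
    { toFun := fun f => ⟨fun i => b i (f (i - k)), memℓp_gen (sd_aux hp k b hC0 hC f).1⟩
      map_add' := by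
        intro f g
        ext i
        exact map_add (b i) _ _
      map_smul' := by
        intro c f
        ext i
        exact map_smul (b i) _ _ } C (by
      intro f
      apply lp.norm_le_of_tsum_le hp (by positivity)
      exact (sd_aux hp k b hC0 hC f).2)

@[simp]
theorem sd_apply (hp : 0 < p.toReal) (k : G) (b : G → F →L[ℂ] F) {C : ℝ} (hC0 : 0 ≤ C)
    (hC : ∀ i, ‖b i‖ ≤ C) (f : lp (fun _ : G => F) p) (i : G) :
    sd hp k b hC0 hC f i = b i (f (i - k)) := rfl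

theorem norm_sd_le (hp : 0 < p.toReal) (k : G) (b : G → F →L[ℂ] F) {C : ℝ} (hC0 : 0 ≤ C)
    (hC : ∀ i, ‖b i‖ ≤ C) : ‖sd (p := p) hp k b hC0 hC‖ ≤ C :=
  LinearMap.mkContinuous_norm_le _ hC0 _

end Shift

end Pool.Agent.MP_21eaa0_an
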