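import Pool.Agent.MP_21eaa0_an.ConvOp

/-!
Truncated convolutions map `L^1` into the amalgam of `L^2` with `ℓ^1`.
-/

open Filter Topology MeasureTheory
open scoped ENNReal ComplexConjugate

namespace Pool.Agent.MP_21eaa0_an

variable {d : ℕ}

/-- the finite index set of the truncation -/
noncomputable def trF (d N : ℕ) : Finset (Fin d → ℤ) :=
  Fintype.piFinset (fun _ : Fin d => Finset.Icc (-(N : ℤ)) N)

/-- the local `L^1` mass seen from the cube `i` -/
noncomputable def locMass (N : ℕ) (f : (Fin d → ℝ) → ℂ) (i : Fin d → ℤ) : ℝ≥0∞ :=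
  N * ∑ c ∈ trF d N, ∑ e : Fin d → Bool, ∫⁻ y in cube (i - c - sh e), ‖f y‖ₑ

theorem cv_tr_le (k : (Fin d → ℝ) → ℝ) (N : ℕ) (f : (Fin d → ℝ) → ℂ) (hf : Measurable f)
    {i : Fin d → ℤ} {x : Fin d → ℝ} (hx : x ∈ cube i) :
    ‖cv (tr k N) f x‖ₑ ≤ locMass N f i := by
  refine (enorm_cv_le _ _ _).trans ?_
  unfold cE locMass
  have h1 : ∀ y, ‖tr k N (x - y)‖ₑ * ‖f y‖ₑ ≤
      N * ∑ c ∈ trF d N, ∑ e : Fin d → Bool, (cube (i - c - sh e)).indicator
        (fun y => ‖f y‖ₑ) y := by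
    intro y
    by_cases h : ‖k (x - y)‖ ≤ N ∧ cidx (x - y) ∈ trF d N
    · apply mul_le_mul'
      · rw [← ofReal_norm]
        refine (ENNReal.ofReal_le_ofReal (norm_tr_le' k N (x - y))).trans ?_
        rw [ENNReal.ofReal_natCast]
      · obtain ⟨e, he⟩ := exists_sh x y
        have hx' : cidx x = i := hx
        rw [hx'] at he
        have hy : y ∈ cube (i - cidx (x - y) - sh e) := by
          show cidx y = _
          rw [he]; abel
        have h2 : (cube (i - cidx (x - y) - sh e)).indicator (fun y => ‖f y‖ₑ) y = ‖f y‖ₑ :=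
          Set.indicator_of_mem hy _
        rw [← h2]
        refine le_trans ?_ (Finset.single_le_sum
          (f := fun c => ∑ e : Fin d → Bool, (cube (i - c - sh e)).indicator
            (fun y => ‖f y‖ₑ) y) (fun _ _ => zero_le) h.2)
        exact Finset.single_le_sum
          (f := fun e => (cube (i - cidx (x - y) - sh e)).indicator (fun y => ‖f y‖ₑ) y)
          (fun _ _ => zero_le) (Finset.mem_univ e)
    · have : tr k N (x - y) = 0 := if_neg h
      rw [this]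
      simp
  have hm : Measurable fun y => ‖f y‖ₑ := hf.enorm
  calc ∫⁻ y, ‖tr k N (x - y)‖ₑ * ‖f y‖ₑ
      ≤ ∫⁻ y, N * ∑ c ∈ trF d N, ∑ e : Fin d → Bool, (cube (i - c - sh e)).indicator
        (fun y => ‖f y‖ₑ) y := lintegral_mono h1
    _ = N * ∑ c ∈ trF d N, ∑ e : Fin d → Bool, ∫⁻ y in cube (i - c - sh e), ‖f y‖ₑ := by
        have hm2 : ∀ c e, Measurable ((cube (i - c - sh e)).indicator (fun y => ‖f y‖ₑ)) :=
          fun c e => hm.indicator (measurableSet_cube _)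
        rw [lintegral_const_mul _ (Finset.measurable_fun_sum _ fun c _ =>
          Finset.measurable_fun_sum _ fun e _ => hm2 c e)]
        congr 1
        rw [lintegral_finsetSum _ fun c _ => Finset.measurable_fun_sum _ fun e _ => hm2 c e]
        apply Finset.sum_congr rfl
        intro c _
        rw [lintegral_finsetSum _ fun e _ => hm2 c e]
        apply Finset.sum_congr rfl
        intro e _
        rw [lintegral_indicator (measurableSet_cube _)]

theorem tsum_locMass (N : ℕ) (f : L1 d) :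
    ∑' i, locMass N (f : (Fin d → ℝ) → ℂ) i = (N * ((trF d N).card * 2 ^ d : ℕ) : ℝ≥0∞) * ‖f‖ₑ := by
  unfold locMass
  rw [ENNReal.tsum_mul_left, mul_assoc]
  congr 1
  rw [Summable.tsum_finsetSum (fun _ _ => ENNReal.summable)]
  have h : ∀ c : Fin d → ℤ, ∑' i : Fin d → ℤ, ∑ e : Fin d → Bool,
      ∫⁻ y in cube (i - c - sh e), ‖f y‖ₑ = (2 ^ d : ℕ) * ‖f‖ₑ := by
    intro c
    rw [Summable.tsum_finsetSum (fun _ _ => ENNReal.summable)]
    have h2 : ∀ e : Fin d → Bool, ∑' i : Fin d → ℤ, ∫⁻ y in cube (i - c - sh e), ‖f y‖ₑ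
        = ‖f‖ₑ := by
      intro e
      rw [enorm_L1, lintegral_eq_tsum_cube]
      simp_rw [sub_sub]
      exact (Equiv.subRight (c + sh e)).tsum_eq (fun c => ∫⁻ y in cube c, ‖f y‖ₑ)
    simp_rw [h2]
    rw [Finset.sum_const, Finset.card_univ, nsmul_eq_mul]
    simp
  simp_rw [h]
  rw [Finset.sum_const, nsmul_eq_mul, Nat.cast_mul, mul_assoc]

theorem smooth {k : (Fin d → ℝ) → ℝ} (hk : Ker k) (N : ℕ) :
    ∃ c : ℝ, 0 ≤ c ∧ ∀ f : L1 d, ∃ y : (Fin d → ℤ) → L2 d, (Summable fun j => ‖y j‖) ∧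
      (hk.tr N).op f = ∑' j, JJ j (y j) ∧ ∑' j, ‖y j‖ ≤ c * ‖f‖ := by
  refine ⟨(N * ((trF d N).card * 2 ^ d : ℕ) : ℝ≥0∞).toReal, ENNReal.toReal_nonneg, fun f => ?_⟩
  have hfm : Measurable (f : (Fin d → ℝ) → ℂ) := (Lp.stronglyMeasurable f).measurable
  set g : (Fin d → ℝ) → ℂ := cv (tr k N) f with hg
  have hgm : StronglyMeasurable g := (hk.tr N).stronglyMeasurable_cv f
  have htot : ∑' i, locMass N (f : (Fin d → ℝ) → ℂ) i ≠ ⊤ := by
    rw [tsum_locMass]
    exact ENNReal.mul_ne_top (by simp [ENNReal.mul_eq_top]) enorm_ne_top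
  have hloc : ∀ i, eLpNorm ((cube i).indicator g) 2 volume ≤ locMass N (f : (Fin d → ℝ) → ℂ) i := by
    intro i
    rw [← ENNReal.pow_le_pow_left_iff (n := 2) (by norm_num), eLpNorm_two_sq]
    calc ∫⁻ x, ‖(cube i).indicator g x‖ₑ ^ 2
        ≤ ∫⁻ x, (cube i).indicator (fun _ => locMass N (f : (Fin d → ℝ) → ℂ) i ^ 2) x := by
          apply lintegral_mono
          intro x
          show ‖(cube i).indicator g x‖ₑ ^ 2 ≤ (cube i).indicator _ x
          by_cases h : x ∈ cube i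
          · rw [Set.indicator_of_mem h, Set.indicator_of_mem h]
            gcongr
            exact cv_tr_le k N f hfm h
          · rw [Set.indicator_of_notMem h, Set.indicator_of_notMem h]; simp
      _ = locMass N (f : (Fin d → ℝ) → ℂ) i ^ 2 := by
          rw [lintegral_indicator (measurableSet_cube i), setLIntegral_const, volume_cube, mul_one]
  have hmem : ∀ i, MemLp ((cube i).indicator g) 2 volume := fun i =>
    ⟨(hgm.indicator (measurableSet_cube i)).aestronglyMeasurable,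
      (hloc i).trans_lt (ENNReal.ne_top_of_tsum_ne_top htot i).lt_top⟩
  have hny : ∀ i, ‖(hmem i).toLp _‖ ≤ (locMass N (f : (Fin d → ℝ) → ℂ) i).toReal := by
    intro i
    rw [Lp.norm_toLp]
    exact ENNReal.toReal_mono (ENNReal.ne_top_of_tsum_ne_top htot i) (hloc i)
  have hsum : Summable fun i => (locMass N (f : (Fin d → ℝ) → ℂ) i).toReal :=
    ENNReal.summable_toReal htot
  have hys : Summable fun i => ‖(hmem i).toLp ((cube i).indicator g)‖ :=
    Summable.of_nonneg_of_le (fun _ => norm_nonneg _) hny hsum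
  refine ⟨fun i => (hmem i).toLp _, hys, ?_, ?_⟩
  · have hsJ : Summable fun i => JJ i ((hmem i).toLp ((cube i).indicator g)) :=
      Summable.of_norm_bounded hys fun i => norm_JJ_le i _
    apply rho_ext
    intro m
    rw [ContinuousLinearMap.map_tsum _ hsJ, tsum_eq_single m, rho_JJ_same]
    · apply Lp.ext
      filter_upwards [coeFn_rho m ((hk.tr N).op f), (hk.tr N).coeFn_op f,
        coeFn_JJ m ((hmem m).toLp ((cube m).indicator g)), (hmem m).coeFn_toLp] with x h1 h2 h3 h4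
      rw [h1, h3]
      by_cases h : x ∈ cube m
      · rw [Set.indicator_of_mem h, Set.indicator_of_mem h, h2, h4, Set.indicator_of_mem h]
      · rw [Set.indicator_of_notMem h, Set.indicator_of_notMem h]
    · intro i hi
      exact rho_JJ_ne (Ne.symm hi) _
  · calc ∑' i, ‖(hmem i).toLp ((cube i).indicator g)‖
        ≤ ∑' i, (locMass N (f : (Fin d → ℝ) → ℂ) i).toReal := hys.tsum_le_tsum hny hsum
      _ = (∑' i, locMass N (f : (Fin d → ℝ) → ℂ) i).toReal :=
          (ENNReal.tsum_toReal_eq fun i => ENNReal.ne_top_of_tsum_ne_top htot i).symm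
      _ = (N * ((trF d N).card * 2 ^ d : ℕ) : ℝ≥0∞).toReal * ‖f‖ := by
          rw [tsum_locMass, ENNReal.toReal_mul, toReal_enorm]

/-- The abstract theorem: an operator `R` on `L^1(ℝ^d)` which is Hermitian, dominated by a
convolution, and the strong limit of operators `B G_n` with `G_n` bounded, has real spectrum. -/
theorem spectrum_real {k : (Fin d → ℝ) → ℝ} (hk : Ker k) {K : (Fin d → ℝ) → ℝ≥0∞}
    (hK : Measurable K) (hKi : ∫⁻ z, K z ≠ ⊤) {R : L1 d →L[ℂ] L1 d} (hR : Dom K R) (hH : Herm R)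
    (c₀ : ℝ) (hc₀ : 0 < c₀)
    (happ : ∀ g : L1 d, ∀ ε > 0, ∃ h : L1 d, ‖h‖ ≤ c₀ * ‖g‖ ∧ ‖R g - hk.op h‖ ≤ ε) :
    ∀ w ∈ spectrum ℂ R, w.im = 0 := by
  apply spectrum_real_of_surj
  intro w hw
  have hw0 : w ≠ 0 := by
    rintro rfl
    exact hw rfl
  have hwn : 0 < ‖w‖ := norm_pos_iff.2 hw0
  obtain ⟨N, hN⟩ : ∃ N : ℕ, (∫⁻ z, ‖k z - tr k N z‖ₑ) < ENNReal.ofReal (‖w‖ / (4 * c₀)) := by
    have h := hk.tendsto_sub_tr
    have hpos : (0 : ℝ≥0∞) < ENNReal.ofReal (‖w‖ / (4 * c₀)) := by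
      rw [ENNReal.ofReal_pos]; positivity
    exact (h.eventually_lt_const hpos).exists
  have hN' : (∫⁻ z, ‖k z - tr k N z‖ₑ).toReal ≤ ‖w‖ / (4 * c₀) := by
    have h3 := ENNReal.toReal_mono ENNReal.ofReal_ne_top hN.le
    rwa [ENNReal.toReal_ofReal (by positivity)] at h3
  obtain ⟨C, hC0, hC⟩ := sum_solve hK hKi hR hH hw
  obtain ⟨c, hc0, hc⟩ := smooth hk N
  refine ⟨2 * (1 / ‖w‖ * (1 + C * (c * c₀))), by positivity, ?_⟩
  apply approx_surj _ (1 / ‖w‖ * (1 + C * (c * c₀))) (by positivity)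
  intro g
  by_cases hg : g = 0
  · subst hg
    exact ⟨0, by simp, by simp⟩
  have hgn : 0 < ‖g‖ := norm_pos_iff.2 hg
  obtain ⟨h, hh1, hh2⟩ := happ g (‖w‖ / 4 * ‖g‖) (by positivity)
  obtain ⟨y, hys, hy1, hy2⟩ := hc h
  obtain ⟨U, hU1, hU2⟩ := hC y hys
  rw [← hy1] at hU1
  refine ⟨w⁻¹ • (g + U), ?_, ?_⟩
  · rw [norm_smul, norm_inv, inv_eq_one_div, mul_assoc]
    gcongr
    calc ‖g + U‖ ≤ ‖g‖ + ‖U‖ := norm_add_le _ _
      _ ≤ ‖g‖ + C * (c * (c₀ * ‖g‖)) := by
          gcongr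
          refine hU2.trans ?_
          gcongr
          refine hy2.trans ?_
          gcongr
      _ = (1 + C * (c * c₀)) * ‖g‖ := by ring
  · have e1 : (algebraMap ℂ (L1 d →L[ℂ] L1 d) w - R) (w⁻¹ • (g + U))
        = w⁻¹ • ((w • g - R g) + (w • U - R U)) := by
      rw [map_smul]
      congr 1
      rw [map_add]
      congr 1 <;>
      · rw [Algebra.algebraMap_eq_smul_one]; rfl
    have e2 : hk.op h = (hk.tr N).op h + (hk.sub_tr N).op h :=
      Ker.op_add (hk.tr N) (hk.sub_tr N) hk (fun z => by ring) h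
    have e3 : g - (algebraMap ℂ (L1 d →L[ℂ] L1 d) w - R) (w⁻¹ • (g + U))
        = w⁻¹ • ((R g - hk.op h) + (hk.sub_tr N).op h) := by
      rw [e1, hU1, e2]
      have : g = w⁻¹ • (w • g) := by rw [smul_smul, inv_mul_cancel₀ hw0, one_smul]
      nth_rewrite 1 [this]
      rw [← smul_sub]
      congr 1
      abel
    rw [e3, norm_smul, norm_inv]
    have e4 : ‖(hk.sub_tr N).op h‖ ≤ ‖w‖ / 4 * ‖g‖ := by
      calc ‖(hk.sub_tr N).op h‖ ≤ (∫⁻ z, ‖k z - tr k N z‖ₑ).toReal * ‖h‖ :=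
            (hk.sub_tr N).norm_op_le h
        _ ≤ ‖w‖ / (4 * c₀) * (c₀ * ‖g‖) := by gcongr
        _ = ‖w‖ / 4 * ‖g‖ := by field_simp
    calc ‖w‖⁻¹ * ‖(R g - hk.op h) + (hk.sub_tr N).op h‖
        ≤ ‖w‖⁻¹ * (‖w‖ / 4 * ‖g‖ + ‖w‖ / 4 * ‖g‖) := by
          gcongr
          exact (norm_add_le _ _).trans (add_le_add hh2 e4)
      _ = 1 / 2 * ‖g‖ := by field_simp; ring

end Pool.Agent.MP_21eaa0_an
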