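import Pool.Agent.MP_21eaa0_an.Abs

/-!
The unperturbed convolution semigroup.
-/

open Filter Topology MeasureTheory
open scoped ENNReal ComplexConjugate

namespace Pool.Agent.MP_21eaa0_an

variable {d : ℕ}

/-- `IsConvOp` for operators on `Lp ℂ 1 volume` -/
def IsConvOpL (m : ℝ → Measure (Fin d → ℝ)) (M : ℝ → L1 d →L[ℂ] L1 d) : Prop :=
  ∀ t : ℝ, 0 ≤ t → ∀ f : L1 d,
    (M t f : (Fin d → ℝ) → ℂ) =ᵐ[volume] fun x => ∫ y, f (x - y) ∂(m t)

/-- translation on `L^1` -/
noncomputable def tau (y : Fin d → ℝ) (f : L1 d) : L1 d :=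
  Lp.compMeasurePreserving (fun x => x - y) (measurePreserving_sub_right volume y) f

theorem coeFn_tau (y : Fin d → ℝ) (f : L1 d) :
    (tau y f : (Fin d → ℝ) → ℂ) =ᵐ[volume] fun x => f (x - y) :=
  Lp.coeFn_compMeasurePreserving f _

theorem norm_tau (y : Fin d → ℝ) (f : L1 d) : ‖tau y f‖ = ‖f‖ :=
  Lp.norm_compMeasurePreserving f _

theorem tau_zero (f : L1 d) : tau 0 f = f := by
  apply Lp.ext
  filter_upwards [coeFn_tau 0 f] with x hx
  rw [hx, sub_zero]

theorem continuous_tau (f : L1 d) : Continuous fun y => tau y f := by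
  let F : C((Fin d → ℝ) × (Fin d → ℝ), Fin d → ℝ) :=
    ⟨fun p => p.2 - p.1, by fun_prop⟩
  have hF : Continuous fun y : Fin d → ℝ => F.curry y := F.curry.continuous
  exact Continuous.compMeasurePreservingLp (f := fun _ : Fin d → ℝ => f)
    (g := fun y => F.curry y) continuous_const hF
    (fun y => measurePreserving_sub_right volume y) ENNReal.one_ne_top

section

variable {m : ℝ → Measure (Fin d → ℝ)} (hm : IsSymmConvSemigroup m)

include hm

theorem IsSymmConvSemigroup.finite {t : ℝ} (ht : 0 ≤ t) : IsFiniteMeasure (m t) :=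
  ⟨(hm.mass_le t ht).trans_lt ENNReal.one_lt_top⟩

theorem IsSymmConvSemigroup.real_mass_le {t : ℝ} (ht : 0 ≤ t) : (m t).real Set.univ ≤ 1 := by
  rw [measureReal_def]
  exact ENNReal.toReal_le_of_le_ofReal zero_le_one (by simpa using hm.mass_le t ht)

/-- weak convergence against bounded continuous functions -/
theorem IsSymmConvSemigroup.weak {ψ : (Fin d → ℝ) → ℝ} (hψ : Continuous ψ) {C : ℝ}
    (hC : ∀ x, ‖ψ x‖ ≤ C) : Tendsto (fun t => ∫ x, ψ x ∂(m t)) (𝓝[>] 0) (𝓝 (ψ 0)) := by
  have hC0 : 0 ≤ C := (norm_nonneg _).trans (hC 0)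
  set φ : (Fin d → ℝ) → ℝ := fun x => max 0 (1 - ‖x‖) with hφ
  have hφc : Continuous φ := by fun_prop
  have hφs : HasCompactSupport φ := by
    apply HasCompactSupport.intro (isCompact_closedBall (0 : Fin d → ℝ) 1)
    intro x hx
    rw [Metric.mem_closedBall, dist_zero_right, not_le] at hx
    exact max_eq_left (by linarith)
  have hφ0 : φ 0 = 1 := by simp [hφ]
  have hφ1 : ∀ x, φ x ≤ 1 := fun x => max_le zero_le_one (by linarith [norm_nonneg x])
  have hφn : ∀ x, 0 ≤ φ x := fun x => le_max_left _ _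
  have l1 := hm.vague φ hφc hφs
  have l2 := hm.vague (fun x => ψ x * φ x) (hψ.mul hφc) hφs.mul_left
  rw [hφ0] at l1
  simp only [hφ0, mul_one] at l2
  have hint : ∀ t, 0 ≤ t → ∀ g : (Fin d → ℝ) → ℝ, Continuous g → ∀ D : ℝ, (∀ x, ‖g x‖ ≤ D) →
      Integrable g (m t) := by
    intro t ht g hg D hD
    have := hm.finite ht
    exact Integrable.of_bound hg.aestronglyMeasurable D (Eventually.of_forall hD)
  have l3 : Tendsto (fun t => ∫ x, ψ x * (1 - φ x) ∂(m t)) (𝓝[>] 0) (𝓝 0) := by
    rw [tendsto_zero_iff_norm_tendsto_zero]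
    have l4 : Tendsto (fun t => C * (1 - ∫ x, φ x ∂(m t))) (𝓝[>] 0) (𝓝 0) := by
      have := (l1.const_sub 1).const_mul C
      rwa [sub_self, mul_zero] at this
    refine squeeze_zero' (Eventually.of_forall fun _ => norm_nonneg _) ?_ l4
    filter_upwards [self_mem_nhdsWithin] with t ht
    have ht0 : 0 ≤ t := (Set.mem_Ioi.1 ht).le
    have := hm.finite ht0
    have i1 : Integrable (fun x => 1 - φ x) (m t) := hint t ht0 _ (by fun_prop) 1 (fun x => by
      rw [Real.norm_of_nonneg (by linarith [hφ1 x])]; linarith [hφn x])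
    have i2 : Integrable φ (m t) := hint t ht0 _ hφc 1 (fun x => by
      rw [Real.norm_of_nonneg (hφn x)]; exact hφ1 x)
    calc ‖∫ x, ψ x * (1 - φ x) ∂(m t)‖ ≤ ∫ x, C * (1 - φ x) ∂(m t) := by
          apply norm_integral_le_of_norm_le (i1.const_mul C)
          filter_upwards with x
          rw [norm_mul, Real.norm_of_nonneg (by linarith [hφ1 x] : (0 : ℝ) ≤ 1 - φ x)]
          exact mul_le_mul_of_nonneg_right (hC x) (by linarith [hφ1 x])
      _ = C * ((m t).real Set.univ - ∫ x, φ x ∂(m t)) := by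
          rw [integral_const_mul, integral_sub (integrable_const 1) i2]
          simp
      _ ≤ C * (1 - ∫ x, φ x ∂(m t)) := by
          gcongr
          exact hm.real_mass_le ht0
  have l5 := l2.add l3
  rw [add_zero] at l5
  refine l5.congr' ?_
  filter_upwards [self_mem_nhdsWithin] with t ht
  have ht0 : 0 ≤ t := (Set.mem_Ioi.1 ht).le
  have i1 : Integrable (fun x => ψ x * φ x) (m t) := hint t ht0 _ (hψ.mul hφc) C (fun x => by
    rw [norm_mul, Real.norm_of_nonneg (hφn x)]
    nlinarith [hC x, hφ1 x, hφn x, norm_nonneg (ψ x)])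
  have i2 : Integrable (fun x => ψ x * (1 - φ x)) (m t) := hint t ht0 _ (by fun_prop) C (fun x => by
    rw [norm_mul, Real.norm_of_nonneg (by linarith [hφ1 x] : (0 : ℝ) ≤ 1 - φ x)]
    nlinarith [hC x, hφ1 x, hφn x, norm_nonneg (ψ x)])
  rw [← integral_add i1 i2]
  congr 1
  funext x
  ring

variable {M : ℝ → L1 d →L[ℂ] L1 d} (hM : IsConvOpL m M)

include hM

theorem conv_norm_le {t : ℝ} (ht : 0 ≤ t) (f : L1 d) : ‖M t f‖ ≤ ‖f‖ := by
  have := hm.finite ht
  exact norm_conv_le (hM t ht) (hm.mass_le t ht) f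

theorem conv_pos {t : ℝ} (ht : 0 ≤ t) : Pos (M t) := by
  have := hm.finite ht
  exact pos_conv (hM t ht)

theorem conv_herm {t : ℝ} (ht : 0 ≤ t) : Herm (M t) := by
  have := hm.finite ht
  exact herm_conv (hM t ht) (hm.symm t ht)

theorem conv_zero : M 0 = ContinuousLinearMap.id ℂ (L1 d) := by
  ext1 f
  apply Lp.ext
  filter_upwards [hM 0 le_rfl f] with x hx
  rw [hx, hm.zero, integral_dirac, sub_zero]
  rfl

theorem conv_add {s t : ℝ} (hs : 0 ≤ s) (ht : 0 ≤ t) : M (s + t) = (M s).comp (M t) := by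
  have fs := hm.finite hs
  have ft := hm.finite ht
  have fst := hm.finite (add_nonneg hs ht)
  ext1 f
  apply Lp.ext
  have h1 := hM (s + t) (add_nonneg hs ht) f
  have h2 := hM s hs (M t f)
  have h3 := cm_congr (ν := m s) (hM t ht f)
  have h4 := ae_integrable_sub (ν := m (s + t)) (measurable_Lp f) (lintegral_Lp_ne_top f)
  filter_upwards [h1, h2, h3, h4] with x e1 e2 e3 e4
  rw [e1]
  show _ = (M s (M t f)) x
  rw [e2]
  have e3' : ∫ y, (M t f) (x - y) ∂(m s) = ∫ u, (∫ v, f (x - u - v) ∂(m t)) ∂(m s) := e3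
  rw [e3']
  have hmeas : Measurable fun p : (Fin d → ℝ) × (Fin d → ℝ) => p.1 + p.2 := by fun_prop
  have hfm : Measurable fun y => f (x - y) := (measurable_Lp f).comp (measurable_const.sub measurable_id)
  rw [hm.conv s t hs ht] at e4 ⊢
  rw [integral_map hmeas.aemeasurable hfm.aestronglyMeasurable]
  rw [integrable_map_measure hfm.aestronglyMeasurable hmeas.aemeasurable] at e4
  have e5 := integral_prod _ e4
  refine Eq.trans e5 ?_
  congr 1
  funext u
  congr 1
  funext v
  show f (x - (u + v)) = f (x - u - v)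
  rw [sub_sub]

/-- norm of the difference `M t f - f` -/
theorem conv_sub_le {t : ℝ} (ht : 0 ≤ t) (f : L1 d) :
    ‖M t f - f‖ ≤ (∫ y, ‖tau y f - f‖ ∂(m t)) + (1 - (m t).real Set.univ) * ‖f‖ := by
  have ft := hm.finite ht
  have hfm := measurable_Lp f
  -- joint function
  have hI0 : Integrable (fun p : (Fin d → ℝ) × (Fin d → ℝ) => f (p.1 - p.2)) (volume.prod (m t)) :=
    integrable_sub_prod hfm (lintegral_Lp_ne_top f)
  have hI1 : Integrable (fun p : (Fin d → ℝ) × (Fin d → ℝ) => f p.1) (volume.prod (m t)) :=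
    (integrable_Lp f).comp_fst (m t)
  have hI := hI0.sub hI1
  have hIn := hI.norm
  have e1 : ∀ y, ∫ x, ‖f (x - y) - f x‖ = ‖tau y f - f‖ := by
    intro y
    rw [L1.norm_eq_integral_norm]
    apply integral_congr_ae
    filter_upwards [Lp.coeFn_sub (tau y f) f, coeFn_tau y f] with x h1 h2
    rw [h1, Pi.sub_apply, h2]
  have e2 : ∫ x, ∫ y, ‖f (x - y) - f x‖ ∂(m t) = ∫ y, ‖tau y f - f‖ ∂(m t) := by
    have := integral_integral_swap (f := fun x y => ‖f (x - y) - f x‖) hIn
    rw [this]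
    congr 1
    funext y
    exact e1 y
  have hIl : Integrable (fun x => ∫ y, ‖f (x - y) - f x‖ ∂(m t)) := hIn.integral_prod_left
  rw [← e2, L1.norm_eq_integral_norm, L1.norm_eq_integral_norm f, ← integral_const_mul,
    ← integral_add hIl ((integrable_Lp f).norm.const_mul _)]
  apply integral_mono_ae (integrable_Lp _).norm
    (hIl.add ((integrable_Lp f).norm.const_mul _))
  filter_upwards [Lp.coeFn_sub (M t f) f, hM t ht f,
    ae_integrable_sub (ν := m t) hfm (lintegral_Lp_ne_top f)] with x h1 h2 h3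
  show ‖(M t f - f : L1 d) x‖ ≤ (∫ y, ‖f (x - y) - f x‖ ∂(m t)) + (1 - (m t).real Set.univ) * ‖f x‖
  rw [h1, Pi.sub_apply, h2]
  have e3 : (∫ y, f (x - y) ∂(m t)) - f x = (∫ y, (f (x - y) - f x) ∂(m t))
      - ((1 - (m t).real Set.univ : ℝ) : ℂ) * f x := by
    rw [integral_sub h3 (integrable_const _), integral_const, Complex.real_smul]
    push_cast
    ring
  rw [e3]
  refine (norm_sub_le _ _).trans ?_
  gcongr
  · exact norm_integral_le_integral_norm _
  · rw [norm_mul, Complex.norm_real, Real.norm_of_nonneg (by linarith [hm.real_mass_le ht])]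

theorem conv_cont (f : L1 d) : Tendsto (fun t => M t f) (𝓝[>] 0) (𝓝 f) := by
  rw [tendsto_iff_norm_sub_tendsto_zero]
  have hψc : Continuous fun y : Fin d → ℝ => ‖tau y f - f‖ := by
    exact ((continuous_tau f).sub continuous_const).norm
  have hψb : ∀ y : Fin d → ℝ, ‖‖tau y f - f‖‖ ≤ 2 * ‖f‖ := by
    intro y
    rw [norm_norm]
    refine (norm_sub_le _ _).trans ?_
    rw [norm_tau]
    linarith
  have l1 := hm.weak hψc hψb
  have hψ0 : ‖tau 0 f - f‖ = 0 := by
    rw [tau_zero, sub_self, norm_zero]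
  rw [hψ0] at l1
  have l2 := hm.weak (ψ := fun _ => (1 : ℝ)) continuous_const (C := 1) (fun x => by simp)
  have l3 : Tendsto (fun t => (∫ y, ‖tau y f - f‖ ∂(m t))
      + (1 - ∫ _x, (1 : ℝ) ∂(m t)) * ‖f‖) (𝓝[>] 0) (𝓝 0) := by
    have := l1.add ((l2.const_sub 1).mul_const ‖f‖)
    simpa using this
  refine squeeze_zero' (Eventually.of_forall fun _ => norm_nonneg _) ?_ l3
  filter_upwards [self_mem_nhdsWithin] with t ht
  have := conv_sub_le hm hM (Set.mem_Ioi.1 ht).le f
  simpa using this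

theorem conv_isC0 : IsC0Semigroup M where
  zero := conv_zero hm hM
  add := fun _ _ hs ht => conv_add hm hM hs ht
  cont := conv_cont hm hM

/-- data of the Laplace transform of the unperturbed semigroup -/
theorem conv_lapData {μ : ℝ} (hμ : 0 < μ) : LapData M 1 0 μ where
  sg := conv_isC0 hm hM
  bound := by
    intro t ht
    rw [zero_mul, Real.exp_zero, mul_one]
    apply ContinuousLinearMap.opNorm_le_bound _ zero_le_one
    intro f
    rw [one_mul]
    exact conv_norm_le hm hM ht f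
  lt := hμ

/-- `∫ Re (M g) ≤ 0` for `g ∈ D(M)` with `Re g ≥ 0`. -/
theorem conv_gen_integral {g h : L1 d} (hg : IsGen M g h) (h0 : ∀ᵐ x, 0 ≤ (g x).re) :
    ∫ x, (h x).re ≤ 0 := by
  have hone : Measurable fun _ : Fin d → ℝ => (1 : ℂ) := measurable_const
  have hb : ∀ᵐ _ : Fin d → ℝ, ‖(1 : ℂ)‖ ≤ 1 := Eventually.of_forall fun _ => by simp
  have hp : ∀ a : L1 d, (pairL hone hb a).re = ∫ x, (a x).re := by
    intro a
    rw [pairL_apply]
    simp only [one_mul]
    exact (integral_re (integrable_Lp a)).symm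
  have l1 : Tendsto (fun t : ℝ => (pairL hone hb (((t : ℂ)⁻¹) • (M t g - g))).re) (𝓝[>] 0)
      (𝓝 (pairL hone hb h).re) :=
    (Complex.continuous_re.tendsto _).comp (((pairL hone hb).continuous.tendsto h).comp hg)
  rw [hp] at l1
  apply le_of_tendsto l1
  filter_upwards [self_mem_nhdsWithin] with t ht
  have ht0 : 0 < t := Set.mem_Ioi.1 ht
  have ft := hm.finite ht0.le
  rw [map_smul, map_sub, pairL_apply, pairL_apply]
  simp only [one_mul]
  rw [integral_conv (hM t ht0.le) g, smul_eq_mul, ← Complex.ofReal_inv, Complex.re_ofReal_mul,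
    Complex.sub_re, Complex.real_smul, Complex.re_ofReal_mul]
  have hg0 : 0 ≤ (∫ x, g x).re := by
    have : (∫ x, g x).re = ∫ x, (g x).re := (integral_re (integrable_Lp g)).symm
    rw [this]
    exact integral_nonneg_of_ae h0
  have hmass := hm.real_mass_le ht0.le
  have : (m t).real Set.univ * (∫ x, g x).re - (∫ x, g x).re ≤ 0 := by nlinarith
  exact mul_nonpos_of_nonneg_of_nonpos (by positivity) this

end

end Pool.Agent.MP_21eaa0_an
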