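import Mathlib

/-!
Operator-valued Wiener lemma (Bochner-Phillips), proved with simple modules.
-/

open Filter Topology

namespace Pool.Agent.MP_21eaa0_an

section Abstract

variable {A : Type*} [NormedRing A] [NormedAlgebra ℂ A] [CompleteSpace A]

/-- A central element acts as a scalar modulo a maximal left ideal. -/
theorem exists_sub_mem (M : Ideal A) (hM : M.IsMaximal) (z : A) (hz : ∀ x, z * x = x * z) :
    ∃ l : ℂ, z - algebraMap ℂ A l ∈ M := by
  set N : Submodule ℂ A := M.restrictScalars ℂ with hN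
  have hmem : ∀ x, x ∈ N ↔ x ∈ M := fun x => Iff.rfl
  have hclosed : IsClosed (N : Set A) := by
    have := Ideal.IsMaximal.isClosed (hI := hM)
    exact this
  have : IsClosed (N : Set A) := hclosed
  have hNtop : N ≠ ⊤ := by
    intro h
    apply hM.ne_top
    rw [Ideal.eq_top_iff_one]
    have : (1 : A) ∈ N := by rw [h]; trivial
    exact this
  have : Nontrivial (A ⧸ N) := Submodule.Quotient.nontrivial_iff.2 hNtop
  let L : A →L[ℂ] A ⧸ N := N.mkQL.comp (ContinuousLinearMap.mul ℂ A z)
  have hL : N ≤ LinearMap.ker L.toLinearMap := by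
    intro x hx
    rw [LinearMap.mem_ker]
    show N.mkQL (z * x) = 0
    rw [Submodule.mkQL_apply, Submodule.mkQ_apply, Submodule.Quotient.mk_eq_zero]
    exact M.mul_mem_left z hx
  let Z : (A ⧸ N) →L[ℂ] (A ⧸ N) := N.liftQL L hL
  have hZ : ∀ x : A, Z (Submodule.Quotient.mk x) = Submodule.Quotient.mk (z * x) := by
    intro x
    show N.liftQL L hL (Submodule.Quotient.mk x) = _
    rw [Submodule.liftQL_apply]
    rfl
  obtain ⟨l, hl⟩ := spectrum.nonempty Z
  refine ⟨l, ?_⟩
  by_contra hw
  apply hl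
  show IsUnit _
  set w : A := algebraMap ℂ A l - z with hwdef
  have hw' : w ∉ M := by
    intro h
    apply hw
    have : z - algebraMap ℂ A l = -w := by rw [hwdef]; abel
    rw [this]
    exact M.neg_mem h
  have hwc : ∀ x, w * x = x * w := by
    intro x
    rw [hwdef, sub_mul, mul_sub, hz, Algebra.commutes]
  have hZw : ∀ x : A, (algebraMap ℂ ((A ⧸ N) →L[ℂ] (A ⧸ N)) l - Z) (Submodule.Quotient.mk x)
      = Submodule.Quotient.mk (w * x) := by
    intro x
    rw [ContinuousLinearMap.sub_apply, hZ, hwdef, sub_mul, Submodule.Quotient.mk_sub]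
    congr 1
    rw [Algebra.algebraMap_eq_smul_one, Algebra.algebraMap_eq_smul_one, smul_mul_assoc, one_mul]
    rfl
  -- the left ideal of all `x` with `w x ∈ M`
  let J : Ideal A :=
    { carrier := {x | w * x ∈ M}
      add_mem' := by
        intro a b ha hb
        show w * (a + b) ∈ M
        rw [mul_add]; exact M.add_mem ha hb
      zero_mem' := by
        show w * 0 ∈ M
        rw [mul_zero]; exact M.zero_mem
      smul_mem' := by
        intro c x hx
        show w * (c • x) ∈ M
        rw [smul_eq_mul, ← mul_assoc, hwc c, mul_assoc]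
        exact M.mul_mem_left c hx }
  have hJ : M = J := by
    apply hM.eq_of_le
    · intro h
      rw [Ideal.eq_top_iff_one] at h
      have h' : w * 1 ∈ M := h
      rw [mul_one] at h'
      exact hw' h'
    · intro x hx
      exact M.mul_mem_left w hx
  have hsup : M ⊔ Ideal.span {w} = ⊤ := by
    have := hM.out.2 (M ⊔ Ideal.span {w})
    apply this
    refine lt_of_le_of_ne le_sup_left ?_
    intro h
    apply hw'
    rw [h]
    exact Ideal.mem_sup_right (Ideal.subset_span rfl)
  rw [ContinuousLinearMap.isUnit_iff_bijective]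
  constructor
  · rw [injective_iff_map_eq_zero]
    intro x hx
    obtain ⟨y, rfl⟩ := Submodule.Quotient.mk_surjective N x
    rw [hZw, Submodule.Quotient.mk_eq_zero] at hx
    rw [Submodule.Quotient.mk_eq_zero, hmem, hJ]
    exact hx
  · intro x
    obtain ⟨y, rfl⟩ := Submodule.Quotient.mk_surjective N x
    have h1 : (1 : A) ∈ M ⊔ Ideal.span {w} := by rw [hsup]; trivial
    obtain ⟨m, hm, v, hv, hmv⟩ := Submodule.mem_sup.1 h1
    obtain ⟨b, hb⟩ := Submodule.mem_span_singleton.1 hv
    rw [smul_eq_mul] at hb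
    refine ⟨Submodule.Quotient.mk (y * b), ?_⟩
    rw [hZw, Submodule.Quotient.eq, hmem]
    have : w * (y * b) - y = - (y * m) := by
      have h2 : y = y * m + y * (b * w) := by
        rw [← mul_add, hb, hmv, mul_one]
      rw [hwc, mul_assoc]
      nth_rewrite 2 [h2]
      abel
    rw [this]
    exact M.neg_mem (M.mul_mem_left y hm)

/-- Left-inverse form of the Bochner-Phillips theorem. -/
theorem exists_left_inverse {G : Type*} [AddCommGroup G] (e : G → A)
    (he0 : e 0 = 1) (head : ∀ k l, e (k + l) = e k * e l)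
    (hcomm : ∀ k x, e k * x = x * e k) (hnorm : ∀ k, ‖e k‖ ≤ 1)
    (a : G → A) (ha : Summable fun k => ‖a k‖)
    (hinv : ∀ χ : G → ℂ, χ 0 = 1 → (∀ k l, χ (k + l) = χ k * χ l) → (∀ k, ‖χ k‖ = 1) →
      ∃ x, x * ∑' k, χ k • a k = 1) :
    ∃ x, x * ∑' k, a k * e k = 1 := by
  by_contra hcon
  set s : A := ∑' k, a k * e k with hs
  have hspan : Ideal.span {s} ≠ ⊤ := by
    intro h
    rw [Ideal.eq_top_iff_one] at h
    obtain ⟨x, hx⟩ := Submodule.mem_span_singleton.1 h
    exact hcon ⟨x, hx⟩
  obtain ⟨M, hM, hle⟩ := Ideal.exists_le_maximal _ hspan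
  have hsM : s ∈ M := hle (Ideal.subset_span rfl)
  choose χ hχ using fun k => exists_sub_mem M hM (e k) (hcomm k)
  have h1M : (1 : A) ∉ M := fun h => hM.ne_top ((Ideal.eq_top_iff_one _).2 h)
  have huniq : ∀ (x : A) (l l' : ℂ), x - algebraMap ℂ A l ∈ M → x - algebraMap ℂ A l' ∈ M →
      l = l' := by
    intro x l l' h h'
    by_contra hne
    apply h1M
    have h3 : algebraMap ℂ A (l' - l) ∈ M := by
      have : algebraMap ℂ A (l' - l) = (x - algebraMap ℂ A l) - (x - algebraMap ℂ A l') := by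
        rw [map_sub]; abel
      rw [this]
      exact M.sub_mem h h'
    have h4 := M.mul_mem_left (algebraMap ℂ A (l' - l)⁻¹) h3
    rw [← map_mul, inv_mul_cancel₀ (sub_ne_zero.2 (Ne.symm hne)), map_one] at h4
    exact h4
  have hχ0 : χ 0 = 1 := by
    apply huniq (e 0) _ _ (hχ 0)
    rw [he0, map_one, sub_self]
    exact M.zero_mem
  have hχadd : ∀ k l, χ (k + l) = χ k * χ l := by
    intro k l
    apply huniq (e (k + l)) _ _ (hχ (k + l))
    have : e (k + l) - algebraMap ℂ A (χ k * χ l)
        = e k * (e l - algebraMap ℂ A (χ l)) + algebraMap ℂ A (χ l) * (e k - algebraMap ℂ A (χ k)) := by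
      rw [head, mul_sub, mul_sub, map_mul, ← Algebra.commutes (χ l) (e k),
        ← map_mul, ← map_mul, mul_comm (χ l) (χ k)]
      abel
    rw [this]
    exact M.add_mem (M.mul_mem_left _ (hχ l)) (M.mul_mem_left _ (hχ k))
  have hχpow : ∀ (k : G) (n : ℕ), χ (n • k) = χ k ^ n := by
    intro k n
    induction n with
    | zero => simp [hχ0]
    | succ n ih => rw [succ_nsmul, hχadd, ih, pow_succ]
  have hχbound : ∀ k, ‖χ k‖ ≤ ‖(1 : A)‖ := by
    intro k
    by_contra hlt
    push Not at hlt
    have h2 : χ k ∈ resolventSet ℂ (e k) := by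
      apply spectrum.mem_resolventSet_of_norm_lt_mul
      calc ‖e k‖ * ‖(1 : A)‖ ≤ 1 * ‖(1 : A)‖ := by gcongr; exact hnorm k
        _ < ‖χ k‖ := by rw [one_mul]; exact hlt
    rw [spectrum.mem_resolventSet_iff] at h2
    obtain ⟨u, hu⟩ := h2
    apply h1M
    have h3 : (u : A) ∈ M := by
      rw [hu]
      have : algebraMap ℂ A (χ k) - e k = -(e k - algebraMap ℂ A (χ k)) := by abel
      rw [this]
      exact M.neg_mem (hχ k)
    have h4 := M.mul_mem_left (↑u⁻¹ : A) h3
    rwa [Units.inv_mul] at h4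
  have hχle : ∀ k, ‖χ k‖ ≤ 1 := by
    intro k
    by_contra hlt
    push Not at hlt
    have h5 := tendsto_pow_atTop_atTop_of_one_lt hlt
    obtain ⟨n, hn⟩ := (h5.eventually_gt_atTop ‖(1 : A)‖).exists
    have h6 := hχbound (n • k)
    rw [hχpow, norm_pow] at h6
    exact absurd h6 (not_le.2 hn)
  have hχnorm : ∀ k, ‖χ k‖ = 1 := by
    intro k
    apply le_antisymm (hχle k)
    have h7 : χ k * χ (-k) = 1 := by rw [← hχadd, add_neg_cancel, hχ0]
    have h8 : ‖χ k‖ * ‖χ (-k)‖ = 1 := by rw [← norm_mul, h7, norm_one]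
    have h9 := hχle (-k)
    have h10 := norm_nonneg (χ k)
    nlinarith
  obtain ⟨x, hx⟩ := hinv χ hχ0 hχadd hχnorm
  have hsum1 : Summable fun k => a k * e k := by
    apply Summable.of_norm_bounded ha
    intro k
    calc ‖a k * e k‖ ≤ ‖a k‖ * ‖e k‖ := norm_mul_le _ _
      _ ≤ ‖a k‖ * 1 := by gcongr; exact hnorm k
      _ = ‖a k‖ := mul_one _
  have hsum2 : Summable fun k => χ k • a k := by
    apply Summable.of_norm_bounded ha
    intro k
    rw [norm_smul, hχnorm, one_mul]
  have hdiff : s - ∑' k, χ k • a k ∈ M := by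
    rw [hs, ← hsum1.tsum_sub hsum2]
    have hcl : IsClosed (M : Set A) := Ideal.IsMaximal.isClosed (hI := hM)
    apply hcl.mem_of_tendsto (hsum1.sub hsum2).hasSum
    filter_upwards with F
    apply M.sum_mem
    intro k _
    have : a k * e k - χ k • a k = a k * (e k - algebraMap ℂ A (χ k)) := by
      rw [mul_sub, ← Algebra.commutes, Algebra.smul_def]
    rw [this]
    exact M.mul_mem_left _ (hχ k)
  have haM : ∑' k, χ k • a k ∈ M := by
    have := M.sub_mem hsM hdiff
    rwa [sub_sub_cancel] at this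
  apply h1M
  rw [← hx]
  exact M.mul_mem_left x haM

/-- Right-inverse form of the Bochner-Phillips theorem. -/
theorem exists_right_inverse {G : Type*} [AddCommGroup G] (e : G → A)
    (he0 : e 0 = 1) (head : ∀ k l, e (k + l) = e k * e l)
    (hcomm : ∀ k x, e k * x = x * e k) (hnorm : ∀ k, ‖e k‖ ≤ 1)
    (a : G → A) (ha : Summable fun k => ‖a k‖)
    (hinv : ∀ χ : G → ℂ, χ 0 = 1 → (∀ k l, χ (k + l) = χ k * χ l) → (∀ k, ‖χ k‖ = 1) →
      ∃ x, (∑' k, χ k • a k) * x = 1) :
    ∃ x, (∑' k, a k * e k) * x = 1 := by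
  have hsumop : ∀ f : G → A, MulOpposite.op (∑' k, f k) = ∑' k, MulOpposite.op (f k) := by
    intro f
    exact (tsum_op (f := f)).symm
  obtain ⟨y, hy⟩ := exists_left_inverse (A := Aᵐᵒᵖ) (fun k => MulOpposite.op (e k))
    (by rw [he0]; rfl)
    (fun k l => by rw [head, MulOpposite.op_mul, ← MulOpposite.op_mul, ← MulOpposite.op_mul, hcomm])
    (fun k x => by
      obtain ⟨x', rfl⟩ := MulOpposite.op_surjective x
      rw [← MulOpposite.op_mul, ← MulOpposite.op_mul, hcomm])
    (fun k => by rw [MulOpposite.norm_op]; exact hnorm k)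
    (fun k => MulOpposite.op (a k)) (by simpa only [MulOpposite.norm_op] using ha)
    (by
      intro χ h0 h1 h2
      obtain ⟨x, hx⟩ := hinv χ h0 h1 h2
      refine ⟨MulOpposite.op x, ?_⟩
      have : ∑' k, χ k • MulOpposite.op (a k) = MulOpposite.op (∑' k, χ k • a k) := by
        rw [hsumop]; rfl
      rw [this, ← MulOpposite.op_mul, hx]; rfl)
  refine ⟨MulOpposite.unop y, ?_⟩
  have : ∑' k, MulOpposite.op (a k) * MulOpposite.op (e k)
      = MulOpposite.op (∑' k, a k * e k) := by
    rw [hsumop]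
    congr 1
    ext1 k
    rw [← MulOpposite.op_mul, hcomm]
  rw [this] at hy
  have h := congrArg MulOpposite.unop hy
  simpa using h

end Abstract

end Pool.Agent.MP_21eaa0_an
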